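import Pool.Agent.W_7e1bc5_h54.AutA

/-! A gadget which fixes vertices. -/

set_option autoImplicit false
set_option linter.unusedSectionVars false

namespace Pool.Agent.W_7e1bc5_h54

open Finset hiding val
open Pool.Agent.PolyTime
open Pool.Agent.W_d799b0_h82 (Bn val sz_str_le pf_mod)

/-- number of leaves at the vertex `i` -/
def cntA (n k i : ℕ) : ℕ := if i < k then n + 1 else (n + 1) * (i + 2)

/-- the bound for the number of leaves -/
def lw (n : ℕ) : ℕ := (n + 1) * (n + 1)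

theorem cntA_le {n k i : ℕ} (hi : i < n) : cntA n k i ≤ lw n := by
  rw [cntA, lw]
  split_ifs
  · nlinarith
  · exact Nat.mul_le_mul_left _ (by omega)

theorem cntA_div {n k i : ℕ} : cntA n k i / (n + 1) = if i < k then 1 else i + 2 := by
  rw [cntA]
  split_ifs
  · exact Nat.div_self (by omega)
  · exact Nat.mul_div_cancel_left _ (by omega)

/-- the gadget -/
def anchT {n : ℕ} (k : ℕ) (G : SimpleGraph (Fin n)) : SimpleGraph (Fin n × Fin (lw n + 1)) where
  Adj v w := (v.2 = 0 ∧ w.2 = 0 ∧ G.Adj v.1 w.1) ∨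
    (v.1 = w.1 ∧ v.2 = 0 ∧ w.2 ≠ 0 ∧ (w.2 : ℕ) ≤ cntA n k v.1) ∨
    (v.1 = w.1 ∧ w.2 = 0 ∧ v.2 ≠ 0 ∧ (v.2 : ℕ) ≤ cntA n k v.1)
  symm := ⟨by
    rintro v w (⟨h1, h2, h3⟩ | ⟨h1, h2⟩ | ⟨h1, h2⟩)
    · exact Or.inl ⟨h2, h1, h3.symm⟩
    · refine Or.inr (Or.inr ⟨h1.symm, ?_⟩)
      rwa [← h1]
    · refine Or.inr (Or.inl ⟨h1.symm, ?_⟩)
      rwa [← h1]⟩
  loopless := ⟨by
    rintro v (⟨-, -, h⟩ | ⟨-, h, h', -⟩ | ⟨-, h, h', -⟩)
    · exact h.ne rfl
    · exact h' h
    · exact h' h⟩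

open Classical in
/-- degree -/
noncomputable def dg {V : Type} [Fintype V] (G : SimpleGraph V) (v : V) : ℕ :=
  (univ.filter fun w => G.Adj v w).card

theorem dg_iso {V : Type} [Fintype V] {G H : SimpleGraph V} (e : G ≃g H) (v : V) :
    dg H (e v) = dg G v := by
  classical
  symm
  refine card_bij (fun w _ => e w) ?_ ?_ ?_
  · intro w hw
    rw [mem_filter] at hw ⊢
    exact ⟨mem_univ _, e.map_rel_iff.2 hw.2⟩
  · intro a _ b _ h
    exact e.injective h
  · intro w hw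
    rw [mem_filter] at hw
    refine ⟨e.symm w, ?_, e.apply_symm_apply w⟩
    rw [mem_filter]
    refine ⟨mem_univ _, ?_⟩
    rw [← e.map_rel_iff]
    have := hw.2
    rwa [← e.apply_symm_apply w] at this

theorem dg_main {n k : ℕ} (G : SimpleGraph (Fin n)) (i : Fin n) :
    dg (anchT k G) (i, 0) / (n + 1) = if (i : ℕ) < k then 1 else (i : ℕ) + 2 := by
  classical
  rw [← cntA_div]
  have h1 : cntA n k i ≤ dg (anchT k G) (i, 0) := by
    have h := card_le_card_of_injOn (s := range (cntA n k i))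
      (t := univ.filter fun w => (anchT k G).Adj (i, 0) w)
      (fun l => (i, if h : l + 1 < lw n + 1 then (⟨l + 1, h⟩ : Fin (lw n + 1)) else 0)) ?_ ?_
    · rwa [card_range] at h
    · intro l hl
      rw [mem_coe, mem_range] at hl
      have h2 : l + 1 < lw n + 1 := by
        have := cntA_le (k := k) i.2
        omega
      dsimp only
      rw [dif_pos h2, mem_coe, mem_filter]
      refine ⟨mem_univ _, Or.inr (Or.inl ⟨rfl, rfl, ?_, ?_⟩)⟩
      · intro h3
        have := congrArg Fin.val h3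
        simp at this
      · exact hl
    · intro a ha b hb h
      rw [mem_coe, mem_range] at ha hb
      have h2 : a + 1 < lw n + 1 := by
        have := cntA_le (k := k) i.2
        omega
      have h3 : b + 1 < lw n + 1 := by
        have := cntA_le (k := k) i.2
        omega
      simp only [dif_pos h2, dif_pos h3, Prod.mk.injEq, true_and, Fin.mk.injEq] at h
      omega
  have h2 : dg (anchT k G) (i, 0) ≤ n + cntA n k i := by
    have h : (univ.filter fun w => (anchT k G).Adj (i, 0) w) ⊆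
        (univ.image fun j : Fin n => ((j, 0) : Fin n × Fin (lw n + 1))) ∪
        ((range (cntA n k i)).image fun l =>
          ((i, if h : l + 1 < lw n + 1 then (⟨l + 1, h⟩ : Fin (lw n + 1)) else 0) :
            Fin n × Fin (lw n + 1))) := by
      rintro ⟨j, m⟩ hw
      rw [mem_filter] at hw
      rw [mem_union, mem_image, mem_image]
      rcases hw.2 with ⟨-, h, -⟩ | ⟨h3, -, h4, h5⟩ | ⟨-, -, h, -⟩
      · left
        refine ⟨j, mem_univ _, ?_⟩
        dsimp only at h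
        rw [h]
      · right
        dsimp only at h3 h4 h5
        have h6 : (m : ℕ) ≠ 0 := fun h => h4 (Fin.ext h)
        refine ⟨m - 1, ?_, ?_⟩
        · rw [mem_range]
          omega
        · have h7 : (m : ℕ) - 1 + 1 < lw n + 1 := by
            have := m.2
            omega
          rw [dif_pos h7, h3]
          refine Prod.ext rfl (Fin.ext ?_)
          show (m : ℕ) - 1 + 1 = m
          omega
      · exact absurd rfl h
    have h3 := (card_le_card h).trans (card_union_le _ _)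
    have h4 := card_image_le (s := (univ : Finset (Fin n)))
      (f := fun j : Fin n => ((j, 0) : Fin n × Fin (lw n + 1)))
    have h5 := card_image_le (s := range (cntA n k i)) (f := fun l =>
          ((i, if h : l + 1 < lw n + 1 then (⟨l + 1, h⟩ : Fin (lw n + 1)) else 0) :
            Fin n × Fin (lw n + 1)))
    rw [card_univ, Fintype.card_fin] at h4
    rw [card_range] at h5
    exact h3.trans (by omega)
  have h3 : cntA n k i = (n + 1) * (cntA n k i / (n + 1)) := by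
    rw [cntA_div, cntA]
    split_ifs
    · ring
    · rfl
  obtain ⟨d, hd⟩ := Nat.exists_eq_add_of_le h1
  rw [hd]
  conv_lhs => rw [h3]
  rw [Nat.mul_add_div (by omega), Nat.div_eq_of_lt (show d < n + 1 by omega), add_zero]

theorem dg_leaf {n k : ℕ} (G : SimpleGraph (Fin n)) (v : Fin n × Fin (lw n + 1)) (hv : v.2 ≠ 0) :
    dg (anchT k G) v / (n + 1) = 0 := by
  classical
  apply Nat.div_eq_of_lt
  have h : (univ.filter fun w => (anchT k G).Adj v w) ⊆ {(v.1, 0)} := by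
    rintro ⟨j, m⟩ hw
    rw [mem_filter] at hw
    rw [mem_singleton]
    rcases hw.2 with ⟨h, -, -⟩ | ⟨-, h, -, -⟩ | ⟨h1, h2, -, -⟩
    · exact absurd h hv
    · exact absurd h hv
    · exact Prod.ext h1.symm h2
  have h2 := card_le_card h
  rw [card_singleton] at h2
  have h3 := v.1.2
  have h4 : dg (anchT k G) v ≤ 1 := h2
  omega

theorem anchT_iff {n : ℕ} (k : ℕ) (G H : SimpleGraph (Fin n)) :
    Nonempty (anchT k G ≃g anchT k H) ↔ AI k G H := by
  constructor
  · rintro ⟨e⟩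
    have h1 : ∀ i : Fin n, (e (i, 0)).2 = 0 := by
      intro i
      by_contra h
      have h2 := dg_leaf (k := k) H _ h
      rw [dg_iso, dg_main] at h2
      split_ifs at h2
    have h2 : ∀ i : Fin n, e (i, 0) = ((e (i, 0)).1, 0) := fun i => Prod.ext rfl (h1 i)
    have hinj : Function.Injective fun i : Fin n => (e (i, 0)).1 := by
      intro i j h
      have h3 : e (i, 0) = e (j, 0) := Prod.ext h ((h1 i).trans (h1 j).symm)
      exact congrArg Prod.fst (e.injective h3)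
    refine ⟨Equiv.ofBijective _ (Finite.injective_iff_bijective.1 hinj), ?_, ?_⟩
    · intro i j
      have h3 := e.map_rel_iff (a := (i, 0)) (b := (j, 0))
      have h4 : ∀ (K : SimpleGraph (Fin n)) (i j : Fin n),
          (anchT k K).Adj (i, 0) (j, 0) ↔ K.Adj i j := by
        intro K i j
        constructor
        · rintro (⟨-, -, h⟩ | ⟨-, -, h, -⟩ | ⟨-, -, h, -⟩)
          · exact h
          · exact absurd rfl h
          · exact absurd rfl h
        · intro h
          exact Or.inl ⟨rfl, rfl, h⟩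
      rw [h2 i, h2 j, h4, h4] at h3
      exact h3
    · intro i hi
      have h3 := dg_iso e (i, 0)
      have h4 := dg_main (k := k) H (e (i, 0)).1
      rw [← h2 i, h3, dg_main, if_neg (by omega)] at h4
      have h5 : ((e (i, 0)).1 : ℕ) = i := by
        split_ifs at h4 <;> omega
      exact Fin.ext h5
  · rintro ⟨σ, h1, h2⟩
    have h0 : ∀ i : Fin n, (i : ℕ) < k → (σ i : ℕ) < k := by
      intro i hi
      by_contra h
      have h3 := h2 (σ i) (by omega)
      have h4 := σ.injective h3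
      rw [h4] at h
      exact h hi
    have hc : ∀ i : Fin n, cntA n k (σ i) = cntA n k i := by
      intro i
      by_cases hi : (i : ℕ) < k
      · rw [cntA, cntA, if_pos hi, if_pos (h0 i hi)]
      · rw [h2 i (by omega)]
    refine ⟨⟨Equiv.prodCongr σ (Equiv.refl _), ?_⟩⟩
    rintro ⟨i, l⟩ ⟨j, m⟩
    show ((l = 0 ∧ m = 0 ∧ H.Adj (σ i) (σ j)) ∨
      (σ i = σ j ∧ l = 0 ∧ m ≠ 0 ∧ (m : ℕ) ≤ cntA n k (σ i)) ∨
      (σ i = σ j ∧ m = 0 ∧ l ≠ 0 ∧ (l : ℕ) ≤ cntA n k (σ i))) ↔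
      ((l = 0 ∧ m = 0 ∧ G.Adj i j) ∨
      (i = j ∧ l = 0 ∧ m ≠ 0 ∧ (m : ℕ) ≤ cntA n k i) ∨
      (i = j ∧ m = 0 ∧ l ≠ 0 ∧ (l : ℕ) ≤ cntA n k i))
    rw [h1, hc, σ.injective.eq_iff]

/-- the gadget on strings -/
def anchS (k n : ℕ) (s : List Bool) : List Bool :=
  mk (n * (lw n + 1)) fun v w =>
    (decide (v % (lw n + 1) = 0) && decide (w % (lw n + 1) = 0) &&
      (nrmS n s).getD (v / (lw n + 1) * n + w / (lw n + 1)) false) ||
    (decide (v / (lw n + 1) = w / (lw n + 1)) && decide (v % (lw n + 1) = 0) &&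
      !decide (w % (lw n + 1) = 0) && decide (w % (lw n + 1) ≤ cntA n k (v / (lw n + 1))))

theorem pf_div {γ : Type} [ToD γ] {f g : γ → ℕ} (hf : PF f) (hg : PF g) :
    PF (fun c => f c / g c) :=
  PN.toNat (PN.div (PN.ofNat hf) (PN.ofNat hg)) hf fun _ => Nat.div_le_self _ _

theorem pf_cntA {γ : Type} [ToD γ] {n k i : γ → ℕ} (hn : PF n) (hk : PF k) (hi : PF i) :
    PF (fun c => cntA (n c) (k c) (i c)) := by
  have h : PF (fun c => if decide (i c < k c) then n c + 1 else (n c + 1) * (i c + 2)) :=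
    PF.ite (hi.lt hk) hn.succ (hn.succ.mul (hi.add (PF.const 2)))
  have e : (fun c => cntA (n c) (k c) (i c)) =
      fun c => if decide (i c < k c) then n c + 1 else (n c + 1) * (i c + 2) := by
    funext c
    simp [cntA]
  rw [e]
  exact h

theorem pf_lw {γ : Type} [ToD γ] {n : γ → ℕ} (hn : PF n) : PF (fun c => lw (n c)) :=
  hn.succ.mul hn.succ

theorem pf_anchS {γ : Type} [ToD γ] {k n : γ → ℕ} {s : γ → List Bool} (hk : PF k) (hn : PF n)
    (hs : PF s) : PF (fun c => anchS (k c) (n c) (s c)) := by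
  unfold anchS
  have hc : PF (fun x : (γ × ℕ) × ℕ => x.1.1) := PF.fst'.fst
  have hv : PF (fun x : (γ × ℕ) × ℕ => x.1.2) := PF.fst'.snd
  have hw : PF (fun x : (γ × ℕ) × ℕ => x.2) := PF.snd'
  have hl : PF (fun x : (γ × ℕ) × ℕ => lw (n x.1.1) + 1) := (pf_lw (hn.comp hc)).succ
  have hvm : PF (fun x : (γ × ℕ) × ℕ => x.1.2 % (lw (n x.1.1) + 1)) := pf_mod hv hl
  have hwm : PF (fun x : (γ × ℕ) × ℕ => x.2 % (lw (n x.1.1) + 1)) := pf_mod hw hl
  have hvd : PF (fun x : (γ × ℕ) × ℕ => x.1.2 / (lw (n x.1.1) + 1)) := pf_div hv hl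
  have hwd : PF (fun x : (γ × ℕ) × ℕ => x.2 / (lw (n x.1.1) + 1)) := pf_div hw hl
  refine PF.mk (A := fun c v w => (decide (v % (lw (n c) + 1) = 0) &&
      decide (w % (lw (n c) + 1) = 0) &&
      (nrmS (n c) (s c)).getD (v / (lw (n c) + 1) * n c + w / (lw (n c) + 1)) false) ||
    (decide (v / (lw (n c) + 1) = w / (lw (n c) + 1)) && decide (v % (lw (n c) + 1) = 0) &&
      !decide (w % (lw (n c) + 1) = 0) &&
      decide (w % (lw (n c) + 1) ≤ cntA (n c) (k c) (v / (lw (n c) + 1)))))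
    (hn.mul (pf_lw hn).succ) ?_
  refine PF.or ?_ ?_
  · refine PF.and (PF.and (hvm.natEq (PF.const 0)) (hwm.natEq (PF.const 0))) ?_
    exact PF.getD (PF.nrmS (hn.comp hc) (hs.comp hc)) ((hvd.mul (hn.comp hc)).add hwd)
      (PF.const false)
  · refine PF.and (PF.and (PF.and (hvd.natEq hwd) (hvm.natEq (PF.const 0)))
      (hwm.natEq (PF.const 0)).not) ?_
    exact hwm.le (pf_cntA (hn.comp hc) (hk.comp hc) hvd)

/-- numbering of the vertices of the gadget -/
def numA (n L : ℕ) (v : Fin n × Fin (L + 1)) : Fin (n * (L + 1)) := finProdFinEquiv v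

theorem numA_div {n L : ℕ} (v : Fin n × Fin (L + 1)) : (numA n L v : ℕ) / (L + 1) = v.1 := by
  rw [numA, finProdFinEquiv_apply_val, Nat.add_mul_div_left _ _ (by omega),
    Nat.div_eq_of_lt v.2.2, zero_add]

theorem numA_mod {n L : ℕ} (v : Fin n × Fin (L + 1)) : (numA n L v : ℕ) % (L + 1) = v.2 := by
  rw [numA, finProdFinEquiv_apply_val, Nat.add_mul_mod_self_left, Nat.mod_eq_of_lt v.2.2]

theorem anchS_adj {n : ℕ} (k : ℕ) (s : List Bool) (v w : Fin n × Fin (lw n + 1)) :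
    (gr (n * (lw n + 1)) (anchS k n s)).Adj (numA n (lw n) v) (numA n (lw n) w) ↔
      (anchT k (gr n s)).Adj v w := by
  classical
  rw [anchS, gr_mk_adj, numA_div, numA_div, numA_mod, numA_mod]
  have h1 : ∀ i j : Fin n, (nrmS n s).getD (i * n + j) false = decide ((gr n s).Adj i j) := by
    intro i j
    rw [← encG_gr, encG_getD]
  rw [h1, h1]
  have h2 : ∀ l : Fin (lw n + 1), ((l : ℕ) = 0) ↔ l = 0 := fun l =>
    ⟨fun h => Fin.ext h, fun h => by rw [h]; rfl⟩
  simp only [Bool.or_eq_true, Bool.and_eq_true, decide_eq_true_eq, Bool.not_eq_true',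
    decide_eq_false_iff_not, h2, ← Fin.ext_iff]
  have hne : numA n (lw n) v ≠ numA n (lw n) w ↔ v ≠ w := by
    rw [numA, numA, ne_eq, EmbeddingLike.apply_eq_iff_eq]
  rw [hne]
  constructor
  · rintro ⟨-, (⟨⟨h3, h4⟩, h5⟩ | ⟨⟨⟨h3, h4⟩, h5⟩, h6⟩) | (⟨⟨h3, h4⟩, h5⟩ | ⟨⟨⟨h3, h4⟩, h5⟩, h6⟩)⟩
    · exact Or.inl ⟨h3, h4, h5⟩
    · exact Or.inr (Or.inl ⟨h3, h4, h5, h6⟩)
    · exact Or.inl ⟨h4, h3, h5.symm⟩
    · refine Or.inr (Or.inr ⟨h3.symm, h4, h5, ?_⟩)
      rwa [← h3]
  · intro h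
    refine ⟨h.ne, ?_⟩
    rcases h with ⟨h3, h4, h5⟩ | ⟨h3, h4, h5, h6⟩ | ⟨h3, h4, h5, h6⟩
    · exact Or.inl (Or.inl ⟨⟨h3, h4⟩, h5⟩)
    · exact Or.inl (Or.inr ⟨⟨⟨h3, h4⟩, h5⟩, h6⟩)
    · refine Or.inr (Or.inr ⟨⟨⟨h3.symm, h4⟩, h5⟩, ?_⟩)
      rwa [← h3]

theorem anchS_iff (n k : ℕ) (s t : List Bool) :
    Isom (gr (n * (lw n + 1)) (anchS k n s)) (gr (n * (lw n + 1)) (anchS k n t)) ↔
      AI k (gr n s) (gr n t) := by
  rw [← anchT_iff]
  have e : ∀ s : List Bool, anchT k (gr n s) ≃g gr (n * (lw n + 1)) (anchS k n s) := fun s =>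
    ⟨finProdFinEquiv, fun {v w} => anchS_adj k s v w⟩
  constructor
  · rintro ⟨f⟩
    exact ⟨(e s).trans (f.trans (e t).symm)⟩
  · rintro ⟨f⟩
    exact ⟨(e s).symm.trans (f.trans (e t))⟩

end Pool.Agent.W_7e1bc5_h54
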