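import Pool.Agent.W_7e1bc5_h54.PermS

/-! Isomorphisms, automorphisms and the pointwise stabilizer chain. -/

set_option autoImplicit false
set_option linter.unusedSectionVars false

namespace Pool.Agent.W_7e1bc5_h54

open Finset

theorem pinv {n : ℕ} (σ : Equiv.Perm (Fin n)) (i : Fin n) : σ (σ⁻¹ i) = i :=
  σ.apply_symm_apply i

theorem pinv' {n : ℕ} (σ : Equiv.Perm (Fin n)) (i : Fin n) : σ⁻¹ (σ i) = i :=
  σ.symm_apply_apply i

/-- `σ` is an isomorphism from `G` to `H` -/
def IsI {n : ℕ} (G H : SimpleGraph (Fin n)) (σ : Equiv.Perm (Fin n)) : Prop :=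
  ∀ i j, H.Adj (σ i) (σ j) ↔ G.Adj i j

theorem isom_iff {n : ℕ} (G H : SimpleGraph (Fin n)) : Isom G H ↔ ∃ σ, IsI G H σ := by
  constructor
  · rintro ⟨e⟩
    exact ⟨e.toEquiv, fun i j => e.map_rel_iff⟩
  · rintro ⟨σ, h⟩
    exact ⟨⟨σ, fun {i j} => h i j⟩⟩

theorem IsI.one {n : ℕ} (G : SimpleGraph (Fin n)) : IsI G G 1 := fun _ _ => Iff.rfl

theorem IsI.mul {n : ℕ} {G H K : SimpleGraph (Fin n)} {σ τ : Equiv.Perm (Fin n)}
    (h : IsI H K σ) (h' : IsI G H τ) : IsI G K (σ * τ) := fun i j => by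
  rw [Equiv.Perm.mul_apply, Equiv.Perm.mul_apply, h, h']

theorem IsI.inv {n : ℕ} {G H : SimpleGraph (Fin n)} {σ : Equiv.Perm (Fin n)}
    (h : IsI G H σ) : IsI H G σ⁻¹ := fun i j => by
  rw [← h, pinv, pinv]

theorem Isom.refl {n : ℕ} (G : SimpleGraph (Fin n)) : Isom G G := (isom_iff _ _).2 ⟨1, IsI.one G⟩

theorem Isom.symm {n : ℕ} {G H : SimpleGraph (Fin n)} (h : Isom G H) : Isom H G := by
  obtain ⟨σ, h⟩ := (isom_iff _ _).1 h
  exact (isom_iff _ _).2 ⟨_, h.inv⟩

theorem Isom.trans {n : ℕ} {G H K : SimpleGraph (Fin n)} (h : Isom G H) (h' : Isom H K) :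
    Isom G K := by
  obtain ⟨σ, h⟩ := (isom_iff _ _).1 h
  obtain ⟨τ, h'⟩ := (isom_iff _ _).1 h'
  exact (isom_iff _ _).2 ⟨_, h'.mul h⟩

open Classical in
theorem isos_def {n : ℕ} (G H : SimpleGraph (Fin n)) :
    isos G H = (univ.filter fun σ : Equiv.Perm (Fin n) => IsI G H σ).card := by
  rw [isos]
  refine congrArg card (filter_congr fun σ _ => ?_)
  rfl

open Classical in
theorem isos_of_isom {n : ℕ} {G H : SimpleGraph (Fin n)} (h : Isom G H) :
    isos G H = isos G G := by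
  obtain ⟨σ, h⟩ := (isom_iff _ _).1 h
  rw [isos_def, isos_def]
  refine card_bij' (fun τ _ => σ⁻¹ * τ) (fun τ _ => σ * τ) ?_ ?_ ?_ ?_
  · intro τ hτ
    rw [mem_filter] at hτ ⊢
    exact ⟨mem_univ _, h.inv.mul hτ.2⟩
  · intro τ hτ
    rw [mem_filter] at hτ ⊢
    exact ⟨mem_univ _, h.mul hτ.2⟩
  · intro τ _
    exact mul_inv_cancel_left _ _
  · intro τ _
    exact inv_mul_cancel_left _ _

theorem isos_of_not {n : ℕ} {G H : SimpleGraph (Fin n)} (h : ¬ Isom G H) : isos G H = 0 := by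
  classical
  rw [isos_def, card_eq_zero, filter_eq_empty_iff]
  intro σ _ h'
  exact h ((isom_iff _ _).2 ⟨σ, h'⟩)

theorem isos_pos {n : ℕ} (G : SimpleGraph (Fin n)) : 0 < isos G G := by
  classical
  rw [isos_def, card_pos]
  exact ⟨1, by rw [mem_filter]; exact ⟨mem_univ _, IsI.one G⟩⟩

theorem isos_eq_ind {n : ℕ} (G H : SimpleGraph (Fin n)) :
    isos G H = isos G G * isoInd G H := by
  unfold isoInd
  split_ifs with h
  · rw [isos_of_isom h, mul_one]
  · rw [isos_of_not h, mul_zero]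

open Classical in
/-- the image of a graph -/
def pushG {n : ℕ} (G : SimpleGraph (Fin n)) (σ : Equiv.Perm (Fin n)) : SimpleGraph (Fin n) where
  Adj i j := G.Adj (σ⁻¹ i) (σ⁻¹ j)
  symm := ⟨fun _ _ h => h.symm⟩
  loopless := ⟨fun _ h => h.ne rfl⟩

theorem isI_push {n : ℕ} (G H : SimpleGraph (Fin n)) (σ : Equiv.Perm (Fin n)) :
    IsI G H σ ↔ H = pushG G σ := by
  constructor
  · intro h
    ext i j
    rw [pushG, ← h, pinv, pinv]
  · rintro rfl i j
    show G.Adj (σ⁻¹ (σ i)) (σ⁻¹ (σ j)) ↔ _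
    rw [pinv', pinv']

open Classical in
theorem sum_isos {n : ℕ} (G : SimpleGraph (Fin n)) :
    ∑ H : SimpleGraph (Fin n), isos G H = n.factorial := by
  simp only [isos_def, card_filter]
  rw [sum_comm]
  simp only [isI_push]
  rw [sum_congr rfl fun σ _ => by rw [sum_ite_eq' univ (pushG G σ) (fun _ => 1),
    if_pos (mem_univ _)]]
  rw [sum_const, smul_eq_mul, mul_one, card_univ, Fintype.card_perm, Fintype.card_fin]

open Classical in
theorem copies_eq {n : ℕ} (G : SimpleGraph (Fin n)) :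
    copies G = ∑ H : SimpleGraph (Fin n), isoInd G H := by
  rw [copies]
  have h : {H : SimpleGraph (Fin n) | Isom G H} =
      ((univ.filter fun H => Isom G H : Finset (SimpleGraph (Fin n))) :
        Set (SimpleGraph (Fin n))) := by
    ext H
    simp
  rw [h, Set.ncard_coe_finset, card_filter]
  rfl

theorem copies_mul {n : ℕ} (G : SimpleGraph (Fin n)) : copies G * isos G G = n.factorial := by
  classical
  rw [← sum_isos G, copies_eq, sum_mul]
  exact sum_congr rfl fun H _ => by rw [isos_eq_ind G H, mul_comm]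

/-! ### the chain -/

open Classical in
/-- automorphisms which fix the points `i ≥ k` -/
noncomputable def autS {n : ℕ} (k : ℕ) (G : SimpleGraph (Fin n)) : Finset (Equiv.Perm (Fin n)) :=
  univ.filter fun σ => IsI G G σ ∧ ∀ i : Fin n, k ≤ i → σ i = i

theorem mem_autS {n k : ℕ} {G : SimpleGraph (Fin n)} {σ : Equiv.Perm (Fin n)} :
    σ ∈ autS k G ↔ IsI G G σ ∧ ∀ i : Fin n, k ≤ i → σ i = i := by
  classical
  rw [autS, mem_filter]
  exact ⟨fun h => h.2, fun h => ⟨mem_univ _, h⟩⟩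

theorem autS_zero {n : ℕ} (G : SimpleGraph (Fin n)) : (autS 0 G).card = 1 := by
  rw [card_eq_one]
  refine ⟨1, ?_⟩
  ext σ
  rw [mem_autS, mem_singleton]
  constructor
  · intro h
    ext i
    rw [h.2 i (Nat.zero_le _)]
    rfl
  · rintro rfl
    exact ⟨IsI.one G, fun _ _ => rfl⟩

theorem autS_all {n : ℕ} (G : SimpleGraph (Fin n)) : (autS n G).card = isos G G := by
  classical
  rw [isos_def]
  congr 1
  ext σ
  rw [mem_autS, mem_filter]
  constructor
  · intro h
    exact ⟨mem_univ _, h.1⟩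
  · intro h
    exact ⟨h.2, fun i hi => absurd i.2 (by omega)⟩

/-- there is an isomorphism which fixes the points `i ≥ k` -/
def AI {n : ℕ} (k : ℕ) (G H : SimpleGraph (Fin n)) : Prop :=
  ∃ σ, IsI G H σ ∧ ∀ i : Fin n, k ≤ i → σ i = i

theorem swap_fix {n : ℕ} {k j i : Fin n} (hj : j < k) (hi : k < i) :
    Equiv.swap k j i = i :=
  Equiv.swap_apply_of_ne_of_ne hi.ne' (hj.trans hi).ne'

theorem ai_swap {n : ℕ} (G : SimpleGraph (Fin n)) (k j : Fin n) (hj : j < k) :
    AI k G (pushG G (Equiv.swap k j)) ↔ ∃ σ ∈ autS (k + 1) G, σ k = j := by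
  have h0 : IsI G (pushG G (Equiv.swap k j)) (Equiv.swap k j) := (isI_push _ _ _).2 rfl
  have hss : (Equiv.swap k j)⁻¹ = Equiv.swap k j := Equiv.swap_inv _ _
  constructor
  · rintro ⟨σ, h1, h2⟩
    refine ⟨Equiv.swap k j * σ, ?_, ?_⟩
    · rw [mem_autS]
      refine ⟨?_, ?_⟩
      · have := h0.inv.mul h1
        rwa [hss] at this
      · intro i hi
        have hi' : k < i := hi
        rw [Equiv.Perm.mul_apply, h2 i hi'.le, swap_fix hj hi']
    · rw [Equiv.Perm.mul_apply, h2 k le_rfl, Equiv.swap_apply_left]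
  · rintro ⟨σ, h1, h2⟩
    rw [mem_autS] at h1
    refine ⟨Equiv.swap k j * σ, h0.mul h1.1, ?_⟩
    intro i hi
    rcases eq_or_lt_of_le (show k ≤ i from hi) with rfl | h
    · rw [Equiv.Perm.mul_apply, h2, Equiv.swap_apply_right]
    · rw [Equiv.Perm.mul_apply, h1.2 i h, swap_fix hj h]

/-- `j` is in the orbit of `k` -/
def InO {n : ℕ} (G : SimpleGraph (Fin n)) (k j : Fin n) : Prop :=
  ∃ σ ∈ autS (k + 1) G, σ k = j

open Classical in
theorem fiber_card {n : ℕ} (G : SimpleGraph (Fin n)) (k j : Fin n) :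
    ((autS (k + 1) G).filter fun σ => σ k = j).card =
      if InO G k j then (autS k G).card else 0 := by
  split_ifs with h
  · obtain ⟨σ, h1, h2⟩ := h
    rw [mem_autS] at h1
    symm
    refine card_bij' (fun τ _ => σ * τ) (fun τ _ => σ⁻¹ * τ) ?_ ?_ ?_ ?_
    · intro τ hτ
      rw [mem_autS] at hτ
      rw [mem_filter, mem_autS]
      refine ⟨⟨h1.1.mul hτ.1, ?_⟩, ?_⟩
      · intro i hi
        rw [Equiv.Perm.mul_apply, hτ.2 i (by omega), h1.2 i hi]
      · rw [Equiv.Perm.mul_apply, hτ.2 k le_rfl, h2]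
    · intro τ hτ
      rw [mem_filter, mem_autS] at hτ
      rw [mem_autS]
      refine ⟨h1.1.inv.mul hτ.1.1, ?_⟩
      intro i hi
      rw [Equiv.Perm.mul_apply, Equiv.Perm.inv_eq_iff_eq]
      rcases eq_or_lt_of_le (show k ≤ i from hi) with rfl | h
      · rw [hτ.2, h2]
      · rw [hτ.1.2 i h, h1.2 i h]
    · intro τ _
      exact inv_mul_cancel_left _ _
    · intro τ _
      exact mul_inv_cancel_left _ _
  · rw [card_eq_zero, filter_eq_empty_iff]
    intro σ hσ h'
    exact h ⟨σ, hσ, h'⟩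

theorem sum_ite_const {ι : Type} (s : Finset ι) (P : ι → Prop) [DecidablePred P] (c : ℕ) :
    ∑ j ∈ s, (if P j then c else 0) = (s.filter P).card * c := by
  rw [← sum_filter, sum_const, smul_eq_mul]

open Classical in
/-- the number of points in the orbit of `k` different from `k` -/
noncomputable def orb {n : ℕ} (k : ℕ) (G : SimpleGraph (Fin n)) : ℕ :=
  if hk : k < n then
    ((range k).filter fun j => ∃ hj : j < n,
      AI k G (pushG G (Equiv.swap ⟨k, hk⟩ ⟨j, hj⟩))).card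
  else 0

theorem autS_succ {n : ℕ} (G : SimpleGraph (Fin n)) (k : Fin n) :
    (autS (k + 1) G).card = (orb k G + 1) * (autS k G).card := by
  classical
  rw [card_eq_sum_card_fiberwise (f := fun σ => σ k) (t := univ) (fun σ _ => by simp)]
  rw [show (∑ j : Fin n, ((autS (k + 1) G).filter fun σ => σ k = j).card) =
    (univ.filter fun j : Fin n => InO G k j).card * (autS k G).card from
    (sum_congr rfl fun j _ => fiber_card G k j).trans (sum_ite_const _ _ _)]
  have h1 : ∀ j : Fin n, k < j → ¬ InO G k j := by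
    rintro j hj ⟨σ, h1, h2⟩
    rw [mem_autS] at h1
    have h3 := h1.2 j hj
    rw [← h2] at h3
    have h4 := σ.injective h3
    rw [h2] at h4
    exact hj.ne' h4
  have h2 : InO G k k := ⟨1, by
    rw [mem_autS]
    exact ⟨IsI.one G, fun _ _ => rfl⟩, rfl⟩
  congr 1
  have h3 : (univ.filter fun j : Fin n => InO G k j) =
      insert k (univ.filter fun j : Fin n => j < k ∧ InO G k j) := by
    ext j
    rw [mem_filter, mem_insert, mem_filter]
    constructor
    · rintro ⟨h, h'⟩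
      rcases lt_trichotomy j k with h4 | h4 | h4
      · exact Or.inr ⟨h, h4, h'⟩
      · exact Or.inl h4
      · exact absurd h' (h1 j h4)
    · rintro (rfl | ⟨h, -, h'⟩)
      · exact ⟨mem_univ _, h2⟩
      · exact ⟨h, h'⟩
  rw [h3, card_insert_of_notMem (by
    rw [mem_filter]
    rintro ⟨-, h, -⟩
    exact lt_irrefl _ h)]
  congr 1
  rw [orb, dif_pos k.2]
  refine card_bij (fun j _ => (j : ℕ)) ?_ ?_ ?_
  · intro j hj
    rw [mem_filter] at hj
    rw [mem_filter, mem_range]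
    exact ⟨hj.2.1, j.2, (ai_swap G k j hj.2.1).2 hj.2.2⟩
  · intro a _ b _ h
    exact Fin.ext h
  · intro j hj
    rw [mem_filter, mem_range] at hj
    obtain ⟨h4, h5, h6⟩ := hj
    refine ⟨⟨j, h5⟩, ?_, rfl⟩
    rw [mem_filter]
    exact ⟨mem_univ _, h4, (ai_swap G k ⟨j, h5⟩ h4).1 h6⟩

theorem prod_orb {n : ℕ} (G : SimpleGraph (Fin n)) :
    ∏ k ∈ range n, (orb k G + 1) = isos G G := by
  rw [← autS_all]
  have h : ∀ m ≤ n, ∏ k ∈ range m, (orb k G + 1) = (autS m G).card := by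
    intro m
    induction m with
    | zero =>
      intro _
      rw [autS_zero, range_zero, prod_empty]
    | succ m ih =>
      intro hm
      rw [prod_range_succ, ih (by omega), autS_succ G ⟨m, hm⟩]
      ring
  exact h n le_rfl

end Pool.Agent.W_7e1bc5_h54
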