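import Pool.Agent.W_7e1bc5_h54.PNx

/-! Multipliers. -/

set_option autoImplicit false
set_option linter.unusedSectionVars false

namespace Pool.Agent.W_7e1bc5_h54

open Finset hiding val
open Pool.Agent.PolyTime
open Pool.Agent.W_d799b0_h82 (Bn val sz_str_le pf_mod)

variable {γ α : Type} [ToD γ] [ToD α]

/-- divisors of factorials of polynomials -/
def FBT (h : γ → ℕ) : Prop := ∃ t : Polynomial ℕ, ∀ c, h c ∣ (t.eval (sz c)).factorial

theorem fact_dvd {a b : ℕ} (h : a ≤ b) : a.factorial ∣ b.factorial :=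
  Nat.factorial_dvd_factorial h

theorem FBT.comp {h : α → ℕ} {f : γ → α} (hh : FBT h) (hf : PF f) : FBT (fun c => h (f c)) := by
  obtain ⟨t, ht⟩ := hh
  obtain ⟨P, hP⟩ := hf.bound
  refine ⟨t.comp P, fun c => (ht (f c)).trans (fact_dvd ?_)⟩
  rw [Polynomial.eval_comp]
  exact eval_mono t (hP c)

theorem FBT.mul {h g : γ → ℕ} (hh : FBT h) (hg : FBT g) : FBT (fun c => h c * g c) := by
  obtain ⟨t, ht⟩ := hh
  obtain ⟨u, hu⟩ := hg
  refine ⟨t + u, fun c => ?_⟩
  rw [Polynomial.eval_add]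
  exact (mul_dvd_mul (ht c) (hu c)).trans (Nat.factorial_mul_factorial_dvd_factorial_add _ _)

theorem FBT.const (k : ℕ) (hk : 0 < k) : FBT (fun _ : γ => k) := by
  refine ⟨Polynomial.C k, fun c => ?_⟩
  rw [Polynomial.eval_C]
  exact Nat.dvd_factorial hk le_rfl

theorem FBT.fact {n : γ → ℕ} (hn : PF n) : FBT (fun c => (n c).factorial) := by
  obtain ⟨P, hP⟩ := hn.bound
  refine ⟨P, fun c => fact_dvd ?_⟩
  have := hP c
  rw [sz_nat] at this
  omega

theorem fact_pow_dvd (a n : ℕ) : a.factorial ^ n ∣ (n * a).factorial := by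
  induction n with
  | zero => simp
  | succ n ih =>
    rw [pow_succ, Nat.succ_mul]
    exact (mul_dvd_mul ih (dvd_refl _)).trans (Nat.factorial_mul_factorial_dvd_factorial_add _ _)

theorem FBT.prodRange {g : γ × ℕ → ℕ} {n : γ → ℕ} (hg : FBT g) (hn : PF n) :
    FBT (fun c => ∏ i ∈ range (n c), g (c, i)) := by
  obtain ⟨t, ht⟩ := hg
  obtain ⟨Q, hQ⟩ := hn.bound
  refine ⟨Q * t.comp (Polynomial.X + Q + 2), fun c => ?_⟩
  have h1 : n c ≤ Q.eval (sz c) := by
    have := hQ c
    rw [sz_nat] at this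
    omega
  have h2 : ∏ i ∈ range (n c), g (c, i) ∣
      ((t.comp (Polynomial.X + Q + 2)).eval (sz c)).factorial ^ n c := by
    calc ∏ i ∈ range (n c), g (c, i) ∣
        ∏ i ∈ range (n c), ((t.comp (Polynomial.X + Q + 2)).eval (sz c)).factorial := by
          refine prod_dvd_prod_of_dvd _ _ fun i hi => (ht (c, i)).trans (fact_dvd ?_)
          rw [Polynomial.eval_comp]
          apply eval_mono
          rw [mem_range] at hi
          rw [sz_pair, sz_nat]
          have := hQ c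
          rw [sz_nat] at this
          simp only [Polynomial.eval_add, Polynomial.eval_X, Polynomial.eval_ofNat]
          omega
      _ = _ := by rw [prod_const, card_range]
  refine h2.trans ((fact_pow_dvd _ _).trans (fact_dvd ?_))
  rw [Polynomial.eval_mul]
  exact Nat.mul_le_mul_right _ h1

theorem FBT.of_dvd {h g : γ → ℕ} (hg : FBT g) (hd : ∀ c, h c ∣ g c) : FBT h := by
  obtain ⟨t, ht⟩ := hg
  exact ⟨t, fun c => (hd c).trans (ht c)⟩

/-- positive multipliers which can be computed; for `fac` they divide factorials -/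
def Mul (fac : Prop) (h : γ → ℕ) : Prop := PN h ∧ (∀ c, 0 < h c) ∧ (fac → FBT h)

variable {fac : Prop}

theorem Mul.comp {h : α → ℕ} {f : γ → α} (hh : Mul fac h) (hf : PF f) :
    Mul fac (fun c => h (f c)) :=
  ⟨PN.comp hh.1 hf, fun c => hh.2.1 _, fun hF => (hh.2.2 hF).comp hf⟩

theorem Mul.mul {h g : γ → ℕ} (hh : Mul fac h) (hg : Mul fac g) : Mul fac (fun c => h c * g c) :=
  ⟨hh.1.mul hg.1, fun c => Nat.mul_pos (hh.2.1 c) (hg.2.1 c),
    fun hF => (hh.2.2 hF).mul (hg.2.2 hF)⟩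

theorem Mul.const (k : ℕ) (hk : 0 < k) : Mul fac (fun _ : γ => k) :=
  ⟨PN.const k, fun _ => hk, fun _ => FBT.const k hk⟩

theorem Mul.fact {n : γ → ℕ} (hn : PF n) : Mul fac (fun c => (n c).factorial) :=
  ⟨PN.fact hn, fun _ => Nat.factorial_pos _, fun _ => FBT.fact hn⟩

theorem Mul.prodRange {g : γ × ℕ → ℕ} {n : γ → ℕ} (hg : Mul fac g) (hn : PF n) :
    Mul fac (fun c => ∏ i ∈ range (n c), g (c, i)) :=
  ⟨PN.prodRange hg.1 hn, fun _ => prod_pos fun _ _ => hg.2.1 _,
    fun hF => (hg.2.2 hF).prodRange hn⟩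

theorem Mul.powU {g n : γ → ℕ} (hg : Mul fac g) (hn : PF n) : Mul fac (fun c => g c ^ n c) := by
  have h := Mul.prodRange (g := fun x : γ × ℕ => g x.1) (hg.comp PF.fst') hn
  have e : (fun c => g c ^ n c) = fun c => ∏ _i ∈ range (n c), g c := by
    funext c
    rw [prod_const, card_range]
  rw [e]
  exact h

theorem Mul.congr {g h : γ → ℕ} (hg : Mul fac g) (e : ∀ c, h c = g c) : Mul fac h := by
  have : h = g := funext e
  rw [this]
  exact hg

end Pool.Agent.W_7e1bc5_h54
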