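import Pool.Agent.W_7e1bc5_h54.Cone
import Pool.Agent.W_7e1bc5_h54.Mult
import Pool.Agent.W_7e1bc5_h54.Anch

/-! From copies and classes to pairs. -/

set_option autoImplicit false
set_option linter.unusedSectionVars false

namespace Pool.Agent.W_7e1bc5_h54

open Finset hiding val
open Pool.Agent.PolyTime
open Pool.Agent.W_d799b0_h82 (Bn val sz_str_le pf_mod)

variable {fac : Prop}

theorem ind_of_copies {M : ℕ → ℕ} (hM : Mul fac M)
    (h : SP (fun c : ℕ × List Bool => M c.1 * copies (gr c.1 c.2))) :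
    ∃ M' : ℕ → ℕ, Mul fac M' ∧ SP (fun c : ℕ × (List Bool × List Bool) =>
      M' c.1 * isoInd (gr c.1 c.2.1) (gr c.1 c.2.2)) := by
  refine ⟨fun n => M n * n.factorial, hM.mul (Mul.fact PF.id'), ?_⟩
  have h1 : SP (fun c : ℕ × (List Bool × List Bool) =>
      isos (gr c.1 c.2.1) (gr c.1 c.2.2)) := SP.isos PF.fst' PF.snd'.fst PF.snd'.snd
  have h2 : SP (fun c : ℕ × (List Bool × List Bool) => M c.1 * copies (gr c.1 c.2.1)) :=
    h.comp (f := fun c : ℕ × (List Bool × List Bool) => (c.1, c.2.1)) (PF.fst'.pair PF.snd'.fst)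
  refine (h1.mul h2).congr fun c => ?_
  dsimp only
  rw [isos_eq_ind, ← copies_mul (gr c.1 c.2.1)]
  ring

theorem copies_of_ind {M : ℕ → ℕ} (h : SP (fun c : ℕ × (List Bool × List Bool) =>
      M c.1 * isoInd (gr c.1 c.2.1) (gr c.1 c.2.2))) :
    SP (fun c : ℕ × List Bool => M c.1 * copies (gr c.1 c.2)) := by
  classical
  have h1 : SP (fun x : (ℕ × List Bool) × List Bool =>
      M x.1.1 * isoInd (gr x.1.1 x.1.2) (gr x.1.1 x.2)) :=
    h.comp (f := fun x : (ℕ × List Bool) × List Bool => (x.1.1, (x.1.2, x.2)))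
      (PF.fst'.fst.pair (PF.fst'.snd.pair PF.snd'))
  refine (SP.sumGraphs h1 PF.fst').congr fun c => ?_
  dsimp only
  rw [copies_eq, mul_sum]
  exact sum_congr rfl fun H _ => by rw [gr_encG]

/-! ### the disjoint union of two cones -/

/-- the string of the disjoint union of the cones -/
def unionS (n : ℕ) (s t : List Bool) : List Bool :=
  mk (2 * (n + 1)) fun v w => decide (v / (n + 1) = w / (n + 1)) &&
    (if decide (v / (n + 1) = 0) then
      (nrmS (n + 1) (coneS n s)).getD (v % (n + 1) * (n + 1) + w % (n + 1)) false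
    else (nrmS (n + 1) (coneS n t)).getD (v % (n + 1) * (n + 1) + w % (n + 1)) false)

theorem pf_unionS {γ : Type} [ToD γ] {n : γ → ℕ} {s t : γ → List Bool} (hn : PF n) (hs : PF s)
    (ht : PF t) : PF (fun c => unionS (n c) (s c) (t c)) := by
  unfold unionS
  have hn' : PF (fun x : (γ × ℕ) × ℕ => n x.1.1) := hn.comp PF.fst'.fst
  have hv : PF (fun x : (γ × ℕ) × ℕ => x.1.2) := PF.fst'.snd
  have hw : PF (fun x : (γ × ℕ) × ℕ => x.2) := PF.snd'
  have hix : PF (fun x : (γ × ℕ) × ℕ =>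
      x.1.2 % (n x.1.1 + 1) * (n x.1.1 + 1) + x.2 % (n x.1.1 + 1)) :=
    ((pf_mod hv hn'.succ).mul hn'.succ).add (pf_mod hw hn'.succ)
  refine PF.mk (A := fun c v w => decide (v / (n c + 1) = w / (n c + 1)) &&
    (if decide (v / (n c + 1) = 0) then
      (nrmS (n c + 1) (coneS (n c) (s c))).getD (v % (n c + 1) * (n c + 1) + w % (n c + 1)) false
    else (nrmS (n c + 1) (coneS (n c) (t c))).getD
      (v % (n c + 1) * (n c + 1) + w % (n c + 1)) false)) ((PF.const 2).mul hn.succ) ?_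
  refine PF.and ((pf_div hv hn'.succ).natEq (pf_div hw hn'.succ)) ?_
  refine PF.ite ((pf_div hv hn'.succ).natEq (PF.const 0)) ?_ ?_
  · exact PF.getD (PF.nrmS hn'.succ (pf_coneS hn' (hs.comp PF.fst'.fst))) hix (PF.const false)
  · exact PF.getD (PF.nrmS hn'.succ (pf_coneS hn' (ht.comp PF.fst'.fst))) hix (PF.const false)

/-- the two cones -/
def twoC (n : ℕ) (s t : List Bool) (b : Fin 2) : SimpleGraph (Fin (n + 1)) :=
  if b = 0 then gr (n + 1) (coneS n s) else gr (n + 1) (coneS n t)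

theorem unionS_adj (n : ℕ) (s t : List Bool) (v w : Fin 2 × Fin (n + 1)) :
    (gr (2 * (n + 1)) (unionS n s t)).Adj (numA 2 n v) (numA 2 n w) ↔
      (duo (twoC n s t)).Adj v w := by
  classical
  rw [unionS, gr_mk_adj, numA_div, numA_div, numA_mod, numA_mod]
  have h1 : ∀ (s : List Bool) (i j : Fin (n + 1)),
      (nrmS (n + 1) s).getD (i * (n + 1) + j) false = decide ((gr (n + 1) s).Adj i j) := by
    intro s i j
    rw [← encG_gr, encG_getD]
  rw [h1, h1, h1, h1]
  have hne : numA 2 n v ≠ numA 2 n w ↔ v ≠ w := by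
    rw [numA, numA, ne_eq, EmbeddingLike.apply_eq_iff_eq]
  rw [hne]
  have h2 : ∀ (b : Fin 2) (x y : Fin (n + 1)),
      (if decide ((b : ℕ) = 0) then decide ((gr (n + 1) (coneS n s)).Adj x y)
        else decide ((gr (n + 1) (coneS n t)).Adj x y)) = true ↔ (twoC n s t b).Adj x y := by
    intro b x y
    rw [twoC]
    by_cases hb : b = 0
    · subst hb
      simp
    · have hb' : (b : ℕ) ≠ 0 := fun h => hb (Fin.ext h)
      simp [hb, hb']
  rw [Bool.and_eq_true, Bool.and_eq_true, h2, h2, decide_eq_true_eq, decide_eq_true_eq,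
    ← Fin.ext_iff, ← Fin.ext_iff]
  constructor
  · rintro ⟨-, ⟨h3, h4⟩ | ⟨h3, h4⟩⟩
    · exact ⟨h3, h4⟩
    · refine ⟨h3.symm, ?_⟩
      rw [← h3]
      exact h4.symm
  · intro h
    exact ⟨h.ne, Or.inl h⟩

theorem isoC_congr {V V' : Type} {G : SimpleGraph V} {G' : SimpleGraph V'} (e : G ≃g G') :
    isoC G G = isoC G' G' := by
  refine Nat.card_congr ⟨fun f => e.symm.trans (f.trans e), fun f => e.trans (f.trans e.symm),
    fun f => ?_, fun f => ?_⟩
  · ext v
    simp
  · ext v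
    simp

theorem isos_union (n : ℕ) (s t : List Bool) :
    isos (gr (2 * (n + 1)) (unionS n s t)) (gr (2 * (n + 1)) (unionS n s t)) =
      isos (gr (n + 1) (coneS n s)) (gr (n + 1) (coneS n s)) *
      isos (gr (n + 1) (coneS n t)) (gr (n + 1) (coneS n t)) *
      (1 + isoInd (gr n s) (gr n t)) := by
  have e : duo (twoC n s t) ≃g gr (2 * (n + 1)) (unionS n s t) :=
    ⟨finProdFinEquiv, fun {v w} => unionS_adj n s t v w⟩
  have hd : ∀ b, Dia (twoC n s t b) := by
    intro b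
    rw [twoC]
    split_ifs
    · exact coneS_dia n s
    · exact coneS_dia n t
  rw [isos_eq_card, ← isoC_congr e, duo_card hd]
  have h0 : twoC n s t 0 = gr (n + 1) (coneS n s) := rfl
  have h1 : twoC n s t 1 = gr (n + 1) (coneS n t) := rfl
  rw [h0, h1, ← isos_eq_card, ← isos_eq_card, ← isos_eq_card, ← isos_eq_card, isoInd]
  by_cases h : Isom (gr n s) (gr n t)
  · have h' := (coneS_isom n s t).2 h
    rw [isos_of_isom h', isos_of_isom h'.symm, if_pos h]
    ring
  · have h' : ¬ Isom (gr (n + 1) (coneS n s)) (gr (n + 1) (coneS n t)) := fun h2 =>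
      h ((coneS_isom n s t).1 h2)
    rw [isos_of_not h', if_neg h]
    ring

theorem oneTwo_of_copies {M : ℕ → ℕ} (hM : Mul fac M)
    (h : SP (fun c : ℕ × List Bool => M c.1 * copies (gr c.1 c.2))) :
    ∃ M' : ℕ → ℕ, Mul fac M' ∧ SP (fun c : ℕ × (List Bool × List Bool) =>
      M' c.1 * oneTwo (gr c.1 c.2.1) (gr c.1 c.2.2)) := by
  have hN : PF (fun n : ℕ => 2 * (n + 1)) := (PF.const 2).mul PF.id'.succ
  refine ⟨fun n => M (2 * (n + 1)) * (2 * (n + 1)).factorial, (hM.comp hN).mul (Mul.fact hN), ?_⟩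
  have hn : PF (fun c : ℕ × (List Bool × List Bool) => c.1) := PF.fst'
  have hs : PF (fun c : ℕ × (List Bool × List Bool) => c.2.1) := PF.snd'.fst
  have ht : PF (fun c : ℕ × (List Bool × List Bool) => c.2.2) := PF.snd'.snd
  have h1 : SP (fun c : ℕ × (List Bool × List Bool) =>
      M (2 * (c.1 + 1)) * copies (gr (2 * (c.1 + 1)) (unionS c.1 c.2.1 c.2.2))) :=
    h.comp (f := fun c : ℕ × (List Bool × List Bool) =>
      (2 * (c.1 + 1), unionS c.1 c.2.1 c.2.2)) ((hN.comp hn).pair (pf_unionS hn hs ht))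
  have h2 : SP (fun c : ℕ × (List Bool × List Bool) =>
      isos (gr (c.1 + 1) (coneS c.1 c.2.1)) (gr (c.1 + 1) (coneS c.1 c.2.1))) :=
    SP.isos hn.succ (pf_coneS hn hs) (pf_coneS hn hs)
  have h3 : SP (fun c : ℕ × (List Bool × List Bool) =>
      isos (gr (c.1 + 1) (coneS c.1 c.2.2)) (gr (c.1 + 1) (coneS c.1 c.2.2))) :=
    SP.isos hn.succ (pf_coneS hn ht) (pf_coneS hn ht)
  refine (SP.mulPN (PN.const 2) (h1.mul (h2.mul h3))).congr fun c => ?_
  obtain ⟨n, s, t⟩ := c
  dsimp only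
  have h4 : 2 = (1 + isoInd (gr n s) (gr n t)) * oneTwo (gr n s) (gr n t) := by
    rw [isoInd, oneTwo]
    split_ifs <;> rfl
  have h5 := copies_mul (gr (2 * (n + 1)) (unionS n s t))
  rw [isos_union] at h5
  rw [← h5]
  generalize copies (gr (2 * (n + 1)) (unionS n s t)) = x1
  generalize isos (gr (n + 1) (coneS n s)) (gr (n + 1) (coneS n s)) = x2
  generalize isos (gr (n + 1) (coneS n t)) (gr (n + 1) (coneS n t)) = x3
  generalize M (2 * (n + 1)) = x4
  calc x4 * (x1 * (x2 * x3 * (1 + isoInd (gr n s) (gr n t)))) * oneTwo (gr n s) (gr n t) =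
      ((1 + isoInd (gr n s) (gr n t)) * oneTwo (gr n s) (gr n t)) * (x4 * x1 * (x2 * x3)) := by
        ring
    _ = _ := by rw [← h4]

theorem classes_two {n : ℕ} (G H : SimpleGraph (Fin n)) (L : Fin 2 → SimpleGraph (Fin n))
    (h0 : L 0 = G) (h1 : L 1 = H) : classes L = oneTwo G H := by
  classical
  have h2 : (Set.range fun i => {K : SimpleGraph (Fin n) | Isom (L i) K}) =
      {{K | Isom G K}, {K | Isom H K}} := by
    ext S
    simp only [Set.mem_range, Set.mem_insert_iff, Set.mem_singleton_iff, Fin.exists_fin_two, h0,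
      h1, eq_comm]
  rw [classes, h2, oneTwo]
  split_ifs with h
  · have h3 : {K : SimpleGraph (Fin n) | Isom G K} = {K | Isom H K} := by
      ext K
      exact ⟨fun h' => h.symm.trans h', fun h' => h.trans h'⟩
    rw [h3, Set.pair_eq_singleton, Set.ncard_singleton]
  · apply Set.ncard_pair
    intro h3
    apply h
    have h4 : H ∈ {K : SimpleGraph (Fin n) | Isom G K} := by
      rw [h3]
      exact Isom.refl H
    exact h4

theorem oneTwo_of_classes {M : ℕ → ℕ} (hM : Mul fac M)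
    (h : SP (fun c : ℕ × (ℕ × List (List Bool)) =>
      M (c.1 + c.2.1) * classes (fam c.1 c.2.1 c.2.2))) :
    ∃ M' : ℕ → ℕ, Mul fac M' ∧ SP (fun c : ℕ × (List Bool × List Bool) =>
      M' c.1 * oneTwo (gr c.1 c.2.1) (gr c.1 c.2.2)) := by
  refine ⟨fun n => M (2 + n), hM.comp ((PF.const 2).add PF.id'), ?_⟩
  have h1 : PF (fun c : ℕ × (List Bool × List Bool) => (2, (c.1, [c.2.1, c.2.2]))) :=
    (PF.const 2).pair (PF.fst'.pair (PF.snd'.fst.cons (PF.snd'.snd.cons (PF.const []))))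
  refine (h.comp h1).congr fun c => ?_
  obtain ⟨n, s, t⟩ := c
  dsimp only
  rw [classes_two (gr n s) (gr n t) (fam 2 n [s, t]) rfl rfl]

end Pool.Agent.W_7e1bc5_h54
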