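import Pool.Agent.W_7e1bc5_h54.Strs

/-! Reciprocals of a number of indices as a polynomial with nonnegative coefficients. -/

set_option autoImplicit false

namespace Pool.Agent.W_7e1bc5_h54

open Finset

/-- the coefficients -/
def cF (C D B : ℚ) : ℕ → ℕ → ℚ
  | 0, r => C / (r + 1)
  | a + 1, r => D * cF C D B a r - B * cF C D B a (r + 1)

/-- `s! r! / (r + s + 1)!` -/
def gF (s r : ℕ) : ℚ := (s.factorial : ℚ) * r.factorial / (r + s + 1).factorial

theorem gF_zero (r : ℕ) : gF 0 r = 1 / (r + 1) := by
  rw [gF, add_zero, Nat.factorial_succ]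
  have h : (r.factorial : ℚ) ≠ 0 := by exact_mod_cast r.factorial_ne_zero
  push_cast
  field_simp
  simp

theorem gF_succ (s r : ℕ) : gF (s + 1) r = gF s r - gF s (r + 1) := by
  rw [gF, gF, gF, show r + 1 + s + 1 = r + s + 1 + 1 by omega,
    show r + (s + 1) + 1 = r + s + 1 + 1 by omega, Nat.factorial_succ (r + s + 1),
    Nat.factorial_succ s, Nat.factorial_succ r]
  have h : ((r + s + 1).factorial : ℚ) ≠ 0 := by exact_mod_cast (r + s + 1).factorial_ne_zero
  push_cast
  field_simp
  ring

theorem gF_nonneg (s r : ℕ) : 0 ≤ gF s r := by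
  rw [gF]
  positivity

theorem gF_le (s r : ℕ) : gF s r ≤ 1 := by
  rw [gF, div_le_one (by positivity)]
  have h := Nat.factorial_mul_factorial_dvd_factorial_add s r
  have h1 := Nat.le_of_dvd (Nat.factorial_pos _) h
  have h2 := Nat.factorial_le (show s + r ≤ r + s + 1 by omega)
  exact_mod_cast h1.trans h2

theorem gF_ge {s r k : ℕ} (h : s + r = k) : 1 ≤ ((k + 1).factorial : ℚ) * gF s r := by
  subst h
  rw [gF, show r + s + 1 = s + r + 1 by omega]
  have h : ((s + r + 1).factorial : ℚ) ≠ 0 := by exact_mod_cast (s + r + 1).factorial_ne_zero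
  field_simp
  exact_mod_cast Nat.mul_pos (Nat.factorial_pos _) (Nat.factorial_pos _)

/-! ### the identity -/

/-- the sum over subsets -/
def sF (C D B : ℚ) (k r : ℕ) (z : ℕ → ℚ) : ℚ :=
  ∑ u ∈ strs k, cF C D B (k - u.count true) (r + u.count true) *
    ∏ j ∈ range k, (if u.getD j false then z j else 1)

theorem sF_succ (C D B : ℚ) (k r : ℕ) (z : ℕ → ℚ) :
    sF C D B (k + 1) r z = D * sF C D B k r (fun j => z (j + 1)) +
      (z 0 - B) * sF C D B k (r + 1) (fun j => z (j + 1)) := by
  rw [sF, sum_strs_succ]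
  have h1 : ∑ u ∈ strs k, cF C D B (k + 1 - (true :: u).count true)
      (r + (true :: u).count true) *
      ∏ j ∈ range (k + 1), (if (true :: u).getD j false then z j else 1) =
      z 0 * sF C D B k (r + 1) (fun j => z (j + 1)) := by
    rw [sF, mul_sum]
    refine sum_congr rfl fun u _ => ?_
    rw [prod_range_succ', List.count_cons_self]
    simp only [List.getD_cons_succ, List.getD_cons_zero, if_true]
    rw [show k + 1 - (u.count true + 1) = k - u.count true by omega,
      show r + (u.count true + 1) = r + 1 + u.count true by omega]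
    ring
  have h2 : ∑ u ∈ strs k, cF C D B (k + 1 - (false :: u).count true)
      (r + (false :: u).count true) *
      ∏ j ∈ range (k + 1), (if (false :: u).getD j false then z j else 1) =
      D * sF C D B k r (fun j => z (j + 1)) - B * sF C D B k (r + 1) (fun j => z (j + 1)) := by
    rw [sF, sF, mul_sum, mul_sum, ← sum_sub_distrib]
    refine sum_congr rfl fun u hu => ?_
    rw [mem_strs] at hu
    have h3 : u.count true ≤ k := by
      rw [← hu]
      exact List.count_le_length
    rw [prod_range_succ', List.count_cons_of_ne (by decide)]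
    simp only [List.getD_cons_succ, List.getD_cons_zero, Bool.false_eq_true, if_false]
    rw [show k + 1 - u.count true = (k - u.count true) + 1 by omega, cF,
      show r + 1 + u.count true = r + u.count true + 1 by omega]
    ring
  rw [h1, h2]
  ring

theorem sF_eq (C D B : ℚ) (k : ℕ) : ∀ (r : ℕ) (z : ℕ → ℚ) (p : ℕ → Prop) [DecidablePred p],
    (∀ j < k, z j = if p j then B - D else B) →
    sF C D B k r z = D ^ k * C * gF ((range k).filter p).card r := by
  induction k with
  | zero =>
    intro r z p _ _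
    rw [sF]
    simp [strs, cF, gF_zero]
    ring
  | succ k ih =>
    intro r z p _ hz
    have h1 : ∀ j < k, (fun j => z (j + 1)) j = if (fun j => p (j + 1)) j then B - D else B :=
      fun j hj => hz (j + 1) (by omega)
    have h0 := hz 0 (by omega)
    rw [sF_succ, ih r _ (fun j => p (j + 1)) h1, ih (r + 1) _ (fun j => p (j + 1)) h1, h0]
    have h2 : ((range (k + 1)).filter p).card =
        ((range k).filter fun j => p (j + 1)).card + if p 0 then 1 else 0 := by
      rw [card_filter, card_filter, sum_range_succ']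
    rw [h2]
    by_cases hp : p 0
    · rw [if_pos hp, if_pos hp, gF_succ]
      ring
    · rw [if_neg hp, if_neg hp, add_zero]
      ring

/-! ### nonnegativity -/

theorem cF_bound {C D B A : ℚ} (hC : 0 ≤ C) (hD : 0 ≤ D) (hA : 0 ≤ A) (h : D = B - A) (a : ℕ) :
    ∀ r, |cF C D B a r - B ^ a * C * gF a r| * B ≤ a * 2 ^ a * B ^ a * A * C := by
  have hB : 0 ≤ B := by linarith
  induction a with
  | zero =>
    intro r
    rw [cF, gF_zero]
    have : C / (r + 1) - B ^ 0 * C * (1 / (r + 1)) = 0 := by ring
    rw [this]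
    simp
  | succ a ih =>
    intro r
    have h1 := ih r
    have h2 := ih (r + 1)
    have h3 : cF C D B (a + 1) r - B ^ (a + 1) * C * gF (a + 1) r =
        D * (cF C D B a r - B ^ a * C * gF a r) - B * (cF C D B a (r + 1) - B ^ a * C * gF a (r + 1))
          - A * (B ^ a * C * gF a r) := by
      rw [cF, gF_succ, h]
      ring
    rw [h3]
    set x := cF C D B a r - B ^ a * C * gF a r with hx
    set y := cF C D B a (r + 1) - B ^ a * C * gF a (r + 1) with hy
    have h4 : |D * x - B * y - A * (B ^ a * C * gF a r)| ≤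
        D * |x| + B * |y| + A * (B ^ a * C * gF a r) := by
      have e1 : |A * (B ^ a * C * gF a r)| = A * (B ^ a * C * gF a r) :=
        abs_of_nonneg (by have := gF_nonneg a r; positivity)
      have e2 : |D * x| = D * |x| := by rw [abs_mul, abs_of_nonneg hD]
      have e3 : |B * y| = B * |y| := by rw [abs_mul, abs_of_nonneg hB]
      have e4 := abs_sub (D * x - B * y) (A * (B ^ a * C * gF a r))
      have e5 := abs_sub (D * x) (B * y)
      rw [e1] at e4
      rw [e2, e3] at e5
      linarith
    have hDB : D ≤ B := by linarith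
    have h5 : A * (B ^ a * C * gF a r) * B ≤ A * B ^ (a + 1) * C := by
      have := gF_le a r
      calc A * (B ^ a * C * gF a r) * B = (A * B ^ (a + 1) * C) * gF a r := by ring
        _ ≤ (A * B ^ (a + 1) * C) * 1 := mul_le_mul_of_nonneg_left this (by positivity)
        _ = _ := mul_one _
    have h6 : D * |x| * B ≤ B * (a * 2 ^ a * B ^ a * A * C) := by
      calc D * |x| * B = D * (|x| * B) := by ring
        _ ≤ B * (|x| * B) := mul_le_mul_of_nonneg_right hDB (by positivity)
        _ ≤ _ := mul_le_mul_of_nonneg_left h1 hB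
    have h7 : B * |y| * B ≤ B * (a * 2 ^ a * B ^ a * A * C) := by
      calc B * |y| * B = B * (|y| * B) := by ring
        _ ≤ _ := mul_le_mul_of_nonneg_left h2 hB
    have h8 : A * B ^ (a + 1) * C ≤ 2 ^ (a + 1) * B ^ (a + 1) * A * C := by
      have : (1 : ℚ) ≤ 2 ^ (a + 1) := one_le_pow₀ (by norm_num)
      calc A * B ^ (a + 1) * C = 1 * (B ^ (a + 1) * A * C) := by ring
        _ ≤ 2 ^ (a + 1) * (B ^ (a + 1) * A * C) :=
          mul_le_mul_of_nonneg_right this (by positivity)
        _ = _ := by ring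
    calc |D * x - B * y - A * (B ^ a * C * gF a r)| * B
        ≤ (D * |x| + B * |y| + A * (B ^ a * C * gF a r)) * B :=
          mul_le_mul_of_nonneg_right h4 hB
      _ = D * |x| * B + B * |y| * B + A * (B ^ a * C * gF a r) * B := by ring
      _ ≤ B * (a * 2 ^ a * B ^ a * A * C) + B * (a * 2 ^ a * B ^ a * A * C) +
          2 ^ (a + 1) * B ^ (a + 1) * A * C := by linarith
      _ = ((a + 1 : ℕ) : ℚ) * 2 ^ (a + 1) * B ^ (a + 1) * A * C := by push_cast; ring

theorem cF_nonneg {k a r : ℕ} {D B A : ℚ} (har : a + r = k) (hD : 0 ≤ D) (hA : 0 ≤ A)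
    (h : D = B - A) (hB : 0 < B) (hk : A * k * 2 ^ k * (k + 1).factorial ≤ B) :
    0 ≤ cF (k + 1).factorial D B a r := by
  have h1 := cF_bound (C := (k + 1).factorial) (by positivity) hD hA h a r
  have h2 := gF_ge har
  have h3 := abs_le.1 (show |cF (k + 1).factorial D B a r -
    B ^ a * (k + 1).factorial * gF a r| ≤ (a * 2 ^ a * B ^ a * A * (k + 1).factorial) / B by
    rwa [le_div_iff₀ hB])
  have h4 : (a * 2 ^ a * B ^ a * A * (k + 1).factorial) / B ≤
      B ^ a * (k + 1).factorial * gF a r := by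
    rw [div_le_iff₀ hB]
    have h5 : (a : ℚ) * 2 ^ a ≤ k * 2 ^ k := by
      have : a ≤ k := by omega
      have h6 : (a : ℚ) ≤ k := by exact_mod_cast this
      have h7 : (2 : ℚ) ^ a ≤ 2 ^ k := pow_le_pow_right₀ (by norm_num) this
      exact mul_le_mul h6 h7 (by positivity) (by positivity)
    calc a * 2 ^ a * B ^ a * A * (k + 1).factorial =
        (a * 2 ^ a) * (B ^ a * A * (k + 1).factorial) := by ring
      _ ≤ (k * 2 ^ k) * (B ^ a * A * (k + 1).factorial) :=
        mul_le_mul_of_nonneg_right h5 (by positivity)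
      _ = B ^ a * (A * k * 2 ^ k * (k + 1).factorial) := by ring
      _ ≤ B ^ a * B := mul_le_mul_of_nonneg_left hk (by positivity)
      _ = B ^ a * B * 1 := (mul_one _).symm
      _ ≤ B ^ a * B * ((k + 1).factorial * gF a r) :=
        mul_le_mul_of_nonneg_left h2 (by positivity)
      _ = _ := by ring
  linarith [h3.1]

/-! ### the coefficients as natural numbers -/

/-- a term -/
def tN (k D B a r i : ℕ) : ℕ :=
  a.choose i * D ^ (a - i) * B ^ i * ((k + 1).factorial / (r + i + 1))

theorem cF_explicit (C D B : ℚ) (a : ℕ) : ∀ r,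
    cF C D B a r = ∑ i ∈ range (a + 1),
      (-1) ^ i * (a.choose i : ℚ) * D ^ (a - i) * B ^ i * (C / ((r + i : ℕ) + 1)) := by
  induction a with
  | zero =>
    intro r
    simp [cF]
  | succ a ih =>
    intro r
    rw [cF, ih r, ih (r + 1), sum_range_succ' _ (a + 1)]
    have h1 : ∑ i ∈ range (a + 1), (-1 : ℚ) ^ (i + 1) * ((a + 1).choose (i + 1) : ℚ) *
        D ^ (a + 1 - (i + 1)) * B ^ (i + 1) * (C / ((r + (i + 1) : ℕ) + 1)) =
        - B * (∑ i ∈ range (a + 1), (-1) ^ i * (a.choose i : ℚ) * D ^ (a - i) * B ^ i *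
          (C / ((r + 1 + i : ℕ) + 1))) +
        ∑ i ∈ range (a + 1), (-1 : ℚ) ^ (i + 1) * (a.choose (i + 1) : ℚ) *
          D ^ (a - i) * B ^ (i + 1) * (C / ((r + (i + 1) : ℕ) + 1)) := by
      rw [mul_sum, ← sum_add_distrib]
      refine sum_congr rfl fun i _ => ?_
      rw [Nat.choose_succ_succ, show a + 1 - (i + 1) = a - i by omega,
        show r + 1 + i = r + (i + 1) by omega]
      push_cast
      ring
    have h2 : ∑ i ∈ range (a + 1), (-1 : ℚ) ^ (i + 1) * (a.choose (i + 1) : ℚ) *
          D ^ (a - i) * B ^ (i + 1) * (C / ((r + (i + 1) : ℕ) + 1)) =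
        ∑ i ∈ range a, D * ((-1 : ℚ) ^ (i + 1) * (a.choose (i + 1) : ℚ) *
          D ^ (a - (i + 1)) * B ^ (i + 1) * (C / ((r + (i + 1) : ℕ) + 1))) := by
      rw [sum_range_succ, Nat.choose_succ_self]
      have h3 : (-1 : ℚ) ^ (a + 1) * ((0 : ℕ) : ℚ) * D ^ (a - a) * B ^ (a + 1) *
          (C / ((r + (a + 1) : ℕ) + 1)) = 0 := by
        rw [Nat.cast_zero]
        ring
      rw [h3, add_zero]
      refine sum_congr rfl fun i hi => ?_
      rw [mem_range] at hi
      rw [show a - i = a - (i + 1) + 1 by omega, pow_succ D]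
      ring
    rw [h1, h2, ← mul_sum, sum_range_succ' _ a]
    simp only [pow_zero, Nat.choose_zero_right, Nat.cast_one, Nat.sub_zero]
    rw [pow_succ D a]
    ring

/-- the coefficients as natural numbers -/
def cN (k D B a r : ℕ) : ℕ :=
  ∑ i ∈ range (a + 1), (if i % 2 = 0 then tN k D B a r i else 0) -
    ∑ i ∈ range (a + 1), (if i % 2 = 0 then 0 else tN k D B a r i)

theorem cN_cast {k a r D B A : ℕ} (har : a + r = k) (h : D + A = B) (hB : 0 < B)
    (hk : A * k * 2 ^ k * (k + 1).factorial ≤ B) :
    (cN k D B a r : ℚ) = cF (k + 1).factorial D B a r := by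
  have h0 : (D : ℚ) = B - A := by
    rw [← h]
    push_cast
    ring
  have h1 : 0 ≤ cF (k + 1).factorial D B a r :=
    cF_nonneg har (by positivity) (by positivity : (0 : ℚ) ≤ A) h0 (by exact_mod_cast hB)
      (by exact_mod_cast hk)
  have h2 : cF (k + 1).factorial D B a r =
      ((∑ i ∈ range (a + 1), (if i % 2 = 0 then tN k D B a r i else 0) : ℕ) : ℚ) -
      ((∑ i ∈ range (a + 1), (if i % 2 = 0 then 0 else tN k D B a r i) : ℕ) : ℚ) := by
    rw [cF_explicit, Nat.cast_sum, Nat.cast_sum, ← sum_sub_distrib]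
    refine sum_congr rfl fun i hi => ?_
    rw [mem_range] at hi
    have h3 : ((tN k D B a r i : ℕ) : ℚ) = (a.choose i : ℚ) * D ^ (a - i) * B ^ i *
        ((k + 1).factorial / ((r + i : ℕ) + 1)) := by
      have h4 : (((k + 1).factorial / (r + i + 1) : ℕ) : ℚ) =
          (k + 1).factorial / ((r + i : ℕ) + 1) := by
        rw [Nat.cast_div (Nat.dvd_factorial (show 0 < r + i + 1 by omega)
          (show r + i + 1 ≤ k + 1 by omega))
          (show ((r + i + 1 : ℕ) : ℚ) ≠ 0 by positivity)]
        push_cast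
        rfl
      rw [tN, Nat.cast_mul, h4]
      push_cast
      rfl
    by_cases hi2 : i % 2 = 0
    · rw [if_pos hi2, if_pos hi2, h3, Even.neg_one_pow (Nat.even_iff.2 hi2)]
      push_cast
      ring
    · rw [if_neg hi2, if_neg hi2, h3, Odd.neg_one_pow (Nat.odd_iff.2 (by omega))]
      push_cast
      ring
  rw [h2] at h1 ⊢
  rw [cN, Nat.cast_sub]
  exact_mod_cast sub_nonneg.1 h1

theorem coef_main {k A B : ℕ} (hB : 0 < B) (hAB : A ≤ B)
    (hk : A * k * 2 ^ k * (k + 1).factorial ≤ B) (z : ℕ → ℕ) (p : ℕ → Prop) [DecidablePred p]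
    (hz : ∀ j < k, z j = if p j then A else B) :
    (((range k).filter p).card + 1) *
      ∑ u ∈ strs k, cN k (B - A) B (k - u.count true) (u.count true) *
        ∏ j ∈ range k, (if u.getD j false then z j else 1) =
      (B - A) ^ k * (k + 1).factorial := by
  have hD : (B - A) + A = B := Nat.sub_add_cancel hAB
  have hDq : (((B - A : ℕ) : ℚ)) = B - A := by
    rw [Nat.cast_sub hAB]
  have h1 := sF_eq (k + 1).factorial ((B - A : ℕ) : ℚ) B k 0 (fun j => (z j : ℚ)) p (by
    intro j hj
    rw [hz j hj, hDq]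
    split_ifs
    · ring
    · rfl)
  have h2 : sF (k + 1).factorial ((B - A : ℕ) : ℚ) B k 0 (fun j => (z j : ℚ)) =
      ((∑ u ∈ strs k, cN k (B - A) B (k - u.count true) (u.count true) *
        ∏ j ∈ range k, (if u.getD j false then z j else 1) : ℕ) : ℚ) := by
    rw [sF, Nat.cast_sum]
    refine sum_congr rfl fun u hu => ?_
    rw [mem_strs] at hu
    have h3 : u.count true ≤ k := by
      rw [← hu]
      exact List.count_le_length
    rw [Nat.cast_mul, cN_cast (show k - u.count true + u.count true = k by omega) hD hB hk,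
      Nat.cast_prod, zero_add]
    congr 1
    refine prod_congr rfl fun j _ => ?_
    split_ifs
    · rfl
    · simp
  rw [h2] at h1
  have h4 : gF ((range k).filter p).card 0 = 1 / (((range k).filter p).card + 1) := by
    rw [gF, zero_add, Nat.factorial_succ]
    have : ((((range k).filter p).card.factorial : ℕ) : ℚ) ≠ 0 := by
      exact_mod_cast Nat.factorial_ne_zero _
    push_cast
    field_simp
    simp
  rw [h4] at h1
  have h5 : ((((range k).filter p).card : ℚ) + 1) ≠ 0 := by positivity
  have h6 : ((((range k).filter p).card : ℚ) + 1) *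
      ((∑ u ∈ strs k, cN k (B - A) B (k - u.count true) (u.count true) *
        ∏ j ∈ range k, (if u.getD j false then z j else 1) : ℕ) : ℚ) =
      ((B - A : ℕ) : ℚ) ^ k * (k + 1).factorial := by
    rw [h1]
    field_simp
  exact_mod_cast h6

end Pool.Agent.W_7e1bc5_h54
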