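import Pool.Agent.W_7e1bc5_h54.SP

/-! Sums and products of numbers in binary. -/

set_option autoImplicit false
set_option linter.unusedSectionVars false

namespace Pool.Agent.W_7e1bc5_h54

open Finset hiding val
open Pool.Agent.PolyTime
open Pool.Agent.W_d799b0_h82 (Bn val sz_str_le)

variable {γ : Type} [ToD γ]

theorem prefix_range {n : ℕ} {l : List ℕ} (h : l <+: List.range n) :
    ∃ m ≤ n, l = List.range m := by
  rw [List.prefix_iff_eq_take, List.take_range] at h
  exact ⟨_, min_le_right _ _, h⟩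

theorem foldl_prod (g : ℕ → ℕ) (m : ℕ) :
    (List.range m).foldl (fun s i => s * g i) 1 = ∏ i ∈ range m, g i := by
  induction m with
  | zero => rfl
  | succ m ih => rw [List.range_succ, List.foldl_append, ih, prod_range_succ]; rfl

theorem foldl_sum (g : ℕ → ℕ) (m : ℕ) :
    (List.range m).foldl (fun s i => s + g i) 0 = ∑ i ∈ range m, g i := by
  induction m with
  | zero => rfl
  | succ m ih => rw [List.range_succ, List.foldl_append, ih, sum_range_succ]; rfl

theorem size_bound {g : γ × ℕ → ℕ} {n : γ → ℕ} (hg : PN g) (hn : PF n) :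
    ∃ P Q : Polynomial ℕ, ∀ c, n c ≤ Q.eval (sz c) ∧ ∀ i < n c, g (c, i) < 2 ^ P.eval (sz c) := by
  obtain ⟨P, hP⟩ := hg.bound
  obtain ⟨Q, hQ⟩ := hn.bound
  refine ⟨P.comp (Polynomial.X + Q + 2), Q, fun c => ⟨?_, fun i hi => ?_⟩⟩
  · have := hQ c
    rw [sz_nat] at this
    omega
  · refine Nat.size_le.1 ((hP (c, i)).trans ?_)
    rw [Polynomial.eval_comp]
    apply eval_mono
    rw [sz_pair, sz_nat]
    have := hQ c
    rw [sz_nat] at this
    simp only [Polynomial.eval_add, Polynomial.eval_X, Polynomial.eval_ofNat]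
    omega

theorem PN.prodRange {g : γ × ℕ → ℕ} {n : γ → ℕ} (hg : PN g) (hn : PF n) :
    PN (fun c => ∏ i ∈ range (n c), g (c, i)) := by
  obtain ⟨P, Q, h⟩ := size_bound hg hn
  have h1 : PN (fun c => (List.range (n c)).foldl (fun s i => s * g (c, i)) 1) := by
    refine PN.foldl (f := fun c s i => s * g (c, i)) ?_ (PN.const 1) hn.range (Q * P + 1) ?_
    · exact PN.mul (PN.ofBn PF.id'.fst.snd) (PN.comp hg (PF.fst'.fst.pair PF.snd'))
    · intro c l' hl'
      obtain ⟨m, hm, rfl⟩ := prefix_range hl'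
      rw [foldl_prod (fun i => g (c, i)), Nat.size_le]
      have h2 : ∏ i ∈ range m, g (c, i) ≤ ∏ i ∈ range m, 2 ^ P.eval (sz c) :=
        prod_le_prod' fun i hi => ((h c).2 i ((mem_range.1 hi).trans_le hm)).le
      refine h2.trans_lt ?_
      rw [prod_const, card_range, ← pow_mul]
      refine Nat.pow_lt_pow_right (by norm_num) ?_
      simp only [Polynomial.eval_add, Polynomial.eval_mul, Polynomial.eval_one]
      have h3 := Nat.mul_le_mul_left (P.eval (sz c)) (hm.trans (h c).1)
      rw [mul_comm (Q.eval (sz c))]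
      omega
  exact h1.congr fun c => (foldl_prod (fun i => g (c, i)) (n c)).symm

theorem PN.sumRange {g : γ × ℕ → ℕ} {n : γ → ℕ} (hg : PN g) (hn : PF n) :
    PN (fun c => ∑ i ∈ range (n c), g (c, i)) := by
  obtain ⟨P, Q, h⟩ := size_bound hg hn
  have h1 : PN (fun c => (List.range (n c)).foldl (fun s i => s + g (c, i)) 0) := by
    refine PN.foldl (f := fun c s i => s + g (c, i)) ?_ (PN.const 0) hn.range (Q + P + 1) ?_
    · exact PN.add (PN.ofBn PF.id'.fst.snd) (PN.comp hg (PF.fst'.fst.pair PF.snd'))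
    · intro c l' hl'
      obtain ⟨m, hm, rfl⟩ := prefix_range hl'
      rw [foldl_sum (fun i => g (c, i)), Nat.size_le]
      have h2 : ∑ i ∈ range m, g (c, i) ≤ ∑ i ∈ range m, 2 ^ P.eval (sz c) :=
        sum_le_sum fun i hi => ((h c).2 i ((mem_range.1 hi).trans_le hm)).le
      refine h2.trans_lt ?_
      rw [sum_const, card_range, smul_eq_mul]
      simp only [Polynomial.eval_add, Polynomial.eval_one]
      have h3 : m < 2 ^ Q.eval (sz c) := (Nat.lt_two_pow_self).trans_le
        (Nat.pow_le_pow_right (by norm_num) (hm.trans (h c).1))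
      calc m * 2 ^ P.eval (sz c) < 2 ^ Q.eval (sz c) * 2 ^ P.eval (sz c) :=
            Nat.mul_lt_mul_of_pos_right h3 (by positivity)
        _ = 2 ^ (Q.eval (sz c) + P.eval (sz c)) := (pow_add _ _ _).symm
        _ ≤ _ := Nat.pow_le_pow_right (by norm_num) (Nat.le_succ _)
  exact h1.congr fun c => (foldl_sum (fun i => g (c, i)) (n c)).symm

theorem PN.powU {g : γ → ℕ} {n : γ → ℕ} (hg : PN g) (hn : PF n) : PN (fun c => g c ^ n c) :=
  (PN.prodRange (g := fun x : γ × ℕ => g x.1) (PN.comp hg PF.fst') hn).congr fun c => by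
    dsimp only
    rw [prod_const, card_range]

theorem PN.fact {n : γ → ℕ} (hn : PF n) : PN (fun c => (n c).factorial) :=
  (PN.prodRange (g := fun x : γ × ℕ => x.2 + 1) (PN.ofNat PF.snd'.succ) hn).congr fun c => by
    dsimp only
    rw [prod_range_add_one_eq_factorial]

theorem PN.choose {n k : γ → ℕ} (hn : PF n) (hk : PF k) : PN (fun c => (n c).choose (k c)) := by
  have h1 : PN fun c => (n c).factorial / ((k c).factorial * (n c - k c).factorial) :=
    PN.div (PN.fact hn) ((PN.fact hk).mul (PN.fact (hn.sub hk)))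
  have h2 : PN fun c => if decide (k c ≤ n c) then
      (n c).factorial / ((k c).factorial * (n c - k c).factorial) else 0 :=
    PN.ite (hk.le hn) h1 (PN.const 0)
  refine h2.congr fun c => ?_
  by_cases h : k c ≤ n c
  · rw [if_pos (by simpa using h), Nat.choose_eq_factorial_div_factorial h]
  · rw [if_neg (by simpa using h), Nat.choose_eq_zero_of_lt (by omega)]

end Pool.Agent.W_7e1bc5_h54
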