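import Pool.Agent.W_7e1bc5_h54.Coef
import Pool.Agent.W_7e1bc5_h54.PNx

/-! Reciprocals: `#P`. -/

set_option autoImplicit false
set_option linter.unusedSectionVars false

namespace Pool.Agent.W_7e1bc5_h54

open Finset hiding val
open Pool.Agent.PolyTime
open Pool.Agent.W_d799b0_h82 (Bn val sz_str_le pf_mod)

variable {γ : Type} [ToD γ]

theorem pf_count {s : γ → List Bool} (hs : PF s) : PF (fun c => (s c).count true) := by
  have h : PF (fun c => ((s c).filter fun b => b == true).length) :=
    PF.length (PF.filter (g := fun (_ : γ) (b : Bool) => b == true)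
      (PF.snd'.cast (fun x => by
        obtain ⟨c, b⟩ := x
        cases b <;> rfl)) hs)
  refine h.cast fun c => ?_
  congr 1
  rw [List.count, List.countP_eq_length_filter]

theorem pn_tN {k D B a r i : γ → ℕ} (hk : PF k) (hD : PN D) (hB : PN B) (ha : PF a) (hr : PF r)
    (hi : PF i) : PN (fun c => tN (k c) (D c) (B c) (a c) (r c) (i c)) := by
  unfold tN
  exact (((PN.choose ha hi).mul (PN.powU hD (ha.sub hi))).mul (PN.powU hB hi)).mul
    (PN.div (PN.fact hk.succ) (PN.ofNat (hr.add hi).succ))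

theorem pn_cN {k D B a r : γ → ℕ} (hk : PF k) (hD : PN D) (hB : PN B) (ha : PF a) (hr : PF r) :
    PN (fun c => cN (k c) (D c) (B c) (a c) (r c)) := by
  have ht : PN (fun x : γ × ℕ => tN (k x.1) (D x.1) (B x.1) (a x.1) (r x.1) x.2) :=
    pn_tN (hk.comp PF.fst') (PN.comp hD PF.fst') (PN.comp hB PF.fst') (ha.comp PF.fst')
      (hr.comp PF.fst') PF.snd'
  have hp : PF (fun x : γ × ℕ => decide (x.2 % 2 = 0)) :=
    (pf_mod PF.snd' (PF.const 2)).natEq (PF.const 0)
  have h1 : PN (fun c => ∑ i ∈ range (a c + 1),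
      (if i % 2 = 0 then tN (k c) (D c) (B c) (a c) (r c) i else 0)) := by
    refine (PN.sumRange (PN.ite hp ht (PN.const 0)) ha.succ).congr fun c => ?_
    refine sum_congr rfl fun i _ => ?_
    by_cases h : i % 2 = 0 <;> simp [h]
  have h2 : PN (fun c => ∑ i ∈ range (a c + 1),
      (if i % 2 = 0 then 0 else tN (k c) (D c) (B c) (a c) (r c) i)) := by
    refine (PN.sumRange (PN.ite hp (PN.const 0) ht) ha.succ).congr fun c => ?_
    refine sum_congr rfl fun i _ => ?_
    by_cases h : i % 2 = 0 <;> simp [h]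
  exact h1.sub h2

/-- the function which is divided by the number of indices -/
def rcp (k A B : ℕ) (z : ℕ → ℕ) : ℕ :=
  ∑ u ∈ strs k, cN k (B - A) B (k - u.count true) (u.count true) *
    ∏ j ∈ range k, (if u.getD j false then z j else 1)

theorem SP.rcp {z : γ × ℕ → ℕ} {k A B : γ → ℕ} (hz : SP z) (hk : PF k) (hA : PN A) (hB : PN B) :
    SP (fun c => rcp (k c) (A c) (B c) fun j => z (c, j)) := by
  unfold Pool.Agent.W_7e1bc5_h54.rcp
  have hc : PF (fun x : γ × List Bool => x.1) := PF.fst'
  have hu : PF (fun x : γ × List Bool => x.2.count true) := pf_count PF.snd'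
  have h1 : PN (fun x : γ × List Bool => cN (k x.1) (B x.1 - A x.1) (B x.1)
      (k x.1 - x.2.count true) (x.2.count true)) :=
    pn_cN (hk.comp hc) ((PN.comp hB hc).sub (PN.comp hA hc)) (PN.comp hB hc)
      ((hk.comp hc).sub hu) hu
  have h2 : SP (fun y : (γ × List Bool) × ℕ =>
      if y.1.2.getD y.2 false then z (y.1.1, y.2) else 1) :=
    SP.ite (PF.getD PF.fst'.snd PF.snd' (PF.const false))
      (hz.comp (f := fun y : (γ × List Bool) × ℕ => (y.1.1, y.2)) (PF.fst'.fst.pair PF.snd'))
      (SP.const 1)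
  have h3 : SP (fun x : γ × List Bool => cN (k x.1) (B x.1 - A x.1) (B x.1)
      (k x.1 - x.2.count true) (x.2.count true) *
      ∏ j ∈ range (k x.1), (if x.2.getD j false then z (x.1, j) else 1)) :=
    SP.mulPN h1 (SP.prodRange h2 (hk.comp hc))
  exact SP.sumStrs h3 hk

end Pool.Agent.W_7e1bc5_h54
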