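import Pool.Agent.W_7e1bc5_h54.AutA

/-! Cones and disjoint unions. -/

set_option autoImplicit false
set_option linter.unusedSectionVars false

namespace Pool.Agent.W_7e1bc5_h54

open Finset hiding val
open Pool.Agent.PolyTime
open Pool.Agent.W_d799b0_h82 (Bn val sz_str_le pf_mod)

/-- the number of isomorphisms -/
noncomputable def isoC {V W : Type} (G : SimpleGraph V) (H : SimpleGraph W) : ℕ :=
  Nat.card (G ≃g H)

theorem isos_eq_card {n : ℕ} (G H : SimpleGraph (Fin n)) : isos G H = isoC G H := by
  classical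
  rw [isos_def, ← Fintype.card_subtype, isoC, ← Nat.card_eq_fintype_card]
  refine Nat.card_congr ⟨fun s => ⟨s.1, fun {i j} => s.2 i j⟩,
    fun f => ⟨f.toEquiv, fun i j => f.map_rel_iff⟩, fun s => rfl, fun f => rfl⟩

/-! ### disjoint unions of two graphs of diameter at most 2 -/

/-- the disjoint union -/
def duo {W : Type} (C : Fin 2 → SimpleGraph W) : SimpleGraph (Fin 2 × W) where
  Adj v w := v.1 = w.1 ∧ (C v.1).Adj v.2 w.2
  symm := ⟨by
    rintro v w ⟨h1, h2⟩
    refine ⟨h1.symm, ?_⟩
    rw [← h1]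
    exact h2.symm⟩
  loopless := ⟨by
    rintro v ⟨-, h⟩
    exact h.ne rfl⟩

/-- diameter at most 2 -/
def Dia {W : Type} (C : SimpleGraph W) : Prop :=
  ∀ x y, x = y ∨ C.Adj x y ∨ ∃ z, C.Adj x z ∧ C.Adj z y

theorem duo_side {W : Type} {C : Fin 2 → SimpleGraph W} (hC : ∀ b, Dia (C b))
    (v w : Fin 2 × W) :
    v.1 = w.1 ↔ v = w ∨ (duo C).Adj v w ∨ ∃ u, (duo C).Adj v u ∧ (duo C).Adj u w := by
  constructor
  · intro h
    obtain ⟨b, x⟩ := v
    obtain ⟨b', y⟩ := w
    dsimp only at h
    subst h
    rcases hC b x y with rfl | h | ⟨z, h1, h2⟩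
    · exact Or.inl rfl
    · exact Or.inr (Or.inl ⟨rfl, h⟩)
    · exact Or.inr (Or.inr ⟨(b, z), ⟨rfl, h1⟩, ⟨rfl, h2⟩⟩)
  · rintro (rfl | h | ⟨u, h1, h2⟩)
    · rfl
    · exact h.1
    · exact h1.1.trans h2.1

theorem side_iso {W : Type} {C : Fin 2 → SimpleGraph W} (hC : ∀ b, Dia (C b))
    (σ : duo C ≃g duo C) (v w : Fin 2 × W) : (σ v).1 = (σ w).1 ↔ v.1 = w.1 := by
  rw [duo_side hC, duo_side hC v w, σ.injective.eq_iff, σ.map_adj_iff]
  refine or_congr Iff.rfl (or_congr Iff.rfl ?_)
  constructor
  · rintro ⟨u, h1, h2⟩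
    refine ⟨σ.symm u, ?_, ?_⟩
    · rw [← σ.map_adj_iff, σ.apply_symm_apply]
      exact h1
    · rw [← σ.map_adj_iff, σ.apply_symm_apply]
      exact h2
  · rintro ⟨u, h1, h2⟩
    exact ⟨σ u, σ.map_adj_iff.2 h1, σ.map_adj_iff.2 h2⟩

/-- the automorphism of a permutation of the sides and isomorphisms -/
def duoIso {W : Type} (C : Fin 2 → SimpleGraph W)
    (p : Σ ρ : Equiv.Perm (Fin 2), ∀ b, C b ≃g C (ρ b)) : duo C ≃g duo C where
  toEquiv := Equiv.prodShear p.1 fun b => (p.2 b).toEquiv
  map_rel_iff' := by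
    rintro ⟨b, x⟩ ⟨b', y⟩
    show (p.1 b = p.1 b' ∧ (C (p.1 b)).Adj (p.2 b x) (p.2 b' y)) ↔ (b = b' ∧ (C b).Adj x y)
    rw [p.1.injective.eq_iff]
    constructor
    · rintro ⟨rfl, h⟩
      exact ⟨rfl, (p.2 b).map_adj_iff.1 h⟩
    · rintro ⟨rfl, h⟩
      exact ⟨rfl, (p.2 b).map_adj_iff.2 h⟩

theorem duoIso_apply {W : Type} (C : Fin 2 → SimpleGraph W)
    (p : Σ ρ : Equiv.Perm (Fin 2), ∀ b, C b ≃g C (ρ b)) (b : Fin 2) (x : W) :
    duoIso C p (b, x) = (p.1 b, p.2 b x) := rfl

theorem duoIso_bij {W : Type} [Finite W] [Nonempty W] {C : Fin 2 → SimpleGraph W}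
    (hC : ∀ b, Dia (C b)) : Function.Bijective (duoIso C) := by
  obtain ⟨w0⟩ := (inferInstance : Nonempty W)
  constructor
  · rintro ⟨ρ, g⟩ ⟨ρ', g'⟩ h
    have h1 : ∀ b x, (ρ b, g b x) = (ρ' b, g' b x) := fun b x => by
      have := congrArg (fun f : duo C ≃g duo C => f (b, x)) h
      exact this
    obtain rfl : ρ = ρ' := Equiv.ext fun b => congrArg Prod.fst (h1 b w0)
    congr 1
    funext b
    ext x
    exact congrArg Prod.snd (h1 b x)
  · intro σ
    have hs := side_iso hC σ
    have hρ : Function.Injective fun b : Fin 2 => (σ (b, w0)).1 := by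
      intro b b' h
      exact (hs (b, w0) (b', w0)).1 h
    have hb : ∀ b x, (σ (b, x)).1 = (σ (b, w0)).1 := fun b x => (hs (b, x) (b, w0)).2 rfl
    have hf : ∀ b, Function.Injective fun x : W => (σ (b, x)).2 := by
      intro b x y h
      have h1 : σ (b, x) = σ (b, y) := Prod.ext ((hb b x).trans (hb b y).symm) h
      exact congrArg Prod.snd (σ.injective h1)
    refine ⟨⟨Equiv.ofBijective _ (Finite.injective_iff_bijective.1 hρ), fun b =>
      ⟨Equiv.ofBijective _ (Finite.injective_iff_bijective.1 (hf b)), ?_⟩⟩, ?_⟩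
    · intro x y
      have h1 := σ.map_adj_iff (v := (b, x)) (w := (b, y))
      constructor
      · intro h
        have h2 : (duo C).Adj (σ (b, x)) (σ (b, y)) := by
          refine ⟨(hb b x).trans (hb b y).symm, ?_⟩
          rw [hb b x]
          exact h
        exact (h1.1 h2).2
      · intro h
        have h2 := (h1.2 ⟨rfl, h⟩).2
        rw [hb b x] at h2
        exact h2
    · ext v
      · obtain ⟨b, x⟩ := v
        rw [duoIso_apply]
        exact congrArg Fin.val (hb b x).symm
      · obtain ⟨b, x⟩ := v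
        rfl

theorem duo_card {W : Type} [Finite W] [Nonempty W] {C : Fin 2 → SimpleGraph W}
    (hC : ∀ b, Dia (C b)) : isoC (duo C) (duo C) =
      isoC (C 0) (C 0) * isoC (C 1) (C 1) + isoC (C 0) (C 1) * isoC (C 1) (C 0) := by
  have hfin : ∀ ρ : Equiv.Perm (Fin 2), Finite (∀ b, C b ≃g C (ρ b)) := by
    intro ρ
    have : ∀ b, Finite (C b ≃g C (ρ b)) := fun b =>
      Finite.of_injective (fun f : C b ≃g C (ρ b) => (f : W → W)) DFunLike.coe_injective
    infer_instance
  rw [isoC, ← Nat.card_eq_of_bijective _ (duoIso_bij hC), Nat.card_sigma]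
  rw [show (univ : Finset (Equiv.Perm (Fin 2))) = {1, Equiv.swap 0 1} by decide,
    sum_pair (by decide), Nat.card_pi, Nat.card_pi, Fin.prod_univ_two, Fin.prod_univ_two]
  rfl

/-! ### cones -/

/-- the cone -/
def coneO {n : ℕ} (G : SimpleGraph (Fin n)) : SimpleGraph (Option (Fin n)) where
  Adj
    | none, none => False
    | none, some _ => True
    | some _, none => True
    | some i, some j => G.Adj i j
  symm := ⟨by
    rintro (_ | i) (_ | j) h
    · exact h
    · exact h
    · exact h
    · exact SimpleGraph.Adj.symm h⟩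
  loopless := ⟨by
    rintro (_ | i) h
    · exact h
    · exact (SimpleGraph.Adj.ne h) rfl⟩

theorem coneO_iff {n : ℕ} (G H : SimpleGraph (Fin n)) :
    Nonempty (coneO G ≃g coneO H) ↔ Isom G H := by
  constructor
  · rintro ⟨e⟩
    have h0 : ∀ i, e.toEquiv (some i) = none →
        ∀ j, j ≠ i → G.Adj i j := by
      intro i hi j hj
      have h1 : (coneO H).Adj (e (some i)) (e (some j)) := by
        have h2 : e (some i) = none := hi
        rw [h2]
        cases h3 : e (some j) with
        | none => exact absurd (Option.some_injective _ (e.injective (h3.trans h2.symm))) hj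
        | some b => trivial
      exact e.map_adj_iff.1 h1
    have h0' : ∀ v, e.toEquiv none = some v → ∀ w, w ≠ v → H.Adj v w := by
      intro v hv w hw
      have h2 : e none = some v := hv
      have h3 : (coneO H).Adj (e none) (e (e.symm (some w))) := by
        rw [e.map_adj_iff]
        cases h4 : e.symm (some w) with
        | none =>
          have h5 : some w = e none := by rw [← h4, e.apply_symm_apply]
          rw [h2] at h5
          exact absurd (Option.some_injective _ h5) hw
        | some b => trivial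
      rw [h2, e.apply_symm_apply] at h3
      exact h3
    refine ⟨⟨Equiv.removeNone e.toEquiv, ?_⟩⟩
    intro x y
    by_cases hxy : x = y
    · subst hxy
      exact ⟨fun h => absurd rfl h.ne, fun h => absurd rfl h.ne⟩
    have hne : Equiv.removeNone e.toEquiv x ≠ Equiv.removeNone e.toEquiv y := fun h =>
      hxy ((Equiv.removeNone e.toEquiv).injective h)
    rcases Option.eq_none_or_eq_some (e.toEquiv (some x)) with hx | ⟨x', hx⟩
    · have h1 := Equiv.removeNone_none e.toEquiv hx
      refine iff_of_true (h0' _ h1.symm _ hne.symm) (h0 x hx y (Ne.symm hxy))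
    · rcases Option.eq_none_or_eq_some (e.toEquiv (some y)) with hy | ⟨y', hy⟩
      · have h1 := Equiv.removeNone_none e.toEquiv hy
        refine iff_of_true (h0' _ h1.symm _ hne).symm (h0 y hy x hxy).symm
      · have h1 := Equiv.removeNone_some e.toEquiv ⟨x', hx⟩
        have h2 := Equiv.removeNone_some e.toEquiv ⟨y', hy⟩
        have h3 : (coneO H).Adj (e (some x)) (e (some y)) ↔ G.Adj x y := e.map_adj_iff
        have h4 : e (some x) = some (Equiv.removeNone e.toEquiv x) := h1.symm
        have h5 : e (some y) = some (Equiv.removeNone e.toEquiv y) := h2.symm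
        rw [h4, h5] at h3
        exact h3
  · rintro ⟨e⟩
    refine ⟨⟨Equiv.optionCongr e.toEquiv, ?_⟩⟩
    rintro (_ | i) (_ | j)
    · exact Iff.rfl
    · exact Iff.rfl
    · exact Iff.rfl
    · exact e.map_adj_iff

/-- the cone on strings -/
def coneS (n : ℕ) (s : List Bool) : List Bool :=
  mk (n + 1) fun i j => (decide (i < n) && decide (j = n)) ||
    (decide (i < n) && decide (j < n) && (nrmS n s).getD (i * n + j) false)

theorem pf_coneS {γ : Type} [ToD γ] {n : γ → ℕ} {s : γ → List Bool} (hn : PF n) (hs : PF s) :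
    PF (fun c => coneS (n c) (s c)) := by
  unfold coneS
  have hn' : PF (fun x : (γ × ℕ) × ℕ => n x.1.1) := hn.comp PF.fst'.fst
  refine PF.mk (A := fun c i j => (decide (i < n c) && decide (j = n c)) ||
    (decide (i < n c) && decide (j < n c) && (nrmS (n c) (s c)).getD (i * n c + j) false))
    hn.succ ?_
  refine PF.or (PF.and (PF.fst'.snd.lt hn') (PF.snd'.natEq hn')) ?_
  refine PF.and (PF.and (PF.fst'.snd.lt hn') (PF.snd'.lt hn')) ?_
  exact PF.getD (PF.nrmS hn' (hs.comp PF.fst'.fst)) ((PF.fst'.snd.mul hn').add PF.snd')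
    (PF.const false)

theorem coneS_adj (n : ℕ) (s : List Bool) (x y : Fin (n + 1)) :
    (coneO (gr n s)).Adj (finSuccEquivLast x) (finSuccEquivLast y) ↔
      (gr (n + 1) (coneS n s)).Adj x y := by
  classical
  rw [coneS, gr_mk_adj]
  induction x using Fin.lastCases with
  | last =>
    induction y using Fin.lastCases with
    | last =>
      rw [finSuccEquivLast_last]
      simp [coneO]
    | cast j =>
      rw [finSuccEquivLast_last, finSuccEquivLast_castSucc]
      simp [coneO]
      exact (Fin.castSucc_lt_last j).ne'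
  | cast i =>
    induction y using Fin.lastCases with
    | last =>
      rw [finSuccEquivLast_last, finSuccEquivLast_castSucc]
      simp [coneO]
    | cast j =>
      rw [finSuccEquivLast_castSucc, finSuccEquivLast_castSucc]
      have h1 : ∀ i j : Fin n, (nrmS n s).getD (i * n + j) false = decide ((gr n s).Adj i j) := by
        intro i j
        rw [← encG_gr, encG_getD]
      simp only [Fin.val_castSucc, h1]
      have hi := i.2
      have hj := j.2
      simp only [hi, hj, hi.ne, hj.ne, decide_true, decide_false, Bool.and_false, Bool.true_and,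
        Bool.false_or, decide_eq_true_eq]
      constructor
      · intro h
        refine ⟨?_, Or.inl h⟩
        intro h2
        exact h.ne (congrArg some (Fin.castSucc_injective _ h2))
      · rintro ⟨-, h | h⟩
        · exact h
        · exact h.symm

/-- the cone and the cone of the string -/
def coneE (n : ℕ) (s : List Bool) : gr (n + 1) (coneS n s) ≃g coneO (gr n s) :=
  ⟨finSuccEquivLast, fun {x y} => coneS_adj n s x y⟩

theorem coneS_isom (n : ℕ) (s t : List Bool) :
    Isom (gr (n + 1) (coneS n s)) (gr (n + 1) (coneS n t)) ↔ Isom (gr n s) (gr n t) := by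
  rw [← coneO_iff (gr n s)]
  constructor
  · rintro ⟨f⟩
    exact ⟨(coneE n s).symm.trans (f.trans (coneE n t))⟩
  · rintro ⟨f⟩
    exact ⟨(coneE n s).trans (f.trans (coneE n t).symm)⟩

theorem coneS_dia (n : ℕ) (s : List Bool) : Dia (gr (n + 1) (coneS n s)) := by
  have h : Dia (coneO (gr n s)) := by
    rintro (_ | i) (_ | j)
    · exact Or.inl rfl
    · exact Or.inr (Or.inl trivial)
    · exact Or.inr (Or.inl trivial)
    · exact Or.inr (Or.inr ⟨none, trivial, trivial⟩)
  intro x y
  rcases h (coneE n s x) (coneE n s y) with h | h | ⟨z, h1, h2⟩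
  · exact Or.inl ((coneE n s).injective h)
  · exact Or.inr (Or.inl ((coneE n s).map_adj_iff.1 h))
  · refine Or.inr (Or.inr ⟨(coneE n s).symm z, ?_, ?_⟩)
    · rw [← (coneE n s).map_adj_iff, (coneE n s).apply_symm_apply]
      exact h1
    · rw [← (coneE n s).map_adj_iff, (coneE n s).apply_symm_apply]
      exact h2

end Pool.Agent.W_7e1bc5_h54
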