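import Pool.Agent.W_7e1bc5_h54.GraphS

/-! Decoding: `#P` for functions of graphs, pairs and lists of graphs, and the typed version. -/

set_option autoImplicit false
set_option linter.unusedSectionVars false

namespace Pool.Agent.W_7e1bc5_h54

open Finset hiding val
open Pool.Agent.PolyTime
open Pool.Agent.W_d799b0_h82 (Bn val sz_str_le)

open Classical in
/-- the function with the value `g t` at `enc t` -/
noncomputable def onT {T : Type} (enc : T → List Bool) (g : T → ℕ) (x : List Bool) : ℕ :=
  if h : ∃ t, enc t = x then g h.choose else 0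

theorem onT_link {T τ : Type} [ToD τ] {enc : T → List Bool} {r : τ → T} {dec : List Bool → τ}
    {er : τ → List Bool} (hdec : PF dec) (her : PF er) (he : ∀ c, er c = enc (r c))
    (hd : ∀ t, r (dec (enc t)) = t) (g : T → ℕ) :
    InSharpP (onT enc g) ↔ SP (fun c => g (r c)) := by
  have hinj : ∀ t t', enc t = enc t' → t = t' := by
    intro t t' h
    rw [← hd t, h, hd]
  have hval : ∀ t, onT enc g (enc t) = g t := by
    intro t
    have h : ∃ t', enc t' = enc t := ⟨t, rfl⟩
    rw [onT, dif_pos h]
    exact congrArg g (hinj _ _ h.choose_spec)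
  constructor
  · intro h
    refine (h.toSP.comp her).congr fun c => ?_
    rw [he, hval]
  · intro h
    apply SP.toSharp
    have h1 : SP (fun x : List Bool => if decide (er (dec x) = x) then g (r (dec x)) else 0) :=
      SP.ite (PF.eqListBool (her.comp hdec) PF.id') (h.comp hdec) (SP.const 0)
    refine h1.congr fun x => ?_
    by_cases hx : er (dec x) = x
    · rw [if_pos (by simpa using hx)]
      conv_lhs => rw [← hx, he]
      rw [hval]
    · rw [if_neg (by simpa using hx), onT, dif_neg]
      rintro ⟨t, rfl⟩
      apply hx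
      rw [he, hd]

theorem filter_range_length (n L : ℕ) :
    ((List.range L).filter fun k => decide (k < n)).length = min L n := by
  induction L with
  | zero => simp
  | succ L ih =>
    rw [List.range_succ, List.filter_append, List.length_append, ih]
    by_cases h : L < n
    · simp [h]
      omega
    · simp [h]
      omega

/-- `n` if the length of `x` is `c n ^ 2` -/
def sqOf (c : ℕ) (x : List Bool) : ℕ :=
  ((List.range x.length).filter fun k => decide (c * ((k + 1) * (k + 1)) ≤ x.length)).length

theorem sqOf_eq {c n : ℕ} (hc : 1 ≤ c) {x : List Bool} (h : x.length = c * (n * n)) :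
    sqOf c x = n := by
  have h1 : ∀ k : ℕ, (c * ((k + 1) * (k + 1)) ≤ c * (n * n)) ↔ k < n := by
    intro k
    rw [Nat.mul_le_mul_left_iff (by omega)]
    constructor
    · intro h
      by_contra h2
      have := Nat.mul_le_mul (show n + 1 ≤ k + 1 by omega) (show n + 1 ≤ k + 1 by omega)
      nlinarith
    · intro h
      exact Nat.mul_le_mul h h
  rw [sqOf, h]
  simp only [h1]
  rw [filter_range_length, min_eq_right]
  have := Nat.le_mul_self n
  nlinarith

theorem pf_sqOf (c : ℕ) : PF (sqOf c) := by
  unfold Pool.Agent.W_7e1bc5_h54.sqOf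
  refine PF.length (PF.filter (g := fun (x : List Bool) (k : ℕ) =>
    decide (c * ((k + 1) * (k + 1)) ≤ x.length)) ?_ PF.id'.length.range)
  exact ((PF.const c).mul (PF.snd'.succ.mul PF.snd'.succ)).le PF.fst'.length

/-- number of leading ones -/
def lead (x : List Bool) : ℕ :=
  ((List.range x.length).filter fun k => (x.take (k + 1)).all id).length

theorem lead_eq (m : ℕ) (y : List Bool) : lead (List.replicate m true ++ false :: y) = m := by
  have h1 : ∀ k, ((List.replicate m true ++ false :: y).take (k + 1)).all id =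
      decide (k < m) := by
    intro k
    by_cases h : k < m
    · rw [List.take_append_of_le_length (by simpa using h)]
      simp [h]
    · rw [List.take_append, List.all_append]
      rw [List.length_replicate, show k + 1 - m = (k - m) + 1 by omega]
      simp [h]
  rw [lead]
  simp only [h1]
  rw [filter_range_length, min_eq_right]
  simp

theorem pf_lead {γ : Type} [ToD γ] {f : γ → List Bool} (hf : PF f) : PF (fun c => lead (f c)) := by
  refine PF.comp (g := Pool.Agent.W_7e1bc5_h54.lead) ?_ hf
  unfold Pool.Agent.W_7e1bc5_h54.lead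
  refine PF.length (PF.filter (g := fun (x : List Bool) (k : ℕ) =>
    (x.take (k + 1)).all id) ?_ PF.id'.length.range)
  exact PF.all (g := fun (_ : List Bool × ℕ) (b : Bool) => id b) PF.snd'
    (PF.take PF.snd'.succ PF.fst')

/-! ### graphs -/

theorem sig_gr {k n : ℕ} {G : SimpleGraph (Fin n)} {s : List Bool} (h : k = n)
    (h' : gr n s = G) :
    (⟨k, gr k s⟩ : Σ n, SimpleGraph (Fin n)) = ⟨n, G⟩ := by
  subst h
  rw [h']

theorem sig_gr2 {k n : ℕ} {G H : SimpleGraph (Fin n)} {s t : List Bool} (h : k = n)
    (h1 : gr n s = G) (h2 : gr n t = H) :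
    (⟨k, gr k s, gr k t⟩ : Σ n, SimpleGraph (Fin n) × SimpleGraph (Fin n)) = ⟨n, G, H⟩ := by
  subst h
  rw [h1, h2]

theorem onGraphs_iff (g : ∀ n, SimpleGraph (Fin n) → ℕ) :
    InSharpP (onGraphs g) ↔ SP (fun c : ℕ × List Bool => g c.1 (gr c.1 c.2)) := by
  have h := onT_link (T := Σ n, SimpleGraph (Fin n)) (τ := ℕ × List Bool)
    (enc := fun t => encG t.2) (r := fun c => ⟨c.1, gr c.1 c.2⟩)
    (dec := fun x => (sqOf 1 x, x)) (er := fun c => nrmS c.1 c.2)
    ((pf_sqOf 1).pair PF.id') (PF.nrmS PF.fst' PF.snd') (fun c => (encG_gr _ _).symm) (by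
      rintro ⟨n, G⟩
      have h1 : sqOf 1 (encG G) = n := sqOf_eq le_rfl (by rw [encG_length, one_mul])
      exact sig_gr h1 (gr_encG G)) (fun t => g t.1 t.2)
  exact h

/-! ### pairs -/

theorem onPairs_iff (g : ∀ n, SimpleGraph (Fin n) → SimpleGraph (Fin n) → ℕ) :
    InSharpP (onPairs g) ↔
      SP (fun c : ℕ × (List Bool × List Bool) => g c.1 (gr c.1 c.2.1) (gr c.1 c.2.2)) := by
  have h := onT_link (T := Σ n, SimpleGraph (Fin n) × SimpleGraph (Fin n))
    (τ := ℕ × (List Bool × List Bool))
    (enc := fun t => encPair t.2.1 t.2.2) (r := fun c => ⟨c.1, gr c.1 c.2.1, gr c.1 c.2.2⟩)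
    (dec := fun x => (sqOf 2 x, (x.take (sqOf 2 x * sqOf 2 x), x.drop (sqOf 2 x * sqOf 2 x))))
    (er := fun c => nrmS c.1 c.2.1 ++ nrmS c.1 c.2.2)
    ((pf_sqOf 2).pair ((PF.take ((pf_sqOf 2).mul (pf_sqOf 2)) PF.id').pair
      (PF.drop ((pf_sqOf 2).mul (pf_sqOf 2)) PF.id')))
    ((PF.nrmS PF.fst' PF.snd'.fst).append (PF.nrmS PF.fst' PF.snd'.snd))
    (fun c => by rw [encPair, encG_gr, encG_gr]) (by
      rintro ⟨n, G, H⟩
      have h1 : sqOf 2 (encPair G H) = n := sqOf_eq (by omega) (by
        rw [encPair, List.length_append, encG_length, encG_length]; ring)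
      have h2 : (encPair G H).take (n * n) = encG G := by
        rw [encPair, ← encG_length G, List.take_left]
      have h3 : (encPair G H).drop (n * n) = encG H := by
        rw [encPair, ← encG_length G, List.drop_left]
      refine sig_gr2 h1 ?_ ?_
      · dsimp only
        rw [h1, h2, gr_encG]
      · dsimp only
        rw [h1, h3, gr_encG]) (fun t => g t.1 t.2.1 t.2.2)
  exact h

/-! ### lists -/

/-- the family of graphs of a list of strings -/
def fam (m n : ℕ) (l : List (List Bool)) (i : Fin m) : SimpleGraph (Fin n) := gr n (l.getD i [])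

/-- blocks of length `k` -/
def blocks (m k : ℕ) (x : List Bool) : List (List Bool) :=
  (List.range m).map fun i => (x.drop (i * k)).take k

theorem blocks_getD {m : ℕ} (k : ℕ) (x : List Bool) {i : ℕ} (hi : i < m) :
    (blocks m k x).getD i [] = (x.drop (i * k)).take k := by
  simp [blocks, List.getD_eq_getElem?_getD, hi]

theorem drop_flatMap {α : Type} (l : List α) (f : α → List Bool) (k : ℕ)
    (h : ∀ a ∈ l, (f a).length = k) (d' : α) (i : ℕ) (hi : i < l.length) :
    ((l.flatMap f).drop (i * k)).take k = f (l.getD i d') := by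
  induction l generalizing i with
  | nil => simp at hi
  | cons a l ih =>
    rw [List.flatMap_cons]
    have ha := h a (by simp)
    cases i with
    | zero =>
      rw [zero_mul, List.drop_zero, ← ha, List.take_left]
      rfl
    | succ i =>
      rw [show (i + 1) * k = k + i * k by rw [Nat.succ_mul]; omega, ← List.drop_drop]
      conv_lhs => rw [← ha, List.drop_left]
      rw [ha, ih (fun b hb => h b (by simp [hb])) i (by simpa using hi)]
      rfl

/-- decoding a list of graphs -/
def decF (x : List Bool) : ℕ × (ℕ × List (List Bool)) :=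
  (lead x, (lead (x.drop (lead x + 1)),
    blocks (lead x) (lead (x.drop (lead x + 1)) * lead (x.drop (lead x + 1)))
      ((x.drop (lead x + 1)).drop (lead (x.drop (lead x + 1)) + 1))))

theorem decF_enc {m n : ℕ} (L : Fin m → SimpleGraph (Fin n)) :
    decF (encFam L) = (m, (n, blocks m (n * n) ((List.finRange m).flatMap fun i => encG (L i)))) := by
  have h1 : lead (encFam L) = m := lead_eq m _
  have h2 : (encFam L).drop (m + 1) = List.replicate n true ++ false ::
      (List.finRange m).flatMap fun i => encG (L i) := by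
    rw [encFam, List.drop_append]
    simp
  have h3 : lead ((encFam L).drop (m + 1)) = n := by rw [h2]; exact lead_eq n _
  have h4 : ((encFam L).drop (m + 1)).drop (n + 1) =
      (List.finRange m).flatMap fun i => encG (L i) := by
    rw [h2, List.drop_append]
    simp
  rw [decF, h1, h3, h4]

theorem pf_decF : PF decF := by
  unfold Pool.Agent.W_7e1bc5_h54.decF Pool.Agent.W_7e1bc5_h54.blocks
  have h1 : PF (fun x : List Bool => lead x) := pf_lead PF.id'
  have h2 : PF (fun x : List Bool => x.drop (lead x + 1)) := PF.drop h1.succ PF.id'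
  have h3 : PF (fun x : List Bool => lead (x.drop (lead x + 1))) := pf_lead h2
  have h4 : PF (fun x : List Bool => (x.drop (lead x + 1)).drop
      (lead (x.drop (lead x + 1)) + 1)) := PF.drop h3.succ h2
  refine h1.pair (h3.pair ?_)
  refine PF.map (g := fun (x : List Bool) (i : ℕ) => (((x.drop (lead x + 1)).drop
      (lead (x.drop (lead x + 1)) + 1)).drop
        (i * (lead (x.drop (lead x + 1)) * lead (x.drop (lead x + 1))))).take
          (lead (x.drop (lead x + 1)) * lead (x.drop (lead x + 1)))) ?_ h1.range
  exact PF.take ((h3.mul h3).comp PF.fst') (PF.drop (PF.snd'.mul ((h3.mul h3).comp PF.fst'))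
    (h4.comp PF.fst'))

/-- the string of a typed list of graphs -/
def erF (c : ℕ × (ℕ × List (List Bool))) : List Bool :=
  List.replicate c.1 true ++ false :: (List.replicate c.2.1 true ++ false ::
    (List.range c.1).flatMap fun i => nrmS c.2.1 (c.2.2.getD i []))

theorem pf_erF : PF erF := by
  unfold Pool.Agent.W_7e1bc5_h54.erF
  refine (PF.replicate PF.fst' true).append ((PF.const false).cons
    ((PF.replicate PF.snd'.fst true).append ((PF.const false).cons ?_)))
  refine PF.flatMap (g := fun (c : ℕ × (ℕ × List (List Bool))) (i : ℕ) =>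
    nrmS c.2.1 (c.2.2.getD i [])) ?_ PF.fst'.range
  exact PF.nrmS PF.fst'.snd.fst (PF.getD PF.fst'.snd.snd PF.snd' (PF.const []))

theorem erF_eq (c : ℕ × (ℕ × List (List Bool))) : erF c = encFam (fam c.1 c.2.1 c.2.2) := by
  rw [erF, encFam]
  congr 3
  rw [List.flatMap, List.flatMap, ← List.map_coe_finRange_eq_range, List.map_map]
  congr 2
  rw [List.map_congr_left]
  intro i _
  rw [fam, encG_gr]
  rfl

theorem onFams_iff (g : ∀ m n, (Fin m → SimpleGraph (Fin n)) → ℕ) :
    InSharpP (onFams g) ↔
      SP (fun c : ℕ × (ℕ × List (List Bool)) => g c.1 c.2.1 (fam c.1 c.2.1 c.2.2)) := by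
  have h := onT_link (T := Σ m n, Fin m → SimpleGraph (Fin n)) (τ := ℕ × (ℕ × List (List Bool)))
    (enc := fun t => encFam t.2.2) (r := fun c => ⟨c.1, c.2.1, fam c.1 c.2.1 c.2.2⟩)
    (dec := decF) (er := erF) pf_decF pf_erF erF_eq (by
      rintro ⟨m, n, L⟩
      rw [decF_enc]
      have h1 : fam m n (blocks m (n * n) ((List.finRange m).flatMap fun i => encG (L i))) = L := by
        funext i
        rw [fam, blocks_getD _ _ i.2, drop_flatMap _ _ (n * n) (fun a _ => encG_length _) i i
          (by simp)]
        simp [List.getD_eq_getElem?_getD, gr_encG]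
      simp only [h1]) (fun t => g t.1 t.2.1 t.2.2)
  exact h

end Pool.Agent.W_7e1bc5_h54
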