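import Mathlib

/-!
# Graph isomorphism and #P: definitions

Functions on bit strings; polynomial time is Mathlib's `TM2ComputableInPolyTime`.
-/

set_option autoImplicit false

open Turing Computability

namespace Pool.Agent.W_7e1bc5_h54

/-- `#P`: the number of accepted certificates.  A function `g` from bit strings to natural numbers
is in `#P` if there are a polynomial `p` and a predicate `V`, computable in polynomial time, such
that `g x` is the number of bit strings `u` of length `p |x|` with `V (x, u)`. -/
def InSharpP (g : List Bool → ℕ) : Prop :=
  ∃ (p : Polynomial ℕ) (V : List Bool × List Bool → Bool),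
    Nonempty (TM2ComputableInPolyTime
      (encodingProd (encodingList Bool) (encodingList Bool)).encode encodeBool V) ∧
    ∀ x, g x = {u : List Bool | u.length = p.eval x.length ∧ V (x, u) = true}.ncard

/-- A sequence of natural numbers computable in polynomial time: from `n` written in unary one
computes `M n` written in binary, in time polynomial in `n`. -/
def PolyNum (M : ℕ → ℕ) : Prop :=
  Nonempty (TM2ComputableInPolyTime (fun n : ℕ => List.replicate n true) Nat.bits M)

/-- The multipliers.  For `k = false`: all sequences of positive numbers computable in polynomial
time.  For `k = true`: those among them for which `M n` divides the factorial `(t n)!`, for some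
polynomial `t`. -/
def Multiplier (k : Bool) (M : ℕ → ℕ) : Prop :=
  PolyNum M ∧ (∀ n, 0 < M n) ∧
    (k = true → ∃ t : Polynomial ℕ, ∀ n, M n ∣ (t.eval n).factorial)

open Classical in
/-- The adjacency matrix of a graph on `{0, ..., n - 1}`, written row by row. -/
noncomputable def encG {n : ℕ} (G : SimpleGraph (Fin n)) : List Bool :=
  (List.finRange n).flatMap fun i => (List.finRange n).map fun j => decide (G.Adj i j)

/-- The string which encodes a pair of graphs with the same vertices: the two adjacency matrices. -/
noncomputable def encPair {n : ℕ} (G H : SimpleGraph (Fin n)) : List Bool := encG G ++ encG H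

/-- The string which encodes a list of `m` graphs on `n` vertices: `1^m 0 1^n 0`, followed by the
adjacency matrices. -/
noncomputable def encFam {m n : ℕ} (L : Fin m → SimpleGraph (Fin n)) : List Bool :=
  List.replicate m true ++ false :: (List.replicate n true ++ false ::
    (List.finRange m).flatMap fun i => encG (L i))

open Classical in
/-- The function with the value `g n G` at the string which encodes the graph `G` on `n`
vertices, and 0 at strings which encode no graph. -/
noncomputable def onGraphs (g : ∀ n, SimpleGraph (Fin n) → ℕ) (x : List Bool) : ℕ :=
  if h : ∃ t : (Σ n, SimpleGraph (Fin n)), encG t.2 = x then g h.choose.1 h.choose.2 else 0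

open Classical in
/-- The function with the value `g n G H` at the string which encodes the pair `G, H` of graphs on
`n` vertices, and 0 at strings which encode no pair. -/
noncomputable def onPairs (g : ∀ n, SimpleGraph (Fin n) → SimpleGraph (Fin n) → ℕ)
    (x : List Bool) : ℕ :=
  if h : ∃ t : (Σ n, SimpleGraph (Fin n) × SimpleGraph (Fin n)), encPair t.2.1 t.2.2 = x then
    g h.choose.1 h.choose.2.1 h.choose.2.2
  else 0

open Classical in
/-- The function with the value `g m n L` at the string which encodes the list `L` of `m` graphs
on `n` vertices, and 0 at strings which encode no list of graphs. -/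
noncomputable def onFams (g : ∀ m n, (Fin m → SimpleGraph (Fin n)) → ℕ) (x : List Bool) : ℕ :=
  if h : ∃ t : (Σ m n, Fin m → SimpleGraph (Fin n)), encFam t.2.2 = x then
    g h.choose.1 h.choose.2.1 h.choose.2.2
  else 0

/-- The graphs are isomorphic. -/
def Isom {n : ℕ} (G H : SimpleGraph (Fin n)) : Prop := Nonempty (G ≃g H)

open Classical in
/-- `a` for isomorphic graphs and `b` for graphs which are not isomorphic. -/
noncomputable def twoVal {n : ℕ} (a b : ℕ) (G H : SimpleGraph (Fin n)) : ℕ :=
  if Isom G H then a else b

/-- The number of graphs on the same vertices which are isomorphic to `G`. -/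
noncomputable def copies {n : ℕ} (G : SimpleGraph (Fin n)) : ℕ :=
  {H : SimpleGraph (Fin n) | Isom G H}.ncard

/-- The number of isomorphism classes in a list of graphs. -/
noncomputable def classes {m n : ℕ} (L : Fin m → SimpleGraph (Fin n)) : ℕ :=
  (Set.range fun i => {H : SimpleGraph (Fin n) | Isom (L i) H}).ncard

/-- The function of the question: `n!` for two isomorphic graphs on `n` vertices, `2 n!` for two
graphs on `n` vertices which are not isomorphic, 0 at strings which encode no pair of graphs. -/
noncomputable def fQ1 : List Bool → ℕ := onPairs fun n G H => n.factorial * twoVal 1 2 G H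

end Pool.Agent.W_7e1bc5_h54
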