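import Pool.Agent.W_7e1bc5_h54.SepA
import Pool.Agent.W_7e1bc5_h54.Back

/-! The equivalences. -/

set_option autoImplicit false
set_option linter.unusedSectionVars false

namespace Pool.Agent.W_7e1bc5_h54

open Finset hiding val
open Pool.Agent.PolyTime
open Pool.Agent.W_d799b0_h82 (Bn val sz_str_le pf_mod strTree treeStr)

/-! ### sequences of numbers -/

theorem polyNum_iff (M : ℕ → ℕ) : PolyNum M ↔ PN M := by
  constructor
  · intro h
    have h0 : PF (fun n : ℕ => List.replicate n true) := PF.replicate PF.id' true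
    have h1 : Poly en (fun x : List Bool => x) (fun n : ℕ => List.replicate n true) :=
      Poly.comp (f := fun n : ℕ => List.replicate n true) (g := fun x : List Bool => x) h0 treeStr
    have h2 : Poly en (fun n : ℕ => List.replicate n true) (fun n : ℕ => n) :=
      h1.restrict id (fun _ => rfl) (fun _ => rfl)
    have h3 : Poly en Nat.bits M := Poly.comp (f := fun n : ℕ => n) (g := M) h2 h
    have h4 : Poly Nat.bits en (fun n : ℕ => Bn.mk n) :=
      strTree.restrict Nat.bits (fun _ => rfl) (fun _ => rfl)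
    exact Poly.comp (f := M) (g := fun n : ℕ => Bn.mk n) h3 h4
  · intro h
    have h0 : PF (fun x : List Bool => x.length) := PF.length PF.id'
    have h1 : Poly (fun x : List Bool => x) en (fun x : List Bool => x.length) :=
      Poly.comp (f := fun x : List Bool => x) (g := fun x : List Bool => x.length) strTree h0
    have h2 : Poly (fun n : ℕ => List.replicate n true) en (fun n : ℕ => n) :=
      h1.restrict (fun n : ℕ => List.replicate n true) (fun _ => rfl) (fun n => by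
        rw [List.length_replicate])
    have h3 : Poly (fun n : ℕ => List.replicate n true) en (fun n : ℕ => Bn.mk (M n)) :=
      Poly.comp (f := fun n : ℕ => n) (g := fun n : ℕ => Bn.mk (M n)) h2 h
    have h4 : Poly en (fun b : Bn => Nat.bits b.n) (fun b : Bn => b) :=
      treeStr.restrict (fun b : Bn => Nat.bits b.n) (fun _ => rfl) (fun _ => rfl)
    have h5 : Poly (fun n : ℕ => List.replicate n true) (fun b : Bn => Nat.bits b.n)
        (fun n : ℕ => Bn.mk (M n)) :=
      Poly.comp (f := fun n : ℕ => Bn.mk (M n)) (g := fun b : Bn => b) h3 h4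
    exact h5.restrict id (fun _ => rfl) (fun _ => rfl)

theorem multiplier_iff (k : Bool) (M : ℕ → ℕ) : Multiplier k M ↔ Mul (k = true) M := by
  rw [Multiplier, Mul, polyNum_iff]
  refine and_congr Iff.rfl (and_congr Iff.rfl (imp_congr Iff.rfl ?_))
  constructor
  · rintro ⟨t, ht⟩
    refine ⟨t, fun n => (ht n).trans (fact_dvd (eval_mono t ?_))⟩
    rw [sz_nat]
    omega
  · rintro ⟨t, ht⟩
    refine ⟨t.comp (Polynomial.C 2 * Polynomial.X + 1), fun n => ?_⟩
    have h := ht n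
    rw [sz_nat] at h
    simpa only [Polynomial.eval_comp, Polynomial.eval_add, Polynomial.eval_mul,
      Polynomial.eval_C, Polynomial.eval_X, Polynomial.eval_one] using h

/-! ### the conditions -/

/-- values 1 and 2 -/
def C1 (k : Bool) : Prop := ∃ M : ℕ → ℕ, Multiplier k M ∧
  InSharpP (onPairs fun n G H => M n * twoVal 1 2 G H)

/-- values 1 and 0 -/
def C2 (k : Bool) : Prop := ∃ M : ℕ → ℕ, Multiplier k M ∧
  InSharpP (onPairs fun n G H => M n * twoVal 1 0 G H)

/-- copies -/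
def C3 (k : Bool) : Prop := ∃ M : ℕ → ℕ, Multiplier k M ∧
  InSharpP (onGraphs fun n G => M n * copies G)

/-- classes -/
def C4 (k : Bool) : Prop := ∃ M : ℕ → ℕ, Multiplier k M ∧
  InSharpP (onFams fun m n L => M (m + n) * classes L)

/-- arbitrary values -/
def C5 (k : Bool) : Prop := ∀ A B : ℕ → ℕ, PolyNum A → PolyNum B → (∀ n, 0 < A n) →
  ∃ M : ℕ → ℕ, Multiplier k M ∧ InSharpP (onPairs fun n G H => M n * twoVal (A n) (B n) G H)

/-- two values with a ratio at least `1 + 1 / r` -/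
def C6 (k : Bool) : Prop := ∃ (A B : ℕ → ℕ) (r : Polynomial ℕ), PolyNum A ∧ Multiplier k B ∧
  Multiplier k (fun n => B n - A n) ∧ (∀ n, (r.eval n + 1) * A n ≤ r.eval n * B n) ∧
  InSharpP (onPairs fun n G H => twoVal (A n) (B n) G H)

variable {k : Bool}

theorem c1_c6 (h : C1 k) : C6 k := by
  obtain ⟨M, hM, h⟩ := h
  have hM' := (multiplier_iff k M).1 hM
  refine ⟨M, fun n => 2 * M n, 1, hM.1, ?_, ?_, ?_, ?_⟩
  · rw [multiplier_iff]
    exact (Mul.const 2 (by norm_num)).mul hM'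
  · rw [multiplier_iff]
    refine hM'.congr fun n => ?_
    dsimp only
    omega
  · intro n
    rw [Polynomial.eval_one]
    dsimp only
    omega
  · have e : (fun n (G H : SimpleGraph (Fin n)) => twoVal (M n) (2 * M n) G H) =
        fun n G H => M n * twoVal 1 2 G H := by
      funext n G H
      rw [twoVal, twoVal]
      split_ifs <;> ring
    rw [e]
    exact h

theorem c6_sep (h : C6 k) : Sep (k = true) := by
  obtain ⟨A, B, r, hA, hB, hBA, hAB, h⟩ := h
  rw [onPairs_iff] at h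
  exact Sep.ofRatio ((polyNum_iff _).1 hA) ((multiplier_iff _ _).1 hB)
    ((multiplier_iff _ _).1 hBA) (PF.evalPoly r PF.id') hAB h

theorem c6_c3 (h : C6 k) : C3 k := by
  obtain ⟨M, hM, h⟩ := (c6_sep h).copies
  exact ⟨M, (multiplier_iff _ _).2 hM, (onGraphs_iff _).2 h⟩

theorem c6_c4 (h : C6 k) : C4 k := by
  obtain ⟨M, hM, h⟩ := (c6_sep h).classes
  exact ⟨M, (multiplier_iff _ _).2 hM, (onFams_iff _).2 h⟩

theorem c3_c1 (h : C3 k) : C1 k := by
  obtain ⟨M, hM, h⟩ := h
  obtain ⟨M', hM', h'⟩ := oneTwo_of_copies ((multiplier_iff _ _).1 hM) ((onGraphs_iff _).1 h)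
  exact ⟨M', (multiplier_iff _ _).2 hM', (onPairs_iff _).2 h'⟩

theorem c3_c2 (h : C3 k) : C2 k := by
  obtain ⟨M, hM, h⟩ := h
  obtain ⟨M', hM', h'⟩ := ind_of_copies ((multiplier_iff _ _).1 hM) ((onGraphs_iff _).1 h)
  exact ⟨M', (multiplier_iff _ _).2 hM', (onPairs_iff _).2 h'⟩

theorem c2_c3 (h : C2 k) : C3 k := by
  obtain ⟨M, hM, h⟩ := h
  exact ⟨M, hM, (onGraphs_iff _).2 (copies_of_ind ((onPairs_iff _).1 h))⟩

theorem c4_c1 (h : C4 k) : C1 k := by
  obtain ⟨M, hM, h⟩ := h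
  obtain ⟨M', hM', h'⟩ := oneTwo_of_classes ((multiplier_iff _ _).1 hM) ((onFams_iff _).1 h)
  exact ⟨M', (multiplier_iff _ _).2 hM', (onPairs_iff _).2 h'⟩

theorem c12_c5 (h : C1 k) (h' : C2 k) : C5 k := by
  intro A B hA hB hA0
  obtain ⟨M₁, hM₁, h₁⟩ := h
  obtain ⟨M₂, hM₂, h₂⟩ := h'
  obtain ⟨M, hM, h3⟩ := anyValues ((multiplier_iff _ _).1 hM₁) ((multiplier_iff _ _).1 hM₂)
    ((onPairs_iff _).1 h₁) ((onPairs_iff _).1 h₂) ((polyNum_iff A).1 hA) ((polyNum_iff B).1 hB)
    hA0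
  exact ⟨M, (multiplier_iff _ _).2 hM, (onPairs_iff _).2 h3⟩

theorem c5_c1 (h : C5 k) : C1 k := by
  obtain ⟨M, hM, h1⟩ := h (fun _ => 1) (fun _ => 2) ((polyNum_iff _).2 (PN.const 1))
    ((polyNum_iff _).2 (PN.const 2)) (fun _ => Nat.one_pos)
  exact ⟨M, hM, h1⟩

theorem tfaeC (k : Bool) : List.TFAE [C1 k, C2 k, C3 k, C4 k, C5 k, C6 k] := by
  tfae_have 1 → 6 := c1_c6
  tfae_have 6 → 3 := c6_c3
  tfae_have 3 → 2 := c3_c2
  tfae_have 2 → 3 := c2_c3
  tfae_have 3 → 1 := c3_c1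
  tfae_have 6 → 4 := c6_c4
  tfae_have 4 → 1 := c4_c1
  tfae_have 1 → 5 := fun h => c12_c5 h (c3_c2 (c6_c3 (c1_c6 h)))
  tfae_have 5 → 1 := c5_c1
  tfae_finish

theorem fQ1_c1 (k : Bool) (h : InSharpP fQ1) : C1 k :=
  ⟨fun n => n.factorial, (multiplier_iff _ _).2 (Mul.fact PF.id'), h⟩

end Pool.Agent.W_7e1bc5_h54
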