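import Pool.Agent.W_7e1bc5_h54.Mult
import Pool.Agent.W_7e1bc5_h54.CoefP
import Pool.Agent.W_7e1bc5_h54.Anch

/-! From a function with two values far apart to copies and classes. -/

set_option autoImplicit false
set_option linter.unusedSectionVars false

namespace Pool.Agent.W_7e1bc5_h54

open Finset hiding val
open Pool.Agent.PolyTime
open Pool.Agent.W_d799b0_h82 (Bn val sz_str_le pf_mod)

variable {fac : Prop}

open Classical in
/-- a function of pairs of graphs with two values far apart -/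
def Sep (fac : Prop) : Prop :=
  ∃ (α β : ℕ × ℕ → ℕ) (Z : ℕ × (ℕ × (List Bool × List Bool)) → ℕ),
    PN α ∧ PN β ∧ (∀ c, 0 < β c) ∧ (∀ c, α c ≤ β c) ∧
    (∀ K n, α (K, n) * K * 2 ^ K * (K + 1).factorial ≤ β (K, n)) ∧
    Mul fac (fun c => β c - α c) ∧ SP Z ∧
    ∀ K n s t, Z (K, (n, (s, t))) = if Isom (gr n s) (gr n t) then α (K, n) else β (K, n)

theorem sep_mono {A B k K : ℕ} (hkK : k ≤ K) (h : A * K * 2 ^ K * (K + 1).factorial ≤ B) :
    A * k * 2 ^ k * (k + 1).factorial ≤ B := by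
  refine le_trans ?_ h
  have h1 : 2 ^ k ≤ 2 ^ K := Nat.pow_le_pow_right (by norm_num) hkK
  have h2 : (k + 1).factorial ≤ (K + 1).factorial := Nat.factorial_le (by omega)
  exact Nat.mul_le_mul (Nat.mul_le_mul (Nat.mul_le_mul_left _ hkK) h1) h2

/-! ### copies -/

/-- the string of the graph with two vertices interchanged -/
def swapS (k j n : ℕ) (s : List Bool) : List Bool :=
  mk n fun x y => (nrmS n s).getD ((if x = k then j else if x = j then k else x) * n +
    (if y = k then j else if y = j then k else y)) false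

theorem pf_swapS {γ : Type} [ToD γ] {k j n : γ → ℕ} {s : γ → List Bool} (hk : PF k) (hj : PF j)
    (hn : PF n) (hs : PF s) : PF (fun c => swapS (k c) (j c) (n c) (s c)) := by
  unfold swapS
  have hc : PF (fun x : (γ × ℕ) × ℕ => x.1.1) := PF.fst'.fst
  have key : ∀ {δ : Type} [ToD δ] {a b x : δ → ℕ}, PF a → PF b → PF x →
      PF (fun c => if x c = a c then b c else if x c = b c then a c else x c) := by
    intro δ _ a b x ha hb hx
    have h1 : PF (fun c => if decide (x c = a c) then b c else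
        if decide (x c = b c) then a c else x c) :=
      PF.ite (hx.natEq ha) hb (PF.ite (hx.natEq hb) ha hx)
    simpa only [decide_eq_true_eq] using h1
  refine PF.mk (A := fun c x y => (nrmS (n c) (s c)).getD
    ((if x = k c then j c else if x = j c then k c else x) * n c +
    (if y = k c then j c else if y = j c then k c else y)) false) hn ?_
  refine PF.getD (PF.nrmS (hn.comp hc) (hs.comp hc)) ?_ (PF.const false)
  exact ((key (hk.comp hc) (hj.comp hc) PF.fst'.snd).mul (hn.comp hc)).add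
    (key (hk.comp hc) (hj.comp hc) PF.snd')

theorem gr_swapS {n : ℕ} (k j : Fin n) (s : List Bool) :
    gr n (swapS k j n s) = pushG (gr n s) (Equiv.swap k j) := by
  ext x y
  have h0 : ∀ x : Fin n, (if (x : ℕ) = k then (j : ℕ) else if (x : ℕ) = j then (k : ℕ) else x) =
      (Equiv.swap k j x : Fin n) := by
    intro x
    rw [Equiv.swap_apply_def]
    simp only [Fin.ext_iff]
    split_ifs <;> rfl
  classical
  rw [swapS, gr_mk_adj, h0, h0, ← encG_gr, encG_getD, encG_getD]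
  rw [show (pushG (gr n s) (Equiv.swap k j)).Adj x y ↔
    (gr n s).Adj ((Equiv.swap k j)⁻¹ x) ((Equiv.swap k j)⁻¹ y) from Iff.rfl, Equiv.swap_inv]
  simp only [decide_eq_true_eq]
  constructor
  · rintro ⟨-, h | h⟩
    · exact h
    · exact h.symm
  · intro h
    refine ⟨?_, Or.inl h⟩
    rintro rfl
    exact h.ne rfl

/-- the number of vertices of the gadget -/
def nA (n : ℕ) : ℕ := n * (lw n + 1)

theorem le_nA (n : ℕ) : n ≤ nA n := Nat.le_mul_of_pos_right _ (by omega)

theorem pf_nA {γ : Type} [ToD γ] {n : γ → ℕ} (hn : PF n) : PF (fun c => nA (n c)) :=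
  hn.mul (pf_lw hn).succ

theorem Sep.copies (h : Sep fac) : ∃ M : ℕ → ℕ, Mul fac M ∧
    SP (fun c : ℕ × List Bool => M c.1 * copies (gr c.1 c.2)) := by
  classical
  obtain ⟨α, β, Z, hα, hβ, hβ0, hαβ, hsep, hM, hZ, hz⟩ := h
  have hα' : PN (fun n : ℕ => α (nA n, nA n)) :=
    PN.comp hα (f := α) ((pf_nA PF.id').pair (pf_nA PF.id'))
  have hβ' : PN (fun n : ℕ => β (nA n, nA n)) :=
    PN.comp hβ (f := β) ((pf_nA PF.id').pair (pf_nA PF.id'))
  refine ⟨fun n => ∏ k ∈ range n,
    ((β (nA n, nA n) - α (nA n, nA n)) ^ k * (k + 1).factorial), ?_, ?_⟩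
  · refine Mul.prodRange (g := fun x : ℕ × ℕ =>
      (β (nA x.1, nA x.1) - α (nA x.1, nA x.1)) ^ x.2 * (x.2 + 1).factorial) ?_ PF.id'
    exact (Mul.powU (hM.comp (f := fun x : ℕ × ℕ => (nA x.1, nA x.1))
      ((pf_nA PF.fst').pair (pf_nA PF.fst'))) PF.snd').mul (Mul.fact PF.snd'.succ)
  · have h1 : SP (fun x : ((ℕ × List Bool) × ℕ) × ℕ => Z (nA x.1.1.1, (nA x.1.1.1,
        (anchS x.1.2 x.1.1.1 x.1.1.2,
          anchS x.1.2 x.1.1.1 (swapS x.1.2 x.2 x.1.1.1 x.1.1.2))))) := by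
      have hn : PF (fun x : ((ℕ × List Bool) × ℕ) × ℕ => x.1.1.1) := PF.fst'.fst.fst
      have hs : PF (fun x : ((ℕ × List Bool) × ℕ) × ℕ => x.1.1.2) := PF.fst'.fst.snd
      have hk : PF (fun x : ((ℕ × List Bool) × ℕ) × ℕ => x.1.2) := PF.fst'.snd
      have hj : PF (fun x : ((ℕ × List Bool) × ℕ) × ℕ => x.2) := PF.snd'
      exact hZ.comp (f := fun x : ((ℕ × List Bool) × ℕ) × ℕ => (nA x.1.1.1, (nA x.1.1.1,
        (anchS x.1.2 x.1.1.1 x.1.1.2,
          anchS x.1.2 x.1.1.1 (swapS x.1.2 x.2 x.1.1.1 x.1.1.2)))))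
        ((pf_nA hn).pair ((pf_nA hn).pair ((pf_anchS hk hn hs).pair
          (pf_anchS hk hn (pf_swapS hk hj hn hs)))))
    have h2 : SP (fun x : (ℕ × List Bool) × ℕ => rcp x.2 (α (nA x.1.1, nA x.1.1))
        (β (nA x.1.1, nA x.1.1)) fun j => Z (nA x.1.1, (nA x.1.1,
        (anchS x.2 x.1.1 x.1.2, anchS x.2 x.1.1 (swapS x.2 j x.1.1 x.1.2))))) :=
      SP.rcp h1 PF.snd' (PN.comp (f := fun n : ℕ => α (nA n, nA n)) hα' PF.fst'.fst)
        (PN.comp (f := fun n : ℕ => β (nA n, nA n)) hβ' PF.fst'.fst)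
    have h3 : SP (fun c : ℕ × List Bool => ∏ k ∈ range c.1, rcp k (α (nA c.1, nA c.1))
        (β (nA c.1, nA c.1)) fun j => Z (nA c.1, (nA c.1,
        (anchS k c.1 c.2, anchS k c.1 (swapS k j c.1 c.2))))) := SP.prodRange h2 PF.fst'
    refine (SP.mulPN (PN.fact PF.fst') h3).congr fun c => ?_
    obtain ⟨n, s⟩ := c
    dsimp only
    have key : ∀ k ∈ range n, (orb k (gr n s) + 1) * (rcp k (α (nA n, nA n)) (β (nA n, nA n))
        fun j => Z (nA n, (nA n, (anchS k n s, anchS k n (swapS k j n s))))) =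
        (β (nA n, nA n) - α (nA n, nA n)) ^ k * (k + 1).factorial := by
      intro k hk
      rw [mem_range] at hk
      rw [orb, dif_pos hk, rcp]
      refine coef_main (hβ0 _) (hαβ _) (sep_mono (hk.le.trans (le_nA n)) (hsep _ _)) _ _ ?_
      intro j hj
      rw [hz, nA, anchS_iff]
      have hjn : j < n := hj.trans hk
      have h4 := gr_swapS ⟨k, hk⟩ ⟨j, hjn⟩ s
      dsimp only at h4
      rw [h4]
      have h5 : AI k (gr n s) (pushG (gr n s) (Equiv.swap ⟨k, hk⟩ ⟨j, hjn⟩)) ↔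
          ∃ hj : j < n, AI k (gr n s) (pushG (gr n s) (Equiv.swap ⟨k, hk⟩ ⟨j, hj⟩)) :=
        ⟨fun h => ⟨hjn, h⟩, fun ⟨_, h⟩ => h⟩
      exact if_congr h5 rfl rfl
    have h6 := prod_congr rfl key
    rw [prod_mul_distrib, prod_orb] at h6
    rw [← h6, ← copies_mul (gr n s)]
    ring

/-! ### classes -/

theorem sum_classes {m : ℕ} {β : Type} [DecidableEq β] (f : Fin m → β) (R : Fin m → ℕ) (M : ℕ)
    (h : ∀ j, (univ.filter fun i => f i = f j).card * R j = M) :
    ∑ j, R j = M * (univ.image f).card := by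
  rw [← sum_fiberwise_of_maps_to (g := f) (t := univ.image f)
    (fun j _ => mem_image_of_mem f (mem_univ j))]
  rw [show M * (univ.image f).card = ∑ _b ∈ univ.image f, M by
    rw [sum_const, smul_eq_mul, mul_comm]]
  refine sum_congr rfl fun b hb => ?_
  rw [mem_image] at hb
  obtain ⟨j, -, rfl⟩ := hb
  have h1 : ∀ i ∈ univ.filter (fun i => f i = f j), R i = R j := by
    intro i hi
    rw [mem_filter] at hi
    have h2 := h i
    have h3 := h j
    rw [hi.2] at h2
    have h4 : 0 < (univ.filter fun i => f i = f j).card :=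
      card_pos.2 ⟨j, by rw [mem_filter]; exact ⟨mem_univ _, rfl⟩⟩
    exact Nat.eq_of_mul_eq_mul_left h4 (h2.trans h3.symm)
  rw [sum_congr rfl h1, sum_const, smul_eq_mul, h j]

theorem isoset_eq {n : ℕ} (G G' : SimpleGraph (Fin n)) :
    {H : SimpleGraph (Fin n) | Isom G H} = {H | Isom G' H} ↔ Isom G G' := by
  constructor
  · intro h
    have : G' ∈ {H : SimpleGraph (Fin n) | Isom G H} := by
      rw [h]
      exact Isom.refl G'
    exact this
  · intro h
    ext H
    exact ⟨fun h' => h.symm.trans h', fun h' => h.trans h'⟩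

open Classical in
theorem classes_eq {m n : ℕ} (L : Fin m → SimpleGraph (Fin n)) :
    classes L = (univ.image fun i => {H : SimpleGraph (Fin n) | Isom (L i) H}).card := by
  rw [classes, ← Set.ncard_coe_finset, coe_image, coe_univ, Set.image_univ]

theorem Sep.classes (h : Sep fac) : ∃ M : ℕ → ℕ, Mul fac M ∧
    SP (fun c : ℕ × (ℕ × List (List Bool)) =>
      M (c.1 + c.2.1) * classes (fam c.1 c.2.1 c.2.2)) := by
  classical
  obtain ⟨α, β, Z, hα, hβ, hβ0, hαβ, hsep, hM, hZ, hz⟩ := h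
  have hg : Mul fac (fun x : ℕ × ℕ => (β (x.1, x.1 - x.2) - α (x.1, x.1 - x.2)) ^ x.2 *
      (x.2 + 1).factorial) :=
    (Mul.powU (hM.comp (f := fun x : ℕ × ℕ => (x.1, x.1 - x.2))
      (PF.fst'.pair (PF.fst'.sub PF.snd'))) PF.snd').mul (Mul.fact PF.snd'.succ)
  refine ⟨fun N => ∏ m ∈ range (N + 1), ((β (N, N - m) - α (N, N - m)) ^ m *
    (m + 1).factorial), Mul.prodRange hg PF.id'.succ, ?_⟩
  have hm : PF (fun c : ℕ × (ℕ × List (List Bool)) => c.1) := PF.fst'
  have hn : PF (fun c : ℕ × (ℕ × List (List Bool)) => c.2.1) := PF.snd'.fst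
  have hl : PF (fun c : ℕ × (ℕ × List (List Bool)) => c.2.2) := PF.snd'.snd
  have hN : PF (fun c : ℕ × (ℕ × List (List Bool)) => c.1 + c.2.1) := hm.add hn
  have h1 : SP (fun x : ((ℕ × (ℕ × List (List Bool))) × ℕ) × ℕ =>
      if decide (x.2 = x.1.2) then β (x.1.1.1 + x.1.1.2.1, x.1.1.2.1) else
      Z (x.1.1.1 + x.1.1.2.1, (x.1.1.2.1,
        (x.1.1.2.2.getD x.2 [], x.1.1.2.2.getD x.1.2 [])))) := by
    have hc : PF (fun x : ((ℕ × (ℕ × List (List Bool))) × ℕ) × ℕ => x.1.1) := PF.fst'.fst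
    refine SP.ite (PF.snd'.natEq PF.fst'.snd) ?_ ?_
    · exact SP.ofPN (PN.comp hβ (f := β)
        (g := fun x : ((ℕ × (ℕ × List (List Bool))) × ℕ) × ℕ =>
          (x.1.1.1 + x.1.1.2.1, x.1.1.2.1)) ((hN.comp hc).pair (hn.comp hc)))
    · exact hZ.comp (f := fun x : ((ℕ × (ℕ × List (List Bool))) × ℕ) × ℕ =>
        (x.1.1.1 + x.1.1.2.1, (x.1.1.2.1,
        (x.1.1.2.2.getD x.2 [], x.1.1.2.2.getD x.1.2 []))))
        ((hN.comp hc).pair ((hn.comp hc).pair ((PF.getD (hl.comp hc) PF.snd' (PF.const [])).pair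
          (PF.getD (hl.comp hc) PF.fst'.snd (PF.const [])))))
  have h2 : SP (fun x : (ℕ × (ℕ × List (List Bool))) × ℕ =>
      rcp x.1.1 (α (x.1.1 + x.1.2.1, x.1.2.1)) (β (x.1.1 + x.1.2.1, x.1.2.1)) fun i =>
      if decide (i = x.2) then β (x.1.1 + x.1.2.1, x.1.2.1) else
      Z (x.1.1 + x.1.2.1, (x.1.2.1, (x.1.2.2.getD i [], x.1.2.2.getD x.2 [])))) :=
    SP.rcp h1 (hm.comp PF.fst')
      (PN.comp hα (f := α) (g := fun x : (ℕ × (ℕ × List (List Bool))) × ℕ =>
        (x.1.1 + x.1.2.1, x.1.2.1)) ((hN.comp PF.fst').pair (hn.comp PF.fst')))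
      (PN.comp hβ (f := β) (g := fun x : (ℕ × (ℕ × List (List Bool))) × ℕ =>
        (x.1.1 + x.1.2.1, x.1.2.1)) ((hN.comp PF.fst').pair (hn.comp PF.fst')))
  have h3 : SP (fun c : ℕ × (ℕ × List (List Bool)) => ∑ j ∈ range c.1,
      rcp c.1 (α (c.1 + c.2.1, c.2.1)) (β (c.1 + c.2.1, c.2.1)) fun i =>
      if decide (i = j) then β (c.1 + c.2.1, c.2.1) else
      Z (c.1 + c.2.1, (c.2.1, (c.2.2.getD i [], c.2.2.getD j [])))) := SP.sumRange h2 hm
  have h4 : PN (fun c : ℕ × (ℕ × List (List Bool)) =>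
      (∏ m ∈ range (c.1 + c.2.1 + 1), ((β (c.1 + c.2.1, c.1 + c.2.1 - m) -
        α (c.1 + c.2.1, c.1 + c.2.1 - m)) ^ m * (m + 1).factorial)) /
      ((β (c.1 + c.2.1, c.2.1) - α (c.1 + c.2.1, c.2.1)) ^ c.1 * (c.1 + 1).factorial)) := by
    refine PN.div ?_ ?_
    · exact PN.comp (f := fun N => ∏ m ∈ range (N + 1), ((β (N, N - m) - α (N, N - m)) ^ m *
        (m + 1).factorial)) (Mul.prodRange (fac := fac) hg PF.id'.succ).1 hN
    · exact (PN.powU (PN.comp hM.1 (f := fun c : ℕ × ℕ => β c - α c)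
        (g := fun c : ℕ × (ℕ × List (List Bool)) => (c.1 + c.2.1, c.2.1)) (hN.pair hn)) hm).mul
        (PN.fact hm.succ)
  refine (SP.mulPN h4 h3).congr fun c => ?_
  obtain ⟨m, n, l⟩ := c
  dsimp only
  set D := (β (m + n, n) - α (m + n, n)) ^ m * (m + 1).factorial with hD
  have hdvd : D ∣ ∏ k ∈ range (m + n + 1), ((β (m + n, m + n - k) -
      α (m + n, m + n - k)) ^ k * (k + 1).factorial) := by
    have := dvd_prod_of_mem (fun k => (β (m + n, m + n - k) -
      α (m + n, m + n - k)) ^ k * (k + 1).factorial) (mem_range.2 (show m < m + n + 1 by omega))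
    rwa [Nat.add_sub_cancel_left] at this
  have hsum : ∑ j ∈ range m, (rcp m (α (m + n, n)) (β (m + n, n)) fun i =>
      if decide (i = j) then β (m + n, n) else
      Z (m + n, (n, (l.getD i [], l.getD j [])))) = D * Pool.Agent.W_7e1bc5_h54.classes (fam m n l) := by
    rw [classes_eq, ← Fin.sum_univ_eq_sum_range (fun j => rcp m (α (m + n, n)) (β (m + n, n)) fun i =>
      if decide (i = j) then β (m + n, n) else Z (m + n, (n, (l.getD i [], l.getD j []))))]
    apply sum_classes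
    intro j
    have h5 : (univ.filter fun i : Fin m =>
        {H : SimpleGraph (Fin n) | Isom (fam m n l i) H} = {H | Isom (fam m n l j) H}).card =
        ((range m).filter fun i : ℕ => i ≠ (j : ℕ) ∧ Isom (gr n (l.getD i [])) (gr n (l.getD j []))).card
          + 1 := by
      simp only [isoset_eq]
      have h6 : (univ.filter fun i : Fin m => Isom (fam m n l i) (fam m n l j)) =
          insert j (univ.filter fun i : Fin m => i ≠ j ∧ Isom (fam m n l i) (fam m n l j)) := by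
        ext i
        rw [mem_filter, mem_insert, mem_filter]
        constructor
        · rintro ⟨h, h'⟩
          by_cases hij : i = j
          · exact Or.inl hij
          · exact Or.inr ⟨h, hij, h'⟩
        · rintro (rfl | ⟨h, -, h'⟩)
          · exact ⟨mem_univ _, Isom.refl _⟩
          · exact ⟨h, h'⟩
      rw [h6, card_insert_of_notMem (by
        rw [mem_filter]
        rintro ⟨-, h, -⟩
        exact h rfl)]
      congr 1
      refine card_bij (fun i _ => (i : ℕ)) ?_ ?_ ?_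
      · intro i hi
        rw [mem_filter] at hi
        rw [mem_filter, mem_range]
        exact ⟨i.2, fun h => hi.2.1 (Fin.ext h), hi.2.2⟩
      · intro a _ b _ h
        exact Fin.ext h
      · intro i hi
        rw [mem_filter, mem_range] at hi
        refine ⟨⟨i, hi.1⟩, ?_, rfl⟩
        rw [mem_filter]
        exact ⟨mem_univ _, fun h => hi.2.1 (congrArg Fin.val h), hi.2.2⟩
    rw [h5, rcp]
    refine coef_main (hβ0 _) (hαβ _) (sep_mono (Nat.le_add_right _ _) (hsep _ _)) _ _ ?_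
    intro i hi
    rw [hz]
    by_cases hij : i = j
    · rw [if_pos (by simpa using hij), if_neg (fun h => h.1 hij)]
    · rw [if_neg (by simpa using hij)]
      by_cases hI : Isom (gr n (l.getD i [])) (gr n (l.getD j []))
      · rw [if_pos hI, if_pos ⟨hij, hI⟩]
      · rw [if_neg hI, if_neg (fun h => hI h.2)]
  rw [hsum, ← mul_assoc, Nat.div_mul_cancel hdvd]

end Pool.Agent.W_7e1bc5_h54
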