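import Pool.Agent.W_7e1bc5_h54.Link

/-! Adjacency matrices as strings. -/

set_option autoImplicit false
set_option linter.unusedSectionVars false

namespace Pool.Agent.W_7e1bc5_h54

open Finset hiding val
open Pool.Agent.PolyTime
open Pool.Agent.W_d799b0_h82 (Bn val sz_str_le)

/-- the matrix of a Boolean function, row by row -/
def mk (n : ℕ) (A : ℕ → ℕ → Bool) : List Bool :=
  (List.range n).flatMap fun i => (List.range n).map fun j => A i j

theorem flatMap_length_const {α β : Type} (l : List α) (f : α → List β) (k : ℕ)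
    (h : ∀ a ∈ l, (f a).length = k) : (l.flatMap f).length = l.length * k := by
  induction l with
  | nil => simp
  | cons a l ih =>
    rw [List.flatMap_cons, List.length_append, ih fun b hb => h b (by simp [hb]),
      h a (by simp), List.length_cons]
    ring

theorem flatMap_getD {α β : Type} (l : List α) (f : α → List β) (k : ℕ)
    (h : ∀ a ∈ l, (f a).length = k) (d : β) (d' : α) (i j : ℕ) (hi : i < l.length) (hj : j < k) :
    (l.flatMap f).getD (i * k + j) d = (f (l.getD i d')).getD j d := by
  induction l generalizing i with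
  | nil => simp at hi
  | cons a l ih =>
    rw [List.flatMap_cons]
    have ha := h a (by simp)
    cases i with
    | zero =>
      rw [zero_mul, zero_add, List.getD_append _ _ _ _ (by omega)]
      rfl
    | succ i =>
      rw [List.getD_append_right _ _ _ _ (by rw [ha, Nat.succ_mul]; omega), ha,
        show (i + 1) * k + j - k = i * k + j by rw [Nat.succ_mul]; omega,
        ih (fun b hb => h b (by simp [hb])) i (by simpa using hi)]
      rfl

theorem mk_length (n : ℕ) (A : ℕ → ℕ → Bool) : (mk n A).length = n * n := by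
  rw [mk, flatMap_length_const _ _ n (by simp), List.length_range]

theorem mk_getD {n : ℕ} (A : ℕ → ℕ → Bool) {i j : ℕ} (hi : i < n) (hj : j < n) :
    (mk n A).getD (i * n + j) false = A i j := by
  rw [mk, flatMap_getD _ _ n (by simp) false 0 i j (by simpa using hi) hj]
  simp [List.getD_eq_getElem?_getD, hi, hj]

theorem mk_congr {n : ℕ} {A B : ℕ → ℕ → Bool} (h : ∀ i < n, ∀ j < n, A i j = B i j) :
    mk n A = mk n B := by
  rw [mk, mk, List.flatMap, List.flatMap]
  have h1 : ∀ i ∈ List.range n, (List.range n).map (fun j => A i j) =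
      (List.range n).map fun j => B i j := by
    intro i hi
    apply List.map_congr_left
    intro j hj
    exact h i (List.mem_range.1 hi) j (List.mem_range.1 hj)
  rw [List.map_congr_left h1]

theorem PF.mk {γ : Type} [ToD γ] {n : γ → ℕ} {A : γ → ℕ → ℕ → Bool} (hn : PF n)
    (hA : PF fun x : (γ × ℕ) × ℕ => A x.1.1 x.1.2 x.2) : PF (fun c => mk (n c) (A c)) := by
  unfold Pool.Agent.W_7e1bc5_h54.mk
  refine PF.flatMap (g := fun (c : γ) (i : ℕ) => (List.range (n c)).map fun j => A c i j) ?_
    hn.range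
  exact PF.map (g := fun (x : γ × ℕ) (j : ℕ) => A x.1 x.2 j) hA (hn.comp PF.fst').range

open Classical in
theorem encG_eq_mk {n : ℕ} (G : SimpleGraph (Fin n)) :
    encG G = mk n fun i j => if h : i < n ∧ j < n then decide (G.Adj ⟨i, h.1⟩ ⟨j, h.2⟩)
      else false := by
  have key : ∀ {β : Type} (f : ℕ → β) (g : Fin n → β) (_ : ∀ i : Fin n, g i = f i),
      (List.finRange n).map g = (List.range n).map f := by
    intro β f g h
    rw [← List.map_coe_finRange_eq_range, List.map_map]
    exact List.map_congr_left fun i _ => h i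
  rw [encG, mk, List.flatMap, List.flatMap]
  congr 1
  apply key
  intro i
  apply key
  intro j
  rw [dif_pos ⟨i.2, j.2⟩]

open Classical in
theorem encG_getD {n : ℕ} (G : SimpleGraph (Fin n)) (i j : Fin n) :
    (encG G).getD (i * n + j) false = decide (G.Adj i j) := by
  rw [encG_eq_mk, mk_getD _ i.2 j.2, dif_pos ⟨i.2, j.2⟩]

theorem encG_length {n : ℕ} (G : SimpleGraph (Fin n)) : (encG G).length = n * n := by
  rw [encG_eq_mk, mk_length]

/-- the graph of a string -/
def gr (n : ℕ) (s : List Bool) : SimpleGraph (Fin n) where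
  Adj i j := i ≠ j ∧ (s.getD (i * n + j) false = true ∨ s.getD (j * n + i) false = true)
  symm := ⟨fun _ _ h => ⟨h.1.symm, h.2.symm⟩⟩
  loopless := ⟨fun _ h => h.1 rfl⟩

/-- the adjacency matrix of the graph of a string -/
def nrmS (n : ℕ) (s : List Bool) : List Bool :=
  mk n fun i j => !decide (i = j) && (s.getD (i * n + j) false || s.getD (j * n + i) false)

theorem encG_gr (n : ℕ) (s : List Bool) : encG (gr n s) = nrmS n s := by
  rw [encG_eq_mk, nrmS]
  refine mk_congr fun i hi j hj => ?_
  rw [dif_pos ⟨hi, hj⟩]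
  simp only [gr, ne_eq, Fin.mk.injEq]
  rw [Bool.eq_iff_iff]
  simp

theorem gr_encG {n : ℕ} (G : SimpleGraph (Fin n)) : gr n (encG G) = G := by
  ext i j
  simp only [gr]
  rw [encG_getD, encG_getD]
  simp only [decide_eq_true_eq]
  constructor
  · rintro ⟨-, h | h⟩
    · exact h
    · exact h.symm
  · intro h
    exact ⟨h.ne, Or.inl h⟩

theorem gr_mk_adj {n : ℕ} (A : ℕ → ℕ → Bool) (i j : Fin n) :
    (gr n (mk n A)).Adj i j ↔ i ≠ j ∧ (A i j = true ∨ A j i = true) := by
  simp only [gr]
  rw [mk_getD A i.2 j.2, mk_getD A j.2 i.2]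

theorem nrmS_encG {n : ℕ} (G : SimpleGraph (Fin n)) : nrmS n (encG G) = encG G := by
  rw [← encG_gr, gr_encG]

theorem PF.nrmS {γ : Type} [ToD γ] {n : γ → ℕ} {s : γ → List Bool} (hn : PF n) (hs : PF s) :
    PF (fun c => nrmS (n c) (s c)) := by
  unfold Pool.Agent.W_7e1bc5_h54.nrmS
  refine PF.mk (A := fun c i j => !decide (i = j) &&
    ((s c).getD (i * n c + j) false || (s c).getD (j * n c + i) false)) hn ?_
  have h1 : PF fun x : (γ × ℕ) × ℕ => x.1.2 := PF.fst'.snd
  have h2 : PF fun x : (γ × ℕ) × ℕ => x.2 := PF.snd'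
  have h3 : PF fun x : (γ × ℕ) × ℕ => n x.1.1 := hn.comp PF.fst'.fst
  have h4 : PF fun x : (γ × ℕ) × ℕ => s x.1.1 := hs.comp PF.fst'.fst
  exact (h1.natEq h2).not.and ((PF.getD h4 ((h1.mul h3).add h2) (PF.const false)).or
    (PF.getD h4 ((h2.mul h3).add h1) (PF.const false)))

end Pool.Agent.W_7e1bc5_h54
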