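import Pool.Agent.W_7e1bc5_h54.SP
import Pool.Agent.W_7e1bc5_h54.Defs
import Pool.Agent.W_d799b0_h54.FEnc

/-! `#P` and the typed version. -/

set_option autoImplicit false
set_option linter.unusedSectionVars false

namespace Pool.Agent.W_7e1bc5_h54

open Finset hiding val
open Pool.Agent.PolyTime
open Pool.Agent.W_d799b0_h82 (Bn val sz_str_le pf_of_verifier)
open Pool.Agent.W_d799b0_h54 (toVerifier)

open Classical in
/-- 1 for isomorphic graphs and 2 for graphs which are not isomorphic. -/
noncomputable def oneTwo {n : ℕ} (G H : SimpleGraph (Fin n)) : ℕ := if Isom G H then 1 else 2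

open Classical in
/-- 1 for isomorphic graphs and 0 for graphs which are not isomorphic. -/
noncomputable def isoInd {n : ℕ} (G H : SimpleGraph (Fin n)) : ℕ := if Isom G H then 1 else 0

theorem ncard_eq_cnt (n : ℕ) (Q : List Bool → Bool) :
    {u : List Bool | u.length = n ∧ Q u = true}.ncard = cnt n Q := by
  have h : {u : List Bool | u.length = n ∧ Q u = true} =
      ((strs n).filter (fun u => Q u = true) : Finset (List Bool)) := by
    ext u
    simp [mem_strs]
  rw [h, Set.ncard_coe_finset, card_filter, cnt]
  refine sum_congr rfl fun u _ => ?_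
  cases Q u <;> simp

theorem InSharpP.toSP {g : List Bool → ℕ} (h : InSharpP g) : SP g := by
  obtain ⟨p, V, hV, hc⟩ := h
  refine ⟨fun x => p.eval x.length, V, PF.evalPoly p PF.id'.length, pf_of_verifier hV,
    fun x => ?_⟩
  rw [hc x, ncard_eq_cnt]

theorem SP.toSharp {g : List Bool → ℕ} (h : SP g) : InSharpP g := by
  obtain ⟨p, V, hp, hV, hc⟩ := h
  obtain ⟨P, hP⟩ := hp.bound
  refine ⟨P.comp (Polynomial.C 4 * Polynomial.X + 1),
    fun x => padV (p x.1) (fun w => V (x.1, w)) x.2, toVerifier ?_, fun x => ?_⟩
  · exact PF.padV (p := fun x : List Bool × List Bool => p x.1)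
      (V := fun y : (List Bool × List Bool) × List Bool => V (y.1.1, y.2)) (hp.comp PF.fst')
      (hV.comp (f := fun y : (List Bool × List Bool) × List Bool => (y.1.1, y.2))
        (PF.fst'.fst.pair PF.snd')) PF.snd'
  · have h1 : p x ≤ (P.comp (Polynomial.C 4 * Polynomial.X + 1)).eval x.length := by
      have h2 := hP x
      rw [sz_nat] at h2
      have h3 := eval_mono P (sz_str_le x)
      simp only [Polynomial.eval_comp, Polynomial.eval_add, Polynomial.eval_mul,
        Polynomial.eval_C, Polynomial.eval_X, Polynomial.eval_one]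
      omega
    rw [hc, ← cnt_pad h1, ← ncard_eq_cnt]

end Pool.Agent.W_7e1bc5_h54
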