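import Pool.Agent.W_7e1bc5_h54.Dec

/-! Sums over graphs and over permutations as sums over strings. -/

set_option autoImplicit false
set_option linter.unusedSectionVars false

namespace Pool.Agent.W_7e1bc5_h54

open Finset hiding val
open Pool.Agent.PolyTime
open Pool.Agent.W_d799b0_h82 (Bn val sz_str_le)

open Classical in
theorem sum_graphs (n : ℕ) (F : List Bool → ℕ) :
    ∑ w ∈ strs (n * n), (if decide (nrmS n w = w) then F w else 0) =
      ∑ H : SimpleGraph (Fin n), F (encG H) := by
  simp only [decide_eq_true_eq]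
  rw [← sum_filter]
  refine sum_nbij' (fun w => gr n w) (fun H => encG H) ?_ ?_ ?_ ?_ ?_
  · intro w _
    exact mem_univ _
  · intro H _
    rw [mem_filter, mem_strs]
    exact ⟨encG_length H, nrmS_encG H⟩
  · intro w hw
    rw [mem_filter] at hw
    rw [encG_gr, hw.2]
  · intro H _
    exact gr_encG H
  · intro w hw
    rw [mem_filter] at hw
    rw [encG_gr, hw.2]

open Classical in
theorem SP.sumGraphs {γ : Type} [ToD γ] {g : γ × List Bool → ℕ} {n : γ → ℕ} (hg : SP g)
    (hn : PF n) : SP (fun c => ∑ H : SimpleGraph (Fin (n c)), g (c, encG H)) := by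
  have h1 : SP (fun x : γ × List Bool =>
      if decide (nrmS (n x.1) x.2 = x.2) then g x else 0) :=
    SP.ite (PF.eqListBool (PF.nrmS (hn.comp PF.fst') PF.snd') PF.snd') hg (SP.const 0)
  refine (SP.sumStrs h1 (hn.mul hn)).congr fun c => ?_
  rw [← sum_graphs (n c) (fun w => g (c, w))]

/-- the permutation matrix -/
def pm {n : ℕ} (σ : Equiv.Perm (Fin n)) : List Bool :=
  mk n fun i j => if h : i < n then decide ((σ ⟨i, h⟩ : ℕ) = j) else false

/-- position of the first one of row `i` -/
def pos (n : ℕ) (w : List Bool) (i : ℕ) : ℕ :=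
  ((List.range n).filter fun j => w.getD (i * n + j) false).headD 0

theorem pf_pos {γ : Type} [ToD γ] {n : γ → ℕ} {w : γ → List Bool} {i : γ → ℕ} (hn : PF n)
    (hw : PF w) (hi : PF i) : PF (fun c => pos (n c) (w c) (i c)) := by
  unfold pos
  refine PF.headD (PF.filter (g := fun (c : γ) (j : ℕ) => (w c).getD (i c * n c + j) false) ?_
    hn.range) (PF.const 0)
  exact PF.getD (hw.comp PF.fst') (((hi.comp PF.fst').mul (hn.comp PF.fst')).add PF.snd')
    (PF.const false)

theorem filter_eq_single (n k : ℕ) (hk : k < n) :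
    (List.range n).filter (fun j => decide (k = j)) = [k] := by
  induction n with
  | zero => omega
  | succ n ih =>
    rw [List.range_succ, List.filter_append]
    by_cases h : k = n
    · subst h
      rw [List.filter_eq_nil_iff.2]
      · simp
      · intro j hj
        have := List.mem_range.1 hj
        simp
        omega
    · rw [ih (by omega)]
      simp [h]

theorem pos_pm {n : ℕ} (σ : Equiv.Perm (Fin n)) (i : Fin n) : pos n (pm σ) i = σ i := by
  rw [pos]
  have h : (List.range n).filter (fun j => (pm σ).getD (i * n + j) false) =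
      (List.range n).filter (fun j => decide ((σ i : ℕ) = j)) := by
    apply List.filter_congr
    intro j hj
    rw [pm, mk_getD _ i.2 (List.mem_range.1 hj), dif_pos i.2]
  rw [h, filter_eq_single n _ (σ i).2]
  rfl

/-- the string is a permutation matrix -/
def isPm (n : ℕ) (w : List Bool) : Bool :=
  decide (w = mk n fun i j => decide (pos n w i = j)) &&
    ((List.range n).all fun i => decide (pos n w i < n)) &&
    (List.range n).all fun i => (List.range n).all fun j =>
      decide (i = j) || !decide (pos n w i = pos n w j)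

theorem pf_isPm {γ : Type} [ToD γ] {n : γ → ℕ} {w : γ → List Bool} (hn : PF n) (hw : PF w) :
    PF (fun c => isPm (n c) (w c)) := by
  unfold isPm
  refine PF.and (PF.and ?_ ?_) ?_
  · refine PF.eqListBool hw (PF.mk (A := fun c i j => decide (pos (n c) (w c) i = j)) hn ?_)
    exact (pf_pos (hn.comp PF.fst'.fst) (hw.comp PF.fst'.fst) PF.fst'.snd).natEq PF.snd'
  · refine PF.all (g := fun (c : γ) (i : ℕ) => decide (pos (n c) (w c) i < n c)) ?_ hn.range
    exact (pf_pos (hn.comp PF.fst') (hw.comp PF.fst') PF.snd').lt (hn.comp PF.fst')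
  · refine PF.all (g := fun (c : γ) (i : ℕ) => (List.range (n c)).all fun j =>
      decide (i = j) || !decide (pos (n c) (w c) i = pos (n c) (w c) j)) ?_ hn.range
    refine PF.all (g := fun (x : γ × ℕ) (j : ℕ) =>
      decide (x.2 = j) || !decide (pos (n x.1) (w x.1) x.2 = pos (n x.1) (w x.1) j)) ?_
      (hn.comp PF.fst').range
    refine PF.or (PF.fst'.snd.natEq PF.snd') (PF.not ?_)
    exact (pf_pos (hn.comp PF.fst'.fst) (hw.comp PF.fst'.fst) PF.fst'.snd).natEq
      (pf_pos (hn.comp PF.fst'.fst) (hw.comp PF.fst'.fst) PF.snd')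

theorem isPm_pm {n : ℕ} (σ : Equiv.Perm (Fin n)) : isPm n (pm σ) = true := by
  rw [isPm, Bool.and_eq_true, Bool.and_eq_true]
  refine ⟨⟨?_, ?_⟩, ?_⟩
  · rw [decide_eq_true_eq]
    conv_lhs => rw [pm]
    refine mk_congr fun i hi j hj => ?_
    rw [dif_pos hi]
    have h := pos_pm σ ⟨i, hi⟩
    dsimp only at h
    rw [h]
  · rw [List.all_eq_true]
    intro i hi
    have h := pos_pm σ ⟨i, List.mem_range.1 hi⟩
    dsimp only at h
    rw [decide_eq_true_eq, h]
    exact (σ _).2
  · rw [List.all_eq_true]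
    intro i hi
    rw [List.all_eq_true]
    intro j hj
    have h := pos_pm σ ⟨i, List.mem_range.1 hi⟩
    have h' := pos_pm σ ⟨j, List.mem_range.1 hj⟩
    dsimp only at h h'
    rw [h, h', Bool.or_eq_true, decide_eq_true_eq, Bool.not_eq_true', decide_eq_false_iff_not]
    by_cases hij : i = j
    · exact Or.inl hij
    · right
      intro h2
      have h3 := σ.injective (Fin.ext h2)
      exact hij (Fin.mk.inj h3)

theorem isPm_spec {n : ℕ} {w : List Bool} (h : isPm n w = true) :
    ∃ σ : Equiv.Perm (Fin n), w = pm σ := by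
  rw [isPm, Bool.and_eq_true, Bool.and_eq_true, decide_eq_true_eq, List.all_eq_true,
    List.all_eq_true] at h
  obtain ⟨⟨h1, h2⟩, h3⟩ := h
  have h2' : ∀ i : Fin n, pos n w i < n := by
    intro i
    have := h2 i (List.mem_range.2 i.2)
    simpa using this
  have hinj : Function.Injective (fun i : Fin n => (⟨pos n w i, h2' i⟩ : Fin n)) := by
    intro i j hij
    have h4 := h3 i (List.mem_range.2 i.2)
    rw [List.all_eq_true] at h4
    have h5 := h4 j (List.mem_range.2 j.2)
    rw [Bool.or_eq_true, decide_eq_true_eq, Bool.not_eq_true', decide_eq_false_iff_not] at h5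
    rcases h5 with h5 | h5
    · exact Fin.ext h5
    · exact absurd (Fin.mk.inj hij) h5
  refine ⟨Equiv.ofBijective _ (Finite.injective_iff_bijective.1 hinj), ?_⟩
  conv_lhs => rw [h1]
  rw [pm]
  refine mk_congr fun i hi j hj => ?_
  rw [dif_pos hi]
  rfl

theorem pm_injective {n : ℕ} : Function.Injective (pm (n := n)) := by
  intro σ τ h
  ext i
  rw [← pos_pm σ i, ← pos_pm τ i, h]

theorem sum_perms (n : ℕ) (F : List Bool → ℕ) :
    ∑ w ∈ strs (n * n), (if isPm n w then F w else 0) =
      ∑ σ : Equiv.Perm (Fin n), F (pm σ) := by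
  rw [← sum_filter]
  symm
  refine sum_nbij (fun σ => pm σ) ?_ ?_ ?_ ?_
  · intro σ _
    rw [mem_filter, mem_strs]
    exact ⟨mk_length _ _, isPm_pm σ⟩
  · exact pm_injective.injOn
  · intro w hw
    rw [mem_coe, mem_filter] at hw
    obtain ⟨σ, rfl⟩ := isPm_spec hw.2
    exact ⟨σ, by simp, rfl⟩
  · intro σ _
    rfl

theorem SP.sumPerms {γ : Type} [ToD γ] {g : γ × List Bool → ℕ} {n : γ → ℕ} (hg : SP g)
    (hn : PF n) : SP (fun c => ∑ σ : Equiv.Perm (Fin (n c)), g (c, pm σ)) := by
  have h1 : SP (fun x : γ × List Bool => if isPm (n x.1) x.2 then g x else 0) :=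
    SP.ite (pf_isPm (hn.comp PF.fst') PF.snd') hg (SP.const 0)
  refine (SP.sumStrs h1 (hn.mul hn)).congr fun c => ?_
  rw [← sum_perms (n c) (fun w => g (c, w))]

/-- the number of isomorphisms -/
noncomputable def isos {n : ℕ} (G H : SimpleGraph (Fin n)) : ℕ := by
  classical
  exact (univ.filter fun σ : Equiv.Perm (Fin n) =>
    ∀ i j, H.Adj (σ i) (σ j) ↔ G.Adj i j).card

open Classical in
theorem isos_eq {n : ℕ} (G H : SimpleGraph (Fin n)) :
    isos G H = ∑ σ : Equiv.Perm (Fin n), (decide (encG G = mk n fun i j =>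
      (encG H).getD (pos n (pm σ) i * n + pos n (pm σ) j) false)).toNat := by
  rw [isos, card_filter]
  refine sum_congr rfl fun σ _ => ?_
  have h : (∀ i j, H.Adj (σ i) (σ j) ↔ G.Adj i j) ↔ encG G = mk n fun i j =>
      (encG H).getD (pos n (pm σ) i * n + pos n (pm σ) j) false := by
    constructor
    · intro h
      rw [encG_eq_mk G]
      refine mk_congr fun i hi j hj => ?_
      rw [dif_pos ⟨hi, hj⟩]
      have h1 := pos_pm σ ⟨i, hi⟩
      have h2 := pos_pm σ ⟨j, hj⟩
      dsimp only at h1 h2
      rw [h1, h2, encG_getD, decide_eq_decide]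
      exact (h _ _).symm
    · intro h i j
      have h1 : (encG G).getD (i * n + j) false =
          (encG H).getD (pos n (pm σ) i * n + pos n (pm σ) j) false := by
        conv_lhs => rw [h]
        rw [mk_getD _ i.2 j.2]
      rw [pos_pm, pos_pm, encG_getD, encG_getD, decide_eq_decide] at h1
      exact h1.symm
  by_cases h' : ∀ i j, H.Adj (σ i) (σ j) ↔ G.Adj i j
  · rw [if_pos h', decide_eq_true (h.1 h')]
    rfl
  · rw [if_neg h', decide_eq_false (fun h2 => h' (h.2 h2))]
    rfl

theorem SP.isos {γ : Type} [ToD γ] {n : γ → ℕ} {s t : γ → List Bool} (hn : PF n) (hs : PF s)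
    (ht : PF t) : SP (fun c => isos (gr (n c) (s c)) (gr (n c) (t c))) := by
  have h1 : SP (fun x : γ × List Bool => (decide (nrmS (n x.1) (s x.1) = mk (n x.1) fun i j =>
      (nrmS (n x.1) (t x.1)).getD (pos (n x.1) x.2 i * n x.1 + pos (n x.1) x.2 j) false)).toNat) := by
    refine SP.ofBool (PF.eqListBool (PF.nrmS (hn.comp PF.fst') (hs.comp PF.fst')) ?_)
    refine PF.mk (A := fun (x : γ × List Bool) i j => (nrmS (n x.1) (t x.1)).getD
      (pos (n x.1) x.2 i * n x.1 + pos (n x.1) x.2 j) false) (hn.comp PF.fst') ?_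
    have hn' : PF fun y : ((γ × List Bool) × ℕ) × ℕ => n y.1.1.1 := hn.comp PF.fst'.fst.fst
    refine PF.getD (PF.nrmS hn' (ht.comp PF.fst'.fst.fst)) ?_ (PF.const false)
    exact ((pf_pos hn' PF.fst'.fst.snd PF.fst'.snd).mul hn').add
      (pf_pos hn' PF.fst'.fst.snd PF.snd')
  refine (SP.sumPerms h1 hn).congr fun c => ?_
  rw [isos_eq, encG_gr, encG_gr]

end Pool.Agent.W_7e1bc5_h54
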