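import Pool.Agent.W_7e1bc5_h54.Strs
import Pool.Agent.W_d799b0_h54.ZDiv
import Pool.Agent.W_d799b0_h54.ZSum
import Pool.Agent.W_d799b0_h82.Size
import Pool.Agent.W_d799b0_h82.PNat

/-! `#P` functions on typed domains, closure properties. -/

set_option autoImplicit false
set_option linter.unusedSectionVars false

namespace Pool.Agent.W_7e1bc5_h54

open Finset hiding val
open Pool.Agent.PolyTime
open Pool.Agent.W_d799b0_h82 (Bn val sz_str_le)

/-- number of strings of length `n` with the property `Q` -/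
def cnt (n : ℕ) (Q : List Bool → Bool) : ℕ := ∑ u ∈ strs n, (Q u).toNat

/-- pad a predicate -/
def padV (a : ℕ) (Q : List Bool → Bool) (u : List Bool) : Bool :=
  Q (u.take a) && (u.drop a).all (fun b => !b)

theorem cnt_pad {a b : ℕ} (hab : a ≤ b) (Q : List Bool → Bool) : cnt b (padV a Q) = cnt a Q :=
  sum_strs_pad a b hab Q

variable {γ α : Type} [ToD γ] [ToD α]

/-- `#P` functions on a typed domain -/
def SP (g : γ → ℕ) : Prop :=
  ∃ (p : γ → ℕ) (V : γ × List Bool → Bool), PF p ∧ PF V ∧ ∀ c, g c = cnt (p c) (fun u => V (c, u))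

theorem SP.congr {g h : γ → ℕ} (hg : SP g) (e : ∀ c, h c = g c) : SP h := by
  obtain ⟨p, V, hp, hV, hc⟩ := hg
  exact ⟨p, V, hp, hV, fun c => by rw [e, hc]⟩

theorem SP.comp {g : α → ℕ} {f : γ → α} (hg : SP g) (hf : PF f) : SP (fun c => g (f c)) := by
  obtain ⟨p, V, hp, hV, hc⟩ := hg
  refine ⟨fun c => p (f c), fun x => V (f x.1, x.2), hp.comp hf, ?_, fun c => hc (f c)⟩
  exact hV.comp (f := fun x : γ × List Bool => (f x.1, x.2)) ((hf.comp PF.fst').pair PF.snd')

theorem toNat_and (a b : Bool) : (a && b).toNat = a.toNat * b.toNat := by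
  cases a <;> cases b <;> rfl

theorem PF.padV {p : γ → ℕ} {V : γ × List Bool → Bool} {u : γ → List Bool} (hp : PF p) (hV : PF V)
    (hu : PF u) : PF (fun c => padV (p c) (fun w => V (c, w)) (u c)) := by
  unfold Pool.Agent.W_7e1bc5_h54.padV
  refine PF.and ?_ ?_
  · exact hV.comp (PF.id'.pair (PF.take hp hu))
  · exact PF.all (g := fun (_ : γ) (b : Bool) => !b) PF.id'.snd.not (PF.drop hp hu)

theorem SP.mul {g h : γ → ℕ} (hg : SP g) (hh : SP h) : SP (fun c => g c * h c) := by
  obtain ⟨p, V, hp, hV, hc⟩ := hg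
  obtain ⟨q, W, hq, hW, hd⟩ := hh
  refine ⟨fun c => p c + q c,
    fun x => V (x.1, x.2.take (p x.1)) && W (x.1, x.2.drop (p x.1)), hp.add hq, ?_, fun c => ?_⟩
  · refine PF.and ?_ ?_
    · exact hV.comp (f := fun x : γ × List Bool => (x.1, x.2.take (p x.1)))
        (PF.fst'.pair (PF.take (hp.comp PF.fst') PF.snd'))
    · exact hW.comp (f := fun x : γ × List Bool => (x.1, x.2.drop (p x.1)))
        (PF.fst'.pair (PF.drop (hp.comp PF.fst') PF.snd'))
  · dsimp only
    rw [hc, hd, cnt, cnt, cnt, ← sum_strs_mul]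
    exact sum_congr rfl fun u _ => (toNat_and _ _).symm

theorem SP.add {g h : γ → ℕ} (hg : SP g) (hh : SP h) : SP (fun c => g c + h c) := by
  obtain ⟨p, V, hp, hV, hc⟩ := hg
  obtain ⟨q, W, hq, hW, hd⟩ := hh
  refine ⟨fun c => p c + q c + 1,
    fun x => if x.2.headD false then padV (p x.1) (fun w => V (x.1, w)) x.2.tail
      else padV (q x.1) (fun w => W (x.1, w)) x.2.tail, (hp.add hq).succ, ?_, fun c => ?_⟩
  · refine PF.ite (PF.headD PF.snd' (PF.const false)) ?_ ?_
    · exact PF.padV (p := fun x : γ × List Bool => p x.1)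
        (V := fun x : (γ × List Bool) × List Bool => V (x.1.1, x.2)) (hp.comp PF.fst')
        (hV.comp (f := fun x : (γ × List Bool) × List Bool => (x.1.1, x.2))
          (PF.fst'.fst.pair PF.snd')) PF.snd'.tail
    · exact PF.padV (p := fun x : γ × List Bool => q x.1)
        (V := fun x : (γ × List Bool) × List Bool => W (x.1.1, x.2)) (hq.comp PF.fst')
        (hW.comp (f := fun x : (γ × List Bool) × List Bool => (x.1.1, x.2))
          (PF.fst'.fst.pair PF.snd')) PF.snd'.tail
  · dsimp only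
    rw [hc, hd, cnt.eq_def (p c + q c + 1), sum_strs_succ]
    simp only [List.headD_cons, List.tail_cons, if_true, Bool.false_eq_true, if_false]
    rw [← cnt_pad (show p c ≤ p c + q c by omega), ← cnt_pad (show q c ≤ p c + q c by omega)]
    rfl

/-- a sum over a range as a sum over strings -/
theorem sum_val (G : ℕ → ℕ) : ∀ (L m : ℕ), m ≤ 2 ^ L →
    ∑ u ∈ strs L, (if val u < m then G (val u) else 0) = ∑ i ∈ range m, G i := by
  intro L
  induction L generalizing G with
  | zero =>
    intro m hm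
    rw [pow_zero] at hm
    interval_cases m <;> simp [strs, val]
  | succ L ih =>
    intro m hm
    rw [pow_succ] at hm
    rw [sum_strs_succ]
    simp only [val, Bool.toNat_true, Bool.toNat_false]
    have e1 := ih (fun i => G (1 + 2 * i)) (m / 2) (by omega)
    have e2 := ih (fun i => G (0 + 2 * i)) ((m + 1) / 2) (by omega)
    have e3 : ∀ v : ℕ, (1 + 2 * v < m) ↔ v < m / 2 := by intro v; omega
    have e4 : ∀ v : ℕ, (0 + 2 * v < m) ↔ v < (m + 1) / 2 := by intro v; omega
    simp only [e3, e4]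
    rw [e1, e2]
    clear e1 e2 e3 e4 hm
    induction m with
    | zero => simp
    | succ m ihm =>
      rw [sum_range_succ, ← ihm]
      rcases Nat.even_or_odd' m with ⟨k, rfl | rfl⟩
      · rw [show (2 * k + 1) / 2 = k by omega, show 2 * k / 2 = k by omega,
          show (2 * k + 1 + 1) / 2 = k + 1 by omega, sum_range_succ (fun i => G (0 + 2 * i))]
        rw [zero_add]
        ring
      · rw [show (2 * k + 1 + 1) / 2 = k + 1 by omega, show (2 * k + 1) / 2 = k by omega,
          show (2 * k + 1 + 1 + 1) / 2 = k + 1 by omega, sum_range_succ (fun i => G (1 + 2 * i)),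
          show 1 + 2 * k = 2 * k + 1 by ring]
        ring

theorem SP.ofPN {g : γ → ℕ} (hg : PN g) : SP g := by
  refine ⟨fun c => Nat.size (g c), fun x => decide (val x.2 < g x.1), hg.size, ?_, fun c => ?_⟩
  · exact PN.lt (PN.val PF.snd') (PN.comp hg PF.fst')
  · rw [cnt]
    have h := sum_val (fun _ => 1) (Nat.size (g c)) (g c) (Nat.lt_size_self _).le
    rw [sum_const, card_range, smul_eq_mul, mul_one] at h
    conv_lhs => rw [← h]
    refine sum_congr rfl fun u _ => ?_
    by_cases h : val u < g c <;> simp [h]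

theorem SP.const (k : ℕ) : SP (fun _ : γ => k) := SP.ofPN (PN.const k)

theorem SP.ofBool {p : γ → Bool} (hp : PF p) : SP (fun c => (p c).toNat) :=
  SP.ofPN (PN.ofBool hp)

theorem SP.ite {p : γ → Bool} {g h : γ → ℕ} (hp : PF p) (hg : SP g) (hh : SP h) :
    SP (fun c => if p c then g c else h c) := by
  refine (((SP.ofBool hp).mul hg).add ((SP.ofBool hp.not).mul hh)).congr fun c => ?_
  cases p c <;> simp

theorem SP.mulPN {g h : γ → ℕ} (hg : PN g) (hh : SP h) : SP (fun c => g c * h c) :=
  (SP.ofPN hg).mul hh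

/-- a uniform bound for the length of certificates -/
theorem bound_pair {β : Type} [ToD β] {p : γ × β → ℕ} (hp : PF p) {q : γ → ℕ} (hq : PF q) :
    ∃ B : γ → ℕ, PF B ∧ ∀ c b, sz b ≤ q c → p (c, b) ≤ B c := by
  obtain ⟨P, hP⟩ := hp.bound
  refine ⟨fun c => P.eval ((en c).length + q c + 1), ?_, fun c b hb => ?_⟩
  · exact PF.evalPoly P (((PF.enc PF.id').length.add hq).succ)
  · have h1 := hP (c, b)
    rw [sz_nat, sz_pair] at h1
    have h2 := eval_mono P (show sz c + sz b + 1 ≤ (en c).length + q c + 1 by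
      rw [sz_eq_en]
      omega)
    dsimp only
    omega

theorem SP.sumStrs {g : γ × List Bool → ℕ} {q : γ → ℕ} (hg : SP g) (hq : PF q) :
    SP (fun c => ∑ w ∈ strs (q c), g (c, w)) := by
  obtain ⟨p, V, hp, hV, hc⟩ := hg
  obtain ⟨B, hB, hBb⟩ := bound_pair hp (((PF.const 4).mul hq).succ : PF fun c : γ => 4 * q c + 1)
  refine ⟨fun c => q c + B c, fun x => padV (p (x.1, x.2.take (q x.1)))
    (fun w => V ((x.1, x.2.take (q x.1)), w)) (x.2.drop (q x.1)), hq.add hB, ?_, fun c => ?_⟩
  · have h1 : PF (fun x : γ × List Bool => (x.1, x.2.take (q x.1))) :=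
      PF.fst'.pair (PF.take (hq.comp PF.fst') PF.snd')
    refine PF.padV (p := fun x : γ × List Bool => p (x.1, x.2.take (q x.1)))
      (V := fun y : (γ × List Bool) × List Bool => V ((y.1.1, y.1.2.take (q y.1.1)), y.2))
      (hp.comp h1) ?_ (PF.drop (hq.comp PF.fst') PF.snd')
    exact hV.comp (f := fun y : (γ × List Bool) × List Bool =>
      ((y.1.1, y.1.2.take (q y.1.1)), y.2)) ((h1.comp PF.fst').pair PF.snd')
  · rw [cnt, sum_strs_add]
    refine sum_congr rfl fun w hw => ?_
    rw [mem_strs] at hw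
    have h1 : p (c, w) ≤ B c := hBb c w (by
      have := sz_str_le w
      rw [hw] at this
      omega)
    rw [hc, ← cnt_pad h1]
    refine sum_congr rfl fun v hv => ?_
    dsimp only
    rw [← hw, List.take_left, List.drop_left]

theorem toNat_all_range (n : ℕ) (F : ℕ → Bool) :
    ((List.range n).all F).toNat = ∏ i ∈ range n, (F i).toNat := by
  induction n with
  | zero => rfl
  | succ n ih =>
    rw [List.range_succ, List.all_append, toNat_and, ih, prod_range_succ]
    simp

theorem SP.prodRange {g : γ × ℕ → ℕ} {n : γ → ℕ} (hg : SP g) (hn : PF n) :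
    SP (fun c => ∏ i ∈ range (n c), g (c, i)) := by
  obtain ⟨p, V, hp, hV, hc⟩ := hg
  obtain ⟨B, hB, hBb⟩ := bound_pair hp (((PF.const 2).mul hn).succ : PF fun c : γ => 2 * n c + 1)
  refine ⟨fun c => n c * B c, fun x => (List.range (n x.1)).all fun i =>
    padV (p (x.1, i)) (fun w => V ((x.1, i), w)) (blk (B x.1) i x.2), hn.mul hB, ?_, fun c => ?_⟩
  · refine PF.all (g := fun (x : γ × List Bool) (i : ℕ) =>
      padV (p (x.1, i)) (fun w => V ((x.1, i), w)) (blk (B x.1) i x.2)) ?_
      (hn.comp PF.fst').range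
    have h1 : PF (fun y : (γ × List Bool) × ℕ => (y.1.1, y.2)) := PF.fst'.fst.pair PF.snd'
    refine PF.padV (p := fun y : (γ × List Bool) × ℕ => p (y.1.1, y.2))
      (V := fun z : ((γ × List Bool) × ℕ) × List Bool => V ((z.1.1.1, z.1.2), z.2))
      (hp.comp h1) ?_ ?_
    · exact hV.comp (f := fun z : ((γ × List Bool) × ℕ) × List Bool =>
        ((z.1.1.1, z.1.2), z.2)) ((h1.comp PF.fst').pair PF.snd')
    · unfold blk
      exact PF.take (hB.comp PF.fst'.fst) (PF.drop (PF.snd'.mul (hB.comp PF.fst'.fst))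
        PF.fst'.snd)
  · dsimp only
    rw [cnt]
    have h1 := sum_strs_prod (B c) (n c)
      (fun i v => (padV (p (c, i)) (fun w => V ((c, i), w)) v).toNat)
    rw [prod_congr rfl (fun i hi => hc (c, i))]
    rw [prod_congr rfl (fun i hi => (cnt_pad (hBb c i (by
      rw [mem_range] at hi
      rw [sz_nat]
      omega)) _).symm)]
    unfold cnt
    rw [← h1]
    exact sum_congr rfl fun u _ => (toNat_all_range _ _).symm

theorem SP.powU {g : γ → ℕ} {n : γ → ℕ} (hg : SP g) (hn : PF n) : SP (fun c => g c ^ n c) :=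
  (SP.prodRange (g := fun x : γ × ℕ => g x.1) (hg.comp PF.fst') hn).congr fun c => by
    dsimp only
    rw [prod_const, card_range]

theorem SP.sumRange {g : γ × ℕ → ℕ} {n : γ → ℕ} (hg : SP g) (hn : PF n) :
    SP (fun c => ∑ i ∈ range (n c), g (c, i)) := by
  have h1 : PF (fun x : γ × List Bool => min (n x.1) (val x.2)) :=
    PN.toMin (PN.val PF.snd') (hn.comp PF.fst')
  have h2 : SP (fun x : γ × List Bool =>
      if decide (val x.2 < n x.1) then g (x.1, min (n x.1) (val x.2)) else 0) :=
    SP.ite (PN.lt (PN.val PF.snd') (PN.comp (PN.ofNat hn) PF.fst'))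
      (hg.comp (f := fun x : γ × List Bool => (x.1, min (n x.1) (val x.2))) (PF.fst'.pair h1))
      (SP.const 0)
  refine (SP.sumStrs h2 hn).congr fun c => ?_
  rw [← sum_val (fun i => g (c, i)) (n c) (n c) Nat.lt_two_pow_self.le]
  refine sum_congr rfl fun u _ => ?_
  dsimp only
  by_cases h : val u < n c
  · rw [if_pos h, if_pos (by simpa using h), min_eq_right h.le]
  · rw [if_neg h, if_neg (by simpa using h)]

end Pool.Agent.W_7e1bc5_h54
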