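import Pool.Agent.W_7e1bc5_h54.Gen

/-! Functions with two values far apart. -/

set_option autoImplicit false
set_option linter.unusedSectionVars false

namespace Pool.Agent.W_7e1bc5_h54

open Finset hiding val
open Pool.Agent.PolyTime
open Pool.Agent.W_d799b0_h82 (Bn val sz_str_le pf_mod)

variable {fac : Prop}

theorem far_le (K : ℕ) : K * 2 ^ K * (K + 1).factorial ≤ 2 ^ ((K + 1) * (K + 2)) := by
  have h1 : K ≤ 2 ^ K := Nat.lt_two_pow_self.le
  have h2 : (K + 1).factorial ≤ 2 ^ (K * (K + 1)) := by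
    calc (K + 1).factorial ≤ (K + 1) ^ (K + 1) := Nat.factorial_le_pow _
      _ ≤ (2 ^ K) ^ (K + 1) := Nat.pow_le_pow_left Nat.lt_two_pow_self _
      _ = _ := (pow_mul _ _ _).symm
  calc K * 2 ^ K * (K + 1).factorial ≤ 2 ^ K * 2 ^ K * 2 ^ (K * (K + 1)) :=
        Nat.mul_le_mul (Nat.mul_le_mul_right _ h1) h2
    _ = 2 ^ (K + K + K * (K + 1)) := by rw [pow_add, pow_add]
    _ ≤ _ := Nat.pow_le_pow_right (by norm_num) (by nlinarith)

theorem two_pow_ratio {r A B : ℕ} (hr : 0 < r) (h : (r + 1) * A ≤ r * B) :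
    2 * A ^ r ≤ B ^ r := by
  have h1 : 2 * r ^ r ≤ (r + 1) ^ r := by
    have hr' : (0 : ℚ) < r := by exact_mod_cast hr
    have h2 := one_add_mul_le_pow (show (-2 : ℚ) ≤ 1 / r by
      have : (0 : ℚ) ≤ 1 / r := by positivity
      linarith) r
    have h3 : (2 : ℚ) ≤ (1 + 1 / r) ^ r := by
      have : (r : ℚ) * (1 / r) = 1 := by field_simp
      rw [this] at h2
      linarith
    have h4 : (2 : ℚ) * r ^ r ≤ (r + 1) ^ r := by
      calc (2 : ℚ) * r ^ r ≤ (1 + 1 / r) ^ r * r ^ r :=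
            mul_le_mul_of_nonneg_right h3 (by positivity)
        _ = ((1 + 1 / r) * r) ^ r := (mul_pow _ _ _).symm
        _ = _ := by
          congr 1
          field_simp
    exact_mod_cast h4
  have h2 : (r + 1) ^ r * A ^ r ≤ r ^ r * B ^ r := by
    rw [← mul_pow, ← mul_pow]
    exact Nat.pow_le_pow_left h r
  have h3 : r ^ r * (2 * A ^ r) ≤ r ^ r * B ^ r := by
    calc r ^ r * (2 * A ^ r) = 2 * r ^ r * A ^ r := by ring
      _ ≤ (r + 1) ^ r * A ^ r := Nat.mul_le_mul_right _ h1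
      _ ≤ _ := h2
  exact Nat.le_of_mul_le_mul_left h3 (pow_pos hr r)

open Classical in
theorem Sep.ofRatio {A B r : ℕ → ℕ} (hA : PN A) (hB : Mul fac B)
    (hBA : Mul fac fun n => B n - A n) (hr : PF r)
    (hAB : ∀ n, (r n + 1) * A n ≤ r n * B n)
    (h : SP (fun c : ℕ × (List Bool × List Bool) =>
      if Isom (gr c.1 c.2.1) (gr c.1 c.2.2) then A c.1 else B c.1)) : Sep fac := by
  have hlt0 : ∀ n, A n < B n := by
    intro n
    have := hBA.2.1 n
    dsimp only at this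
    omega
  have hAB' : ∀ n, (r n + 1 + 1) * A n ≤ (r n + 1) * B n := by
    intro n
    have h1 := hAB n
    have h2 := (hlt0 n).le
    nlinarith
  have key : ∀ K n, (r n + 1) * 2 ^ ((K + 1) * (K + 2)) *
      A n ^ ((r n + 1) * ((K + 1) * (K + 2) + (r n + 1))) ≤
      B n ^ ((r n + 1) * ((K + 1) * (K + 2) + (r n + 1))) := by
    intro K n
    have h1 : (r n + 1) * 2 ^ ((K + 1) * (K + 2)) ≤ 2 ^ ((K + 1) * (K + 2) + (r n + 1)) := by
      rw [pow_add, mul_comm]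
      exact Nat.mul_le_mul_left _ Nat.lt_two_pow_self.le
    refine (Nat.mul_le_mul_right _ h1).trans ?_
    rw [pow_mul (A n), pow_mul (B n), ← mul_pow]
    exact Nat.pow_le_pow_left (two_pow_ratio (Nat.succ_pos _) (hAB' n)) _
  have hK : PF (fun x : ℕ × (ℕ × (List Bool × List Bool)) =>
      (r x.2.1 + 1) * ((x.1 + 1) * (x.1 + 2) + (r x.2.1 + 1))) :=
    (hr.comp PF.snd'.fst).succ.mul ((PF.fst'.succ.mul (PF.fst'.add (PF.const 2))).add
      (hr.comp PF.snd'.fst).succ)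
  have hτ : PF (fun x : ℕ × ℕ => (r x.2 + 1) * ((x.1 + 1) * (x.1 + 2) + (r x.2 + 1))) :=
    (hr.comp PF.snd').succ.mul ((PF.fst'.succ.mul (PF.fst'.add (PF.const 2))).add
      (hr.comp PF.snd').succ)
  refine ⟨fun x => A x.2 ^ ((r x.2 + 1) * ((x.1 + 1) * (x.1 + 2) + (r x.2 + 1))) * B x.2,
    fun x => (B x.2 - A x.2) * B x.2 ^ ((r x.2 + 1) * ((x.1 + 1) * (x.1 + 2) + (r x.2 + 1))) +
      A x.2 ^ ((r x.2 + 1) * ((x.1 + 1) * (x.1 + 2) + (r x.2 + 1))) * B x.2,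
    fun x => (B x.2.1 - A x.2.1) *
      (if Isom (gr x.2.1 x.2.2.1) (gr x.2.1 x.2.2.2) then A x.2.1 else B x.2.1) ^
      ((r x.2.1 + 1) * ((x.1 + 1) * (x.1 + 2) + (r x.2.1 + 1))) +
      A x.2.1 ^ ((r x.2.1 + 1) * ((x.1 + 1) * (x.1 + 2) + (r x.2.1 + 1))) *
      (if Isom (gr x.2.1 x.2.2.1) (gr x.2.1 x.2.2.2) then A x.2.1 else B x.2.1),
    ?_, ?_, ?_, ?_, ?_, ?_, ?_, ?_⟩
  · exact (PN.powU (PN.comp hA PF.snd') hτ).mul (PN.comp hB.1 PF.snd')
  · exact (((PN.comp hB.1 PF.snd').sub (PN.comp hA PF.snd')).mul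
      (PN.powU (PN.comp hB.1 PF.snd') hτ)).add
      ((PN.powU (PN.comp hA PF.snd') hτ).mul (PN.comp hB.1 PF.snd'))
  · intro c
    have h1 : 0 < (B c.2 - A c.2) *
        B c.2 ^ ((r c.2 + 1) * ((c.1 + 1) * (c.1 + 2) + (r c.2 + 1))) :=
      Nat.mul_pos (hBA.2.1 c.2) (pow_pos (hB.2.1 c.2) _)
    exact h1.trans_le (Nat.le_add_right _ _)
  · intro c
    exact Nat.le_add_left _ _
  · intro K n
    refine le_trans ?_ (Nat.le_add_right _ _)
    dsimp only
    generalize hT : (r n + 1) * ((K + 1) * (K + 2) + (r n + 1)) = T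
    have h1 := key K n
    rw [hT] at h1
    have h2 : B n ≤ (r n + 1) * (B n - A n) := by
      have h3 := hAB n
      obtain ⟨d, hd⟩ := Nat.exists_eq_add_of_lt (hlt0 n)
      rw [hd, show A n + d + 1 - A n = d + 1 by omega]
      rw [hd] at h3
      nlinarith
    calc A n ^ T * B n * K * 2 ^ K * (K + 1).factorial =
        B n * ((K * 2 ^ K * (K + 1).factorial) * A n ^ T) := by ring
      _ ≤ (r n + 1) * (B n - A n) * (2 ^ ((K + 1) * (K + 2)) * A n ^ T) :=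
        Nat.mul_le_mul h2 (Nat.mul_le_mul_right _ (far_le K))
      _ = (B n - A n) * ((r n + 1) * 2 ^ ((K + 1) * (K + 2)) * A n ^ T) := by ring
      _ ≤ _ := Nat.mul_le_mul_left _ h1
  · have h1 : Mul fac (fun x : ℕ × ℕ => (B x.2 - A x.2) *
        B x.2 ^ ((r x.2 + 1) * ((x.1 + 1) * (x.1 + 2) + (r x.2 + 1)))) :=
      Mul.mul (hBA.comp (f := fun x : ℕ × ℕ => x.2) PF.snd')
        (Mul.powU (hB.comp (f := fun x : ℕ × ℕ => x.2) PF.snd') hτ)
    exact h1.congr fun c => Nat.add_sub_cancel _ _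
  · have h1 : SP (fun x : ℕ × (ℕ × (List Bool × List Bool)) =>
        if Isom (gr x.2.1 x.2.2.1) (gr x.2.1 x.2.2.2) then A x.2.1 else B x.2.1) :=
      h.comp (f := fun x : ℕ × (ℕ × (List Bool × List Bool)) => x.2) PF.snd'
    refine (SP.mulPN ((PN.comp hB.1 PF.snd'.fst).sub (PN.comp hA PF.snd'.fst))
      (SP.powU h1 hK)).add (SP.mulPN (PN.powU (PN.comp hA PF.snd'.fst) hK) h1)
  · intro K n s t
    dsimp only
    generalize (r n + 1) * ((K + 1) * (K + 2) + (r n + 1)) = T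
    split_ifs
    · obtain ⟨d, hd⟩ := Nat.exists_eq_add_of_lt (hlt0 n)
      rw [hd, show A n + d + 1 - A n = d + 1 by omega]
      ring
    · rfl

/-! ### arbitrary values -/

open Classical in
theorem anyValues {M₁ M₂ : ℕ → ℕ} (hM₁ : Mul fac M₁) (hM₂ : Mul fac M₂)
    (h₁ : SP (fun c : ℕ × (List Bool × List Bool) =>
      M₁ c.1 * oneTwo (gr c.1 c.2.1) (gr c.1 c.2.2)))
    (h₂ : SP (fun c : ℕ × (List Bool × List Bool) =>
      M₂ c.1 * isoInd (gr c.1 c.2.1) (gr c.1 c.2.2))) {A B : ℕ → ℕ} (hA : PN A) (hB : PN B)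
    (hA0 : ∀ n, 0 < A n) : ∃ M : ℕ → ℕ, Mul fac M ∧
      SP (fun c : ℕ × (List Bool × List Bool) =>
        M c.1 * if Isom (gr c.1 c.2.1) (gr c.1 c.2.2) then A c.1 else B c.1) := by
  have hn : PF (fun c : ℕ × (List Bool × List Bool) => c.1) := PF.fst'
  have hsz : PF (fun n : ℕ => Nat.size (B n)) := hB.size
  refine ⟨fun n => (2 * M₁ n) ^ Nat.size (B n) * M₂ n,
    (Mul.powU ((Mul.const 2 (by norm_num)).mul hM₁) hsz).mul hM₂, ?_⟩
  have h3 : SP (fun c : ℕ × (List Bool × List Bool) =>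
      (B c.1 * M₂ c.1) * (M₁ c.1 * oneTwo (gr c.1 c.2.1) (gr c.1 c.2.2)) ^ Nat.size (B c.1)) :=
    SP.mulPN ((PN.comp hB hn).mul (PN.comp hM₂.1 hn)) (SP.powU h₁ (hsz.comp hn))
  have h4 : SP (fun c : ℕ × (List Bool × List Bool) =>
      ((2 ^ Nat.size (B c.1) * A c.1 - B c.1) * M₁ c.1 ^ Nat.size (B c.1)) *
        (M₂ c.1 * isoInd (gr c.1 c.2.1) (gr c.1 c.2.2))) := by
    refine SP.mulPN ?_ h₂
    exact (((PN.powU (PN.const 2) (hsz.comp hn)).mul (PN.comp hA hn)).sub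
      (PN.comp hB hn)).mul (PN.powU (PN.comp hM₁.1 hn) (hsz.comp hn))
  refine (h3.add h4).congr fun c => ?_
  obtain ⟨n, s, t⟩ := c
  dsimp only
  have h5 : B n ≤ 2 ^ Nat.size (B n) * A n := by
    have := (Nat.lt_size_self (B n)).le
    exact this.trans (Nat.le_mul_of_pos_right _ (hA0 n))
  obtain ⟨d, hd⟩ := Nat.exists_eq_add_of_le h5
  rw [hd, Nat.add_sub_cancel_left, oneTwo, isoInd]
  split_ifs with hI
  · rw [mul_one, mul_one, mul_pow]
    calc 2 ^ Nat.size (B n) * M₁ n ^ Nat.size (B n) * M₂ n * A n =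
        (2 ^ Nat.size (B n) * A n) * M₁ n ^ Nat.size (B n) * M₂ n := by ring
      _ = _ := by rw [hd]; ring
  · rw [mul_zero, mul_zero, add_zero, mul_comm 2 (M₁ n)]
    ring

end Pool.Agent.W_7e1bc5_h54
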