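import Mathlib

/-! Sums over all bit strings of a given length. -/

set_option autoImplicit false

namespace Pool.Agent.W_7e1bc5_h54

open Finset

/-- all bit strings of length `n` -/
def strs : ℕ → Finset (List Bool)
  | 0 => {[]}
  | n + 1 => (strs n).image (fun u => true :: u) ∪ (strs n).image (fun u => false :: u)

theorem mem_strs (n : ℕ) (u : List Bool) : u ∈ strs n ↔ u.length = n := by
  induction n generalizing u with
  | zero => simp [strs]
  | succ n ih =>
    cases u with
    | nil => simp [strs]
    | cons b u =>
      cases b <;> simp [strs, ih]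

theorem sum_strs_succ {M : Type} [AddCommMonoid M] (n : ℕ) (F : List Bool → M) :
    ∑ u ∈ strs (n + 1), F u = ∑ u ∈ strs n, F (true :: u) + ∑ u ∈ strs n, F (false :: u) := by
  rw [strs, sum_union, sum_image, sum_image]
  · intro a _ b _ h
    exact (List.cons.inj h).2
  · intro a _ b _ h
    exact (List.cons.inj h).2
  · rw [disjoint_left]
    intro u h1 h2
    rw [mem_image] at h1 h2
    obtain ⟨a, -, rfl⟩ := h1
    obtain ⟨b, -, h⟩ := h2
    exact absurd (List.cons.inj h).1 (by decide)

theorem sum_strs_add {M : Type} [AddCommMonoid M] (a b : ℕ) (F : List Bool → M) :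
    ∑ u ∈ strs (a + b), F u = ∑ v ∈ strs a, ∑ w ∈ strs b, F (v ++ w) := by
  induction a generalizing F with
  | zero => simp [strs]
  | succ a ih =>
    rw [show a + 1 + b = (a + b) + 1 by omega, sum_strs_succ, sum_strs_succ, ih, ih]
    rfl

theorem sum_strs_mul (a b : ℕ) (F : List Bool → ℕ) (G : List Bool → ℕ) :
    ∑ u ∈ strs (a + b), F (u.take a) * G (u.drop a) =
      (∑ v ∈ strs a, F v) * ∑ w ∈ strs b, G w := by
  rw [sum_strs_add, sum_mul_sum]
  refine sum_congr rfl fun v hv => sum_congr rfl fun w hw => ?_
  rw [mem_strs] at hv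
  rw [← hv, List.take_left, List.drop_left]

theorem sum_strs_false (n : ℕ) :
    ∑ u ∈ strs n, (u.all (fun b => !b)).toNat = 1 := by
  induction n with
  | zero => simp [strs]
  | succ n ih =>
    rw [sum_strs_succ]
    simp only [List.all_cons, Bool.not_true, Bool.false_and, Bool.toNat_false, sum_const_zero,
      Bool.not_false, Bool.true_and, ih]

/-- padding a predicate on strings of length `a` to strings of length `b` -/
theorem sum_strs_pad (a b : ℕ) (hab : a ≤ b) (F : List Bool → Bool) :
    ∑ u ∈ strs b, (F (u.take a) && (u.drop a).all (fun b => !b)).toNat =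
      ∑ v ∈ strs a, (F v).toNat := by
  obtain ⟨d, rfl⟩ := Nat.exists_eq_add_of_le hab
  have h : ∀ u : List Bool, (F (u.take a) && (u.drop a).all (fun b => !b)).toNat =
      (F (u.take a)).toNat * ((u.drop a).all (fun b => !b)).toNat := by
    intro u
    cases F (u.take a) <;> cases (u.drop a).all (fun b => !b) <;> rfl
  rw [sum_congr rfl fun u _ => h u,
    sum_strs_mul a d (fun u => (F u).toNat) (fun u => (u.all (fun b => !b)).toNat),
    sum_strs_false, mul_one]

/-- block `i` of length `P` -/
def blk (P i : ℕ) (u : List Bool) : List Bool := (u.drop (i * P)).take P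

theorem sum_strs_prod (P n : ℕ) (F : ℕ → List Bool → ℕ) :
    ∑ u ∈ strs (n * P), ∏ i ∈ range n, F i (blk P i u) =
      ∏ i ∈ range n, ∑ v ∈ strs P, F i v := by
  induction n with
  | zero => simp [strs]
  | succ n ih =>
    rw [Nat.succ_mul, sum_strs_add, prod_range_succ, ← ih, sum_mul_sum]
    refine sum_congr rfl fun v hv => sum_congr rfl fun w hw => ?_
    rw [mem_strs] at hv hw
    rw [prod_range_succ]
    congr 1
    · refine prod_congr rfl fun i hi => ?_
      rw [mem_range] at hi
      have h1 : i * P + P ≤ v.length := by
        rw [hv]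
        have := Nat.mul_le_mul_right P (show i + 1 ≤ n by omega)
        rw [Nat.succ_mul] at this
        exact this
      rw [blk, blk, List.drop_append_of_le_length (by omega),
        List.take_append_of_le_length (by rw [List.length_drop]; omega)]
    · rw [blk, ← hv, List.drop_left, List.take_of_length_le (by omega)]

end Pool.Agent.W_7e1bc5_h54
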